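import Pool.Agent.Y18.GX.Small

/-!
# Computations in the field with `25` elements

An element `u + v θ` with `θ² = 2` is represented by the pair `(u, v)`.
-/

set_option autoImplicit false

namespace Pool.Agent.H178.GC

open Finset Pool.Agent.Y18.GX Polynomial

def mul5 (u v : ℕ × ℕ) : ℕ × ℕ := ((u.1 * v.1 + 2 * (u.2 * v.2)) % 5, (u.1 * v.2 + u.2 * v.1) % 5)

def add5 (u v : ℕ × ℕ) : ℕ × ℕ := ((u.1 + v.1) % 5, (u.2 + v.2) % 5)

def smul5 (n : ℕ) (u : ℕ × ℕ) : ℕ × ℕ := ((n * u.1) % 5, (n * u.2) % 5)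

def pow5 (u : ℕ × ℕ) : ℕ → ℕ × ℕ
  | 0 => (1, 0)
  | n + 1 => mul5 (pow5 u n) u

/-- the values of `m! (B_m(x) - B_m)` modulo `5` -/
def Fv (m x : ℕ) : ℕ :=
  if m = 1 then x % 5 else if m = 2 then (2 * x ^ 2 + 3 * x) % 5 else
    if m = 3 then (x ^ 3 + x ^ 2 + 3 * x) % 5 else (4 * x ^ 4 + 2 * x ^ 3 + 4 * x ^ 2) % 5

/-- `∑_{t < n} w(t) η^t F(x + d t)` with accumulators -/
def qs (m : ℕ) (η : ℕ × ℕ) (d : ℕ) : ℕ → ℕ → ℕ × ℕ → ℕ × ℕ → ℕ × ℕ
  | 0, _, _, acc => acc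
  | n + 1, x, pw, acc => qs m η d n ((x + d) % 5) (mul5 pw η) (add5 acc (smul5 (Fv m x) pw))

def Qv (m : ℕ) (ξ : ℕ × ℕ) (r₂ r₃ c : ℕ) : ℕ × ℕ :=
  qs m (pow5 ξ (c % 24)) ((r₂ * r₃ * (24 * r₂ * r₃) ^ 3) % 5) 24 ((c * (24 * r₂ * r₃) ^ 3) % 5) (1, 0) (0, 0)

/-- the relation with parameters `s`, `t` -/
def Rv (r₂ r₃ s t : ℕ) (neg : Bool) (m : ℕ) (y2 : ℕ × ℕ) (e : ℕ) : ℕ × ℕ :=
  let c₁ := (s * r₃ + t * r₂) % 120
  let c₂ := if neg then (t * r₂ + s * (120 - r₃)) % 120 else (s * r₃ + t * (120 - r₂)) % 120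
  let ξ := mul5 (pow5 y2 (r₃ % 8)) (pow5 (2, 3) (r₂ % 3))
  let ε := if neg then (if m % 2 = 1 then 4 * e else e) else e
  add5 (Qv m ξ r₂ r₃ c₁) (mul5 (smul5 ε (mul5 (pow5 y2 ((22 * t * c₁) % 8)) (pow5 (2, 3) ((22 * s * c₁) % 3))))
    (Qv m ξ r₂ r₃ c₂))

/-- one of the three relations fails -/
def chk (r₂ r₃ : ℕ) (g₁ g₂ g₃ : Bool) (m : ℕ) (y2 : ℕ × ℕ) (e : ℕ) : Bool :=
  (Rv r₂ r₃ 1 1 g₁ m y2 e != (0, 0)) || (Rv r₂ r₃ 3 1 g₂ m y2 e != (0, 0)) ||
    (Rv r₂ r₃ 1 2 g₃ m y2 e != (0, 0))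

def chkAll (r₂ r₃ : ℕ) : Bool :=
  [1, 2, 3, 4].all fun m => [(0, 1), (0, 4), (0, 2), (0, 3)].all fun y2 => [1, 4].all fun e =>
    chk r₂ r₃ true true true m y2 e && chk r₂ r₃ true false true m y2 e && chk r₂ r₃ false false true m y2 e &&
      chk r₂ r₃ false false false m y2 e

section
variable {k : Type*} [Field k]

/-- the element of `k` represented by a pair -/
def ph (θ : k) (u : ℕ × ℕ) : k := (u.1 : k) + u.2 * θ

lemma ph_one (θ : k) : ph θ (1, 0) = 1 := by simp [ph]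

lemma ph_zero (θ : k) : ph θ (0, 0) = 0 := by simp [ph]

lemma FF_one (x : k) : aeval x (FF 1) = x := by
  have h0 : zc 1 0 = 1 := zc_eq (by norm_num) (by norm_num [Nat.factorial])
  rw [FF, Finset.sum_range_succ, Finset.sum_range_zero, h0]
  simp [aeval_monomial]

variable [CharP k 5]

lemma nat5 (n : ℕ) : ((n % 5 : ℕ) : k) = (n : k) := by
  have h : n = n % 5 + 5 * (n / 5) := (Nat.mod_add_div n 5).symm
  have h1 : (n : k) = ((n % 5 + 5 * (n / 5) : ℕ) : k) := congrArg (fun z : ℕ => (z : k)) h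
  have h5 := five (k := k)
  rw [h1]
  push_cast
  linear_combination (-((n / 5 : ℕ) : k)) * h5

lemma ph_mul {θ : k} (hθ : θ ^ 2 = 2) (u v : ℕ × ℕ) : ph θ (mul5 u v) = ph θ u * ph θ v := by
  unfold ph mul5
  simp only [nat5]
  push_cast
  linear_combination (-(u.2 : k) * v.2) * hθ

lemma ph_add (θ : k) (u v : ℕ × ℕ) : ph θ (add5 u v) = ph θ u + ph θ v := by
  unfold ph add5
  simp only [nat5]
  push_cast
  ring

lemma ph_smul (θ : k) (n : ℕ) (u : ℕ × ℕ) : ph θ (smul5 n u) = n * ph θ u := by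
  unfold ph smul5
  simp only [nat5]
  push_cast
  ring

lemma ph_pow {θ : k} (hθ : θ ^ 2 = 2) (u : ℕ × ℕ) (n : ℕ) : ph θ (pow5 u n) = ph θ u ^ n := by
  induction n with
  | zero => rw [pow_zero]; exact ph_one θ
  | succ n ih => rw [pow_succ, ← ih, ← ph_mul hθ]; rfl

lemma ph_eq_zero {θ : k} (hθ : θ ^ 2 = 2) (u : ℕ × ℕ) (h1 : u.1 < 5) (h2 : u.2 < 5) (h : ph θ u = 0) :
    u = (0, 0) := by
  have h3 : ((u.1 ^ 2 + 3 * u.2 ^ 2 : ℕ) : k) = 0 := by
    unfold ph at h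
    push_cast
    linear_combination ((u.1 : k) - u.2 * θ) * h + (u.2 : k) ^ 2 * hθ + (u.2 : k) ^ 2 * five (k := k)
  rw [CharP.cast_eq_zero_iff k 5] at h3
  have h4 : ∀ i < 5, ∀ j < 5, 5 ∣ i ^ 2 + 3 * j ^ 2 → i = 0 ∧ j = 0 := by decide
  have h5 := h4 u.1 h1 u.2 h2 h3
  exact Prod.ext h5.1 h5.2

lemma Fv_spec {m : ℕ} (h1 : 1 ≤ m) (h4 : m ≤ 4) (x : ℕ) : ((Fv m x : ℕ) : k) = aeval (x : k) (FF m) := by
  have h5 := five (k := k)
  unfold Fv
  have hm : m = 1 ∨ m = 2 ∨ m = 3 ∨ m = 4 := by omega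
  rcases hm with rfl | rfl | rfl | rfl
  · rw [if_pos rfl, nat5, FF_one]
  · rw [if_neg (by norm_num), if_pos rfl, nat5, FF_two]
    push_cast
    linear_combination (x : k) * h5
  · rw [if_neg (by norm_num), if_neg (by norm_num), if_pos rfl, nat5, FF_three]
    push_cast
    linear_combination (-(x : k) ^ 3 + 2 * x ^ 2) * h5
  · rw [if_neg (by norm_num), if_neg (by norm_num), if_neg (by norm_num), nat5, FF_four]
    push_cast
    linear_combination (-4 * (x : k) ^ 4 + 10 * x ^ 3 - 4 * x ^ 2) * h5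

lemma div_spec {N : ℕ} (hN : ¬ 5 ∣ N) (c : ℕ) : (c : k) / (N : k) = ((c * N ^ 3 : ℕ) : k) := by
  have hN0 : (N : k) ≠ 0 := ne_of_not_dvd N hN
  rw [div_eq_iff hN0]
  have h1 : N ^ 4 % 5 = 1 := by
    rw [Nat.pow_mod]
    have : N % 5 = 1 ∨ N % 5 = 2 ∨ N % 5 = 3 ∨ N % 5 = 4 := by omega
    rcases this with h | h | h | h <;> rw [h]
  have h2 : ((N ^ 4 : ℕ) : k) = 1 := by
    rw [← nat5, h1, Nat.cast_one]
  push_cast at h2 ⊢
  linear_combination (-(c : k)) * h2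

lemma qs_spec {θ : k} (hθ : θ ^ 2 = 2) {m : ℕ} (h1 : 1 ≤ m) (h4 : m ≤ 4) (η : ℕ × ℕ) (d n : ℕ) :
    ∀ (x : ℕ) (pw acc : ℕ × ℕ), ph θ (qs m η d n x pw acc) =
      ph θ acc + ph θ pw * ∑ t ∈ range n, ph θ η ^ t * aeval ((x + d * t : ℕ) : k) (FF m) := by
  induction n with
  | zero =>
    intro x pw acc
    rw [Finset.sum_range_zero, mul_zero, add_zero]
    rfl
  | succ n ih =>
    intro x pw acc
    have h : qs m η d (n + 1) x pw acc = qs m η d n ((x + d) % 5) (mul5 pw η) (add5 acc (smul5 (Fv m x) pw)) := rfl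
    rw [h, ih, ph_add, ph_smul, ph_mul hθ, Fv_spec h1 h4, Finset.sum_range_succ']
    have h5 : ∀ t : ℕ, (((x + d) % 5 + d * t : ℕ) : k) = ((x + d * (t + 1) : ℕ) : k) := by
      intro t
      rw [Nat.cast_add, nat5]
      push_cast
      ring
    simp only [h5, pow_succ, mul_zero, add_zero, pow_zero, one_mul]
    rw [mul_add, Finset.mul_sum, Finset.mul_sum]
    have h6 : ∑ t ∈ range n, ph θ pw * ph θ η * (ph θ η ^ t * aeval ((x + d * (t + 1) : ℕ) : k) (FF m)) =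
        ∑ t ∈ range n, ph θ pw * (ph θ η ^ t * ph θ η * aeval ((x + d * (t + 1) : ℕ) : k) (FF m)) :=
      Finset.sum_congr rfl fun t _ => by ring
    rw [h6]
    ring

end

lemma pow_eq_mod {R : Type*} [Monoid R] {x : R} {r : ℕ} (hx : x ^ r = 1) (n : ℕ) : x ^ n = x ^ (n % r) := by
  conv_lhs => rw [← Nat.mod_add_div n r, pow_add, pow_mul, hx, one_pow, mul_one]

set_option maxRecDepth 100000 in
lemma chk_8_3 : chkAll 8 3 = true := by decide +kernel

set_option maxRecDepth 100000 in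
lemma chk_8_9 : chkAll 8 9 = true := by decide +kernel

set_option maxRecDepth 100000 in
lemma chk_8_27 : chkAll 8 27 = true := by decide +kernel

set_option maxRecDepth 100000 in
lemma chk_8_81 : chkAll 8 81 = true := by decide +kernel

set_option maxRecDepth 100000 in
lemma chk_16_3 : chkAll 16 3 = true := by decide +kernel

set_option maxRecDepth 100000 in
lemma chk_16_9 : chkAll 16 9 = true := by decide +kernel

set_option maxRecDepth 100000 in
lemma chk_16_27 : chkAll 16 27 = true := by decide +kernel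

set_option maxRecDepth 100000 in
lemma chk_16_81 : chkAll 16 81 = true := by decide +kernel

set_option maxRecDepth 100000 in
lemma chk_32_3 : chkAll 32 3 = true := by decide +kernel

set_option maxRecDepth 100000 in
lemma chk_32_9 : chkAll 32 9 = true := by decide +kernel

set_option maxRecDepth 100000 in
lemma chk_32_27 : chkAll 32 27 = true := by decide +kernel

set_option maxRecDepth 100000 in
lemma chk_32_81 : chkAll 32 81 = true := by decide +kernel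

set_option maxRecDepth 100000 in
lemma chk_64_3 : chkAll 64 3 = true := by decide +kernel

set_option maxRecDepth 100000 in
lemma chk_64_9 : chkAll 64 9 = true := by decide +kernel

set_option maxRecDepth 100000 in
lemma chk_64_27 : chkAll 64 27 = true := by decide +kernel

set_option maxRecDepth 100000 in
lemma chk_64_81 : chkAll 64 81 = true := by decide +kernel

lemma chk_all {r₂ r₃ : ℕ} (h2 : r₂ = 8 ∨ r₂ = 16 ∨ r₂ = 32 ∨ r₂ = 64) (h3 : r₃ = 3 ∨ r₃ = 9 ∨ r₃ = 27 ∨ r₃ = 81) :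
    chkAll r₂ r₃ = true := by
  rcases h2 with rfl | rfl | rfl | rfl <;> rcases h3 with rfl | rfl | rfl | rfl
  · exact chk_8_3
  · exact chk_8_9
  · exact chk_8_27
  · exact chk_8_81
  · exact chk_16_3
  · exact chk_16_9
  · exact chk_16_27
  · exact chk_16_81
  · exact chk_32_3
  · exact chk_32_9
  · exact chk_32_27
  · exact chk_32_81
  · exact chk_64_3
  · exact chk_64_9
  · exact chk_64_27
  · exact chk_64_81

end Pool.Agent.H178.GC
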