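import Pool.Agent.H178.GC.Rel
import Pool.Agent.H178.GC.F25

/-!
# The prime `5` and the levels `2^a 3^b` with `6 ≤ a`, `2 ≤ b`
-/

set_option autoImplicit false

namespace Pool.Agent.H178.GC

open Finset Pool.Agent.Y18.GX Polynomial

lemma pow2_mod {A : ℕ} (hA : 3 ≤ A) : 2 ^ A % 120 = 8 ∨ 2 ^ A % 120 = 16 ∨ 2 ^ A % 120 = 32 ∨ 2 ^ A % 120 = 64 := by
  induction A, hA using Nat.le_induction with
  | base => decide
  | succ A _ ih =>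
    rw [pow_succ]
    omega

lemma pow3_mod {B : ℕ} (hB : 1 ≤ B) : 3 ^ B % 120 = 3 ∨ 3 ^ B % 120 = 9 ∨ 3 ^ B % 120 = 27 ∨ 3 ^ B % 120 = 81 := by
  induction B, hB using Nat.le_induction with
  | base => decide
  | succ B _ ih =>
    rw [pow_succ]
    omega

section
variable {k : Type*} [Field k] [CharP k 5]

/-- the data for the computation in the field with `25` elements -/
structure Dat5 (a b m : ℕ) (χ : MulChar (ZMod (2 ^ a * 3 ^ b)) k) (θ : k) (y2 : ℕ × ℕ) (r₂ r₃ : ℕ) : Prop where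
  D : Dat a b m χ
  hθ : θ ^ 2 = 2
  hy2 : x2 χ = ph θ y2
  hx3 : x3 χ = ph θ (2, 3)
  h8 : x2 χ ^ 8 = 1
  h3 : x3 χ ^ 3 = 1
  hr₂ : 2 ^ (a - 3) % 120 = r₂
  hr₃ : 3 ^ (b - 1) % 120 = r₃
  hm1 : 1 ≤ m
  hm4 : m ≤ 4

section
variable {a b m : ℕ} {χ : MulChar (ZMod (2 ^ a * 3 ^ b)) k} {θ : k} {y2 : ℕ × ℕ} {r₂ r₃ : ℕ}

lemma Dat5.QQ_spec (E : Dat5 a b m χ θ y2 r₂ r₃) {c c₀ : ℕ} (hc : c % 120 = c₀) :
    QQ a b m χ c = ph θ (Qv m (mul5 (pow5 y2 (r₃ % 8)) (pow5 (2, 3) (r₂ % 3))) r₂ r₃ c₀) := by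
  have hr₂ := E.hr₂
  have hr₃ := E.hr₃
  rw [Qv, qs_spec E.hθ E.hm1 E.hm4, ph_zero, ph_one, zero_add, one_mul, QQ]
  refine Finset.sum_congr rfl fun t _ => ?_
  have e1 : x2 χ ^ 3 ^ (b - 1) = ph θ (pow5 y2 (r₃ % 8)) := by
    rw [ph_pow E.hθ, ← E.hy2, pow_eq_mod E.h8 (3 ^ (b - 1))]
    congr 1
    omega
  have e2 : x3 χ ^ 2 ^ (a - 3) = ph θ (pow5 (2, 3) (r₂ % 3)) := by
    rw [ph_pow E.hθ, ← E.hx3, pow_eq_mod E.h3 (2 ^ (a - 3))]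
    congr 1
    omega
  have e3 : (x2 χ ^ 3 ^ (b - 1) * x3 χ ^ 2 ^ (a - 3)) ^ 24 = 1 := by
    rw [mul_pow, ← pow_mul, ← pow_mul, show 3 ^ (b - 1) * 24 = 8 * (3 ^ (b - 1) * 3) by ring,
      show 2 ^ (a - 3) * 24 = 3 * (2 ^ (a - 3) * 8) by ring, pow_mul, pow_mul (x3 χ), E.h8, E.h3, one_pow, one_pow,
      one_mul]
  have e4 : (x2 χ ^ 3 ^ (b - 1) * x3 χ ^ 2 ^ (a - 3)) ^ (c * t) =
      ph θ (pow5 (mul5 (pow5 y2 (r₃ % 8)) (pow5 (2, 3) (r₂ % 3))) (c₀ % 24)) ^ t := by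
    rw [ph_pow E.hθ, ph_mul E.hθ, ← e1, ← e2, pow_mul, pow_eq_mod e3 c]
    congr 2
    omega
  have e5 : ¬ 5 ∣ 2 ^ a * 3 ^ b := by
    intro h
    rcases (Nat.Prime.dvd_mul (by norm_num : Nat.Prime 5)).1 h with h | h
    · have := Nat.Prime.dvd_of_dvd_pow (by norm_num : Nat.Prime 5) h
      omega
    · have := Nat.Prime.dvd_of_dvd_pow (by norm_num : Nat.Prime 5) h
      omega
  have e6 : (((c + 2 ^ (a - 3) * 3 ^ (b - 1) * t : ℕ) : k) / (2 ^ a * 3 ^ b : ℕ)) =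
      (((c₀ * (24 * r₂ * r₃) ^ 3) % 5 + (r₂ * r₃ * (24 * r₂ * r₃) ^ 3) % 5 * t : ℕ) : k) := by
    rw [div_spec e5, Nat.cast_add, Nat.cast_mul _ t, nat5, nat5, E.D.N24]
    have f2 : ((2 ^ (a - 3) : ℕ) : k) = (r₂ : k) := by
      rw [← nat5, ← nat5 r₂, ← hr₂, Nat.mod_mod_of_dvd _ (by norm_num)]
    have f3 : ((3 ^ (b - 1) : ℕ) : k) = (r₃ : k) := by
      rw [← nat5, ← nat5 r₃, ← hr₃, Nat.mod_mod_of_dvd _ (by norm_num)]
    have f4 : (c : k) = (c₀ : k) := by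
      rw [← nat5, ← nat5 c₀, ← hc, Nat.mod_mod_of_dvd _ (by norm_num)]
    push_cast at f2 f3 ⊢
    rw [f2, f3, f4]
    ring
  rw [e4, e6]

lemma Dat5.Rv_pos (E : Dat5 a b m χ θ y2 r₂ r₃) {e s t c : ℕ} (he : c2 (cop23 a b) χ (-1) = e)
    (hc : c + t * 2 ^ (a - 3) = s * 3 ^ (b - 1)) :
    QQ a b m χ (s * 3 ^ (b - 1) + t * 2 ^ (a - 3)) + c2 (cop23 a b) χ (-1) *
      x2 χ ^ (22 * t * (s * 3 ^ (b - 1) + t * 2 ^ (a - 3))) *
      x3 χ ^ (22 * s * (s * 3 ^ (b - 1) + t * 2 ^ (a - 3))) * QQ a b m χ c =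
    ph θ (Rv r₂ r₃ s t false m y2 e) := by
  have hr₂ := E.hr₂
  have hr₃ := E.hr₃
  have g1 : (s * 3 ^ (b - 1) + t * 2 ^ (a - 3)) % 120 = (s * r₃ + t * r₂) % 120 := by
    rw [← hr₂, ← hr₃, Nat.add_mod, Nat.mul_mod, Nat.mul_mod t]
    conv_rhs => rw [Nat.add_mod, Nat.mul_mod, Nat.mul_mod t]
    simp
  have g2 : c % 120 = (s * r₃ + t * (120 - r₂)) % 120 := by
    have h1 : c + t * r₂ ≡ s * r₃ [MOD 120] := by
      calc c + t * r₂ ≡ c + t * 2 ^ (a - 3) [MOD 120] :=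
            (Nat.ModEq.mul_left t (by rw [Nat.ModEq, ← hr₂, Nat.mod_mod])).add_left c
        _ = s * 3 ^ (b - 1) := hc
        _ ≡ s * r₃ [MOD 120] := Nat.ModEq.mul_left s (by rw [Nat.ModEq, ← hr₃, Nat.mod_mod])
    have h2 : r₂ < 120 := by rw [← hr₂]; exact Nat.mod_lt _ (by norm_num)
    have h3 : c + t * 120 ≡ s * r₃ + t * (120 - r₂) [MOD 120] := by
      have h4 : c + t * 120 = (c + t * r₂) + t * (120 - r₂) := by
        have : t * 120 = t * r₂ + t * (120 - r₂) := by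
          rw [← mul_add]
          congr 1
          omega
        omega
      rw [h4]
      exact h1.add_right _
    have h5 : c + t * 120 ≡ c [MOD 120] := by
      rw [Nat.ModEq, Nat.add_mul_mod_self_right]
    exact h5.symm.trans h3
  have q1 := E.QQ_spec g1
  have q2 := E.QQ_spec g2
  have p1 : x2 χ ^ (22 * t * (s * 3 ^ (b - 1) + t * 2 ^ (a - 3))) =
      ph θ (pow5 y2 ((22 * t * ((s * r₃ + t * r₂) % 120)) % 8)) := by
    rw [ph_pow E.hθ, ← E.hy2, pow_eq_mod E.h8 (22 * t * (s * 3 ^ (b - 1) + t * 2 ^ (a - 3)))]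
    congr 1
    have : s * 3 ^ (b - 1) + t * 2 ^ (a - 3) ≡ (s * r₃ + t * r₂) % 120 [MOD 8] := by
      have h1 : s * 3 ^ (b - 1) + t * 2 ^ (a - 3) ≡ (s * r₃ + t * r₂) % 120 [MOD 120] := by
        rw [Nat.ModEq, g1, Nat.mod_mod]
      exact h1.of_dvd (by norm_num)
    exact (this.mul_left (22 * t))
  have p2 : x3 χ ^ (22 * s * (s * 3 ^ (b - 1) + t * 2 ^ (a - 3))) =
      ph θ (pow5 (2, 3) ((22 * s * ((s * r₃ + t * r₂) % 120)) % 3)) := by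
    rw [ph_pow E.hθ, ← E.hx3, pow_eq_mod E.h3 (22 * s * (s * 3 ^ (b - 1) + t * 2 ^ (a - 3)))]
    congr 1
    have : s * 3 ^ (b - 1) + t * 2 ^ (a - 3) ≡ (s * r₃ + t * r₂) % 120 [MOD 3] := by
      have h1 : s * 3 ^ (b - 1) + t * 2 ^ (a - 3) ≡ (s * r₃ + t * r₂) % 120 [MOD 120] := by
        rw [Nat.ModEq, g1, Nat.mod_mod]
      exact h1.of_dvd (by norm_num)
    exact (this.mul_left (22 * s))
  have hR : Rv r₂ r₃ s t false m y2 e = add5 (Qv m (mul5 (pow5 y2 (r₃ % 8)) (pow5 (2, 3) (r₂ % 3))) r₂ r₃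
      ((s * r₃ + t * r₂) % 120)) (mul5 (smul5 e (mul5 (pow5 y2 ((22 * t * ((s * r₃ + t * r₂) % 120)) % 8))
      (pow5 (2, 3) ((22 * s * ((s * r₃ + t * r₂) % 120)) % 3))))
      (Qv m (mul5 (pow5 y2 (r₃ % 8)) (pow5 (2, 3) (r₂ % 3))) r₂ r₃ ((s * r₃ + t * (120 - r₂)) % 120))) := rfl
  rw [hR, ph_add, ph_mul E.hθ, ph_smul, ph_mul E.hθ, ← q1, ← q2, ← p1, ← p2, he]
  ring

lemma Dat5.Rv_neg (E : Dat5 a b m χ θ y2 r₂ r₃) {e s t c : ℕ} (he : c2 (cop23 a b) χ (-1) = e)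
    (hee : (e : k) ^ 2 = 1)
    (hc : c + s * 3 ^ (b - 1) = t * 2 ^ (a - 3)) :
    QQ a b m χ (s * 3 ^ (b - 1) + t * 2 ^ (a - 3)) + c1 (cop23 a b) χ (-1) *
      x2 χ ^ (22 * t * (s * 3 ^ (b - 1) + t * 2 ^ (a - 3))) *
      x3 χ ^ (22 * s * (s * 3 ^ (b - 1) + t * 2 ^ (a - 3))) * QQ a b m χ c =
    ph θ (Rv r₂ r₃ s t true m y2 e) := by
  have hr₂ := E.hr₂
  have hr₃ := E.hr₃
  have g1 : (s * 3 ^ (b - 1) + t * 2 ^ (a - 3)) % 120 = (s * r₃ + t * r₂) % 120 := by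
    rw [← hr₂, ← hr₃, Nat.add_mod, Nat.mul_mod, Nat.mul_mod t]
    conv_rhs => rw [Nat.add_mod, Nat.mul_mod, Nat.mul_mod t]
    simp
  have g2 : c % 120 = (t * r₂ + s * (120 - r₃)) % 120 := by
    have h1 : c + s * r₃ ≡ t * r₂ [MOD 120] := by
      calc c + s * r₃ ≡ c + s * 3 ^ (b - 1) [MOD 120] :=
            (Nat.ModEq.mul_left s (by rw [Nat.ModEq, ← hr₃, Nat.mod_mod])).add_left c
        _ = t * 2 ^ (a - 3) := hc
        _ ≡ t * r₂ [MOD 120] := Nat.ModEq.mul_left t (by rw [Nat.ModEq, ← hr₂, Nat.mod_mod])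
    have h2 : r₃ < 120 := by rw [← hr₃]; exact Nat.mod_lt _ (by norm_num)
    have h3 : c + s * 120 ≡ t * r₂ + s * (120 - r₃) [MOD 120] := by
      have h4 : c + s * 120 = (c + s * r₃) + s * (120 - r₃) := by
        have : s * 120 = s * r₃ + s * (120 - r₃) := by
          rw [← mul_add]
          congr 1
          omega
        omega
      rw [h4]
      exact h1.add_right _
    have h5 : c + s * 120 ≡ c [MOD 120] := by
      rw [Nat.ModEq, Nat.add_mul_mod_self_right]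
    exact h5.symm.trans h3
  have q1 := E.QQ_spec g1
  have q2 := E.QQ_spec g2
  have p1 : x2 χ ^ (22 * t * (s * 3 ^ (b - 1) + t * 2 ^ (a - 3))) =
      ph θ (pow5 y2 ((22 * t * ((s * r₃ + t * r₂) % 120)) % 8)) := by
    rw [ph_pow E.hθ, ← E.hy2, pow_eq_mod E.h8 (22 * t * (s * 3 ^ (b - 1) + t * 2 ^ (a - 3)))]
    congr 1
    have : s * 3 ^ (b - 1) + t * 2 ^ (a - 3) ≡ (s * r₃ + t * r₂) % 120 [MOD 8] := by
      have h1 : s * 3 ^ (b - 1) + t * 2 ^ (a - 3) ≡ (s * r₃ + t * r₂) % 120 [MOD 120] := by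
        rw [Nat.ModEq, g1, Nat.mod_mod]
      exact h1.of_dvd (by norm_num)
    exact (this.mul_left (22 * t))
  have p2 : x3 χ ^ (22 * s * (s * 3 ^ (b - 1) + t * 2 ^ (a - 3))) =
      ph θ (pow5 (2, 3) ((22 * s * ((s * r₃ + t * r₂) % 120)) % 3)) := by
    rw [ph_pow E.hθ, ← E.hx3, pow_eq_mod E.h3 (22 * s * (s * 3 ^ (b - 1) + t * 2 ^ (a - 3)))]
    congr 1
    have : s * 3 ^ (b - 1) + t * 2 ^ (a - 3) ≡ (s * r₃ + t * r₂) % 120 [MOD 3] := by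
      have h1 : s * 3 ^ (b - 1) + t * 2 ^ (a - 3) ≡ (s * r₃ + t * r₂) % 120 [MOD 120] := by
        rw [Nat.ModEq, g1, Nat.mod_mod]
      exact h1.of_dvd (by norm_num)
    exact (this.mul_left (22 * s))
  have hε : c1 (cop23 a b) χ (-1) = ((if m % 2 = 1 then 4 * e else e : ℕ) : k) := by
    have h1 := E.D.hpar
    rw [cc_neg (cop23 a b) χ, he] at h1
    have h2 : c1 (cop23 a b) χ (-1) = (-1) ^ m * e := by
      linear_combination (e : k) * h1 - c1 (cop23 a b) χ (-1) * hee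
    rw [h2]
    split_ifs with hodd
    · have : Odd m := Nat.odd_iff.2 hodd
      rw [this.neg_one_pow]
      push_cast
      linear_combination (-(e : k)) * five (k := k)
    · have : Even m := by
        rw [Nat.even_iff]
        omega
      rw [this.neg_one_pow, one_mul]
  have hR : Rv r₂ r₃ s t true m y2 e = add5 (Qv m (mul5 (pow5 y2 (r₃ % 8)) (pow5 (2, 3) (r₂ % 3))) r₂ r₃
      ((s * r₃ + t * r₂) % 120)) (mul5 (smul5 (if m % 2 = 1 then 4 * e else e)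
      (mul5 (pow5 y2 ((22 * t * ((s * r₃ + t * r₂) % 120)) % 8))
      (pow5 (2, 3) ((22 * s * ((s * r₃ + t * r₂) % 120)) % 3))))
      (Qv m (mul5 (pow5 y2 (r₃ % 8)) (pow5 (2, 3) (r₂ % 3))) r₂ r₃ ((t * r₂ + s * (120 - r₃)) % 120))) := rfl
  rw [hR, ph_add, ph_mul E.hθ, ph_smul, ph_mul E.hθ, ← q1, ← q2, ← p1, ← p2, hε]
  ring

end

lemma Rv_lt (r₂ r₃ s t : ℕ) (g : Bool) (m : ℕ) (y2 : ℕ × ℕ) (e : ℕ) :
    (Rv r₂ r₃ s t g m y2 e).1 < 5 ∧ (Rv r₂ r₃ s t g m y2 e).2 < 5 := by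
  unfold Rv add5
  exact ⟨Nat.mod_lt _ (by norm_num), Nat.mod_lt _ (by norm_num)⟩

end

end Pool.Agent.H178.GC
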