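import Pool.Agent.H178.GC.CaseA

/-!
# The prime `5` and the levels `2^a 3^b` with `6 ≤ a`, `2 ≤ b`: conclusion
-/

set_option autoImplicit false

namespace Pool.Agent.H178.GC

open Finset Pool.Agent.Y18.GX Polynomial

lemma chk_false {r₂ r₃ : ℕ} {g₁ g₂ g₃ : Bool} {m : ℕ} {y2 : ℕ × ℕ} {e : ℕ} (h : chk r₂ r₃ g₁ g₂ g₃ m y2 e = true)
    (h1 : Rv r₂ r₃ 1 1 g₁ m y2 e = (0, 0)) (h2 : Rv r₂ r₃ 3 1 g₂ m y2 e = (0, 0))
    (h3 : Rv r₂ r₃ 1 2 g₃ m y2 e = (0, 0)) : False := by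
  unfold chk at h
  rw [h1, h2, h3] at h
  exact absurd h (by decide)

lemma chkAll_spec {r₂ r₃ m e : ℕ} {y2 : ℕ × ℕ} (h : chkAll r₂ r₃ = true) (hm1 : 1 ≤ m) (hm4 : m ≤ 4)
    (hy : y2 = (0, 1) ∨ y2 = (0, 4) ∨ y2 = (0, 2) ∨ y2 = (0, 3)) (he : e = 1 ∨ e = 4) :
    chk r₂ r₃ true true true m y2 e = true ∧ chk r₂ r₃ true false true m y2 e = true ∧
      chk r₂ r₃ false false true m y2 e = true ∧ chk r₂ r₃ false false false m y2 e = true := by
  unfold chkAll at h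
  have hm : m ∈ [1, 2, 3, 4] := by
    simp only [List.mem_cons, List.not_mem_nil, or_false]
    omega
  have h1 := List.all_eq_true.1 h m hm
  have hy' : y2 ∈ [((0 : ℕ), (1 : ℕ)), (0, 4), (0, 2), (0, 3)] := by
    simp only [List.mem_cons, List.not_mem_nil, or_false]
    exact hy
  have h2 := List.all_eq_true.1 h1 y2 hy'
  have he' : e ∈ [1, 4] := by
    simp only [List.mem_cons, List.not_mem_nil, or_false]
    exact he
  have h3 := List.all_eq_true.1 h2 e he'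
  simp only [Bool.and_eq_true] at h3
  exact ⟨h3.1.1.1, h3.1.1.2, h3.1.2, h3.2⟩

lemma sizes {A B : ℕ} (hA : 8 ≤ A) (hB : 3 ≤ B) :
    1 * B + 1 * A < A * B ∧ 3 * B + 1 * A < A * B ∧ 1 * B + 2 * A < A * B := by
  obtain ⟨x, rfl⟩ : ∃ x, A = 8 + x := ⟨A - 8, by omega⟩
  obtain ⟨y, rfl⟩ : ∃ y, B = 3 + y := ⟨B - 3, by omega⟩
  have h : (8 + x) * (3 + y) = 24 + 8 * y + 3 * x + x * y := by ring
  rw [h]
  refine ⟨?_, ?_, ?_⟩ <;> nlinarith [Nat.zero_le (x * y)]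

section
variable {k : Type*} [Field k] [CharP k 5]

lemma two_ne : (2 : k) ≠ 0 := by exact_mod_cast ne_of_not_dvd (k := k) 2 (by norm_num)

/-- the primitive eighth roots of unity -/
lemma eighth {θ x : k} (hθ : θ ^ 2 = 2) (h8 : x ^ 8 = 1) (h4 : x ^ 4 ≠ 1) :
    ∃ y : ℕ × ℕ, (y = (0, 1) ∨ y = (0, 4) ∨ y = (0, 2) ∨ y = (0, 3)) ∧ x = ph θ y := by
  have h5 := five (k := k)
  have e1 : (x ^ 4 - 1) * (x ^ 4 + 1) = 0 := by linear_combination h8
  have e2 : x ^ 4 + 1 = 0 := by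
    rcases mul_eq_zero.1 e1 with h | h
    · exact absurd (sub_eq_zero.1 h) h4
    · exact h
  have e3 : ((x - θ) * (x + θ)) * ((x - 2 * θ) * (x + 2 * θ)) = 0 := by
    linear_combination e2 - 5 * x ^ 2 * hθ + 4 * (θ ^ 2 + 2) * hθ + (3 - 2 * x ^ 2) * h5
  rcases mul_eq_zero.1 e3 with h | h
  · rcases mul_eq_zero.1 h with h | h
    · exact ⟨(0, 1), Or.inl rfl, by rw [sub_eq_zero.1 h]; simp [ph]⟩
    · refine ⟨(0, 4), Or.inr (Or.inl rfl), ?_⟩
      simp only [ph]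
      push_cast
      linear_combination h - θ * h5
  · rcases mul_eq_zero.1 h with h | h
    · refine ⟨(0, 2), Or.inr (Or.inr (Or.inl rfl)), ?_⟩
      simp only [ph]
      push_cast
      linear_combination h
    · refine ⟨(0, 3), Or.inr (Or.inr (Or.inr rfl)), ?_⟩
      simp only [ph]
      push_cast
      linear_combination h - θ * h5

/-- a square root of `2` from a primitive third root of unity -/
lemma third {x : k} (h3 : x ^ 3 = 1) (h1 : x ≠ 1) : (2 * x + 1) ^ 2 = 2 ∧ x = ph (2 * x + 1) (2, 3) := by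
  have h5 := five (k := k)
  have e1 : (x - 1) * (x ^ 2 + x + 1) = 0 := by linear_combination h3
  have e2 : x ^ 2 + x + 1 = 0 := by
    rcases mul_eq_zero.1 e1 with h | h
    · exact absurd (sub_eq_zero.1 h) h1
    · exact h
  constructor
  · linear_combination 4 * e2 - h5
  · simp only [ph]
    push_cast
    linear_combination (-(x + 1)) * h5

theorem caseA {a b m : ℕ} {χ : MulChar (ZMod (2 ^ a * 3 ^ b)) k} (D : Dat a b m χ) (hm1 : 1 ≤ m) (hm4 : m ≤ 4) :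
    ∑ x ∈ range (2 ^ a * 3 ^ b), χ (x : ZMod (2 ^ a * 3 ^ b)) *
      Polynomial.aeval ((x : k) / (2 ^ a * 3 ^ b : ℕ)) (FF m) ≠ 0 := by
  intro hS
  have : Fact (Nat.Prime 5) := ⟨by norm_num⟩
  have ha := D.ha
  have hb := D.hb
  have h3 : x3 χ ^ 3 = 1 := by
    have := psi_M_pow (n := 1) (c2 (cop23 a b) χ) (by omega)
    rw [pow_one] at this
    exact this
  have h31 : x3 χ ≠ 1 := D.prim3
  have h8 : x2 χ ^ 8 = 1 := psi_M_pow (n := 3) (c1 (cop23 a b) χ) (by omega)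
  have h4 : x2 χ ^ 4 ≠ 1 := by
    have := psi_M_pow' (n := 3) (c1 (cop23 a b) χ) (by omega) (by norm_num)
    intro h
    apply D.prim2
    rw [← this]
    exact h
  obtain ⟨hθ, hx3⟩ := third h3 h31
  obtain ⟨y2, hy, hx2⟩ := eighth hθ h8 h4
  obtain ⟨e, he, hee⟩ : ∃ e : ℕ, (e = 1 ∨ e = 4) ∧ c2 (cop23 a b) χ (-1) = e := by
    have h1 : c2 (cop23 a b) χ (-1) ^ 2 = 1 := by
      rw [← map_pow]
      simp
    have h2 : (c2 (cop23 a b) χ (-1) - 1) * (c2 (cop23 a b) χ (-1) + 1) = 0 := by linear_combination h1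
    rcases mul_eq_zero.1 h2 with h | h
    · exact ⟨1, Or.inl rfl, by rw [sub_eq_zero.1 h, Nat.cast_one]⟩
    · refine ⟨4, Or.inr rfl, ?_⟩
      push_cast
      linear_combination h - five (k := k)
  have hee2 : (e : k) ^ 2 = 1 := by
    rw [← hee, ← map_pow]
    simp
  have E : Dat5 a b m χ (2 * x3 χ + 1) y2 (2 ^ (a - 3) % 120) (3 ^ (b - 1) % 120) :=
    ⟨D, hθ, hx2, hx3, h8, h3, rfl, rfl, hm1, hm4⟩
  have hchk := chkAll_spec (chk_all (pow2_mod (show 3 ≤ a - 3 by omega)) (pow3_mod (show 1 ≤ b - 1 by omega)))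
    hm1 hm4 hy he
  have hq : 5 ^ 2 - 1 = 24 * 1 := by norm_num
  -- sizes
  have hA8 : 8 ≤ 2 ^ (a - 3) := by
    calc 8 = 2 ^ 3 := by norm_num
      _ ≤ 2 ^ (a - 3) := Nat.pow_le_pow_right (by norm_num) (by omega)
  have hB3 : 3 ≤ 3 ^ (b - 1) := by
    calc 3 = 3 ^ 1 := by norm_num
      _ ≤ 3 ^ (b - 1) := Nat.pow_le_pow_right (by norm_num) (by omega)
  have h11 := odd_part (s := 1) (t := 1) (A := a - 3) (B := b - 1) (by norm_num) (by omega)
  have h31' := odd_part (s := 3) (t := 1) (A := a - 3) (B := b - 1) (by norm_num) (by omega)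
  have h12 := odd_part (s := 1) (t := 2) (A := a - 3) (B := b - 1) (by norm_num) (by omega)
  obtain ⟨l11, l31, l12⟩ := sizes hA8 hB3
  have pos : ∀ s t : ℕ, ¬ 2 ∣ s → ¬ 3 ∣ t → s * 3 ^ (b - 1) + t * 2 ^ (a - 3) < 2 ^ (a - 3) * 3 ^ (b - 1) →
      t * 2 ^ (a - 3) < s * 3 ^ (b - 1) → Rv (2 ^ (a - 3) % 120) (3 ^ (b - 1) % 120) s t false m y2 e = (0, 0) := by
    intro s t hs ht hl hlt
    have hc : (s * 3 ^ (b - 1) - t * 2 ^ (a - 3)) + t * 2 ^ (a - 3) = s * 3 ^ (b - 1) := by omega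
    have r1 := rel_pos (p := 5) D hq (by norm_num) hS hs ht hl hc
    rw [E.Rv_pos hee hc] at r1
    exact ph_eq_zero hθ _ (Rv_lt _ _ _ _ _ _ _ _).1 (Rv_lt _ _ _ _ _ _ _ _).2 r1
  have neg : ∀ s t : ℕ, ¬ 2 ∣ s → ¬ 3 ∣ t → s * 3 ^ (b - 1) + t * 2 ^ (a - 3) < 2 ^ (a - 3) * 3 ^ (b - 1) →
      s * 3 ^ (b - 1) < t * 2 ^ (a - 3) → Rv (2 ^ (a - 3) % 120) (3 ^ (b - 1) % 120) s t true m y2 e = (0, 0) := by
    intro s t hs ht hl hlt
    have hc : (t * 2 ^ (a - 3) - s * 3 ^ (b - 1)) + s * 3 ^ (b - 1) = t * 2 ^ (a - 3) := by omega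
    have r1 := rel_neg (p := 5) D hq (by norm_num) hS hs ht hl hc
    rw [E.Rv_neg hee hee2 hc] at r1
    exact ph_eq_zero hθ _ (Rv_lt _ _ _ _ _ _ _ _).1 (Rv_lt _ _ _ _ _ _ _ _).2 r1
  rcases Nat.lt_or_ge (3 * 3 ^ (b - 1)) (2 ^ (a - 3)) with c1 | c1
  · exact chk_false hchk.1 (neg 1 1 (by norm_num) (by norm_num) l11 (by omega))
      (neg 3 1 (by norm_num) (by norm_num) l31 (by omega)) (neg 1 2 (by norm_num) (by norm_num) l12 (by omega))
  · have c1' : 1 * 2 ^ (a - 3) < 3 * 3 ^ (b - 1) := by omega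
    rcases Nat.lt_or_ge (3 ^ (b - 1)) (2 ^ (a - 3)) with c2 | c2
    · exact chk_false hchk.2.1 (neg 1 1 (by norm_num) (by norm_num) l11 (by omega))
        (pos 3 1 (by norm_num) (by norm_num) l31 c1') (neg 1 2 (by norm_num) (by norm_num) l12 (by omega))
    · have c2' : 1 * 2 ^ (a - 3) < 1 * 3 ^ (b - 1) := by omega
      rcases Nat.lt_or_ge (3 ^ (b - 1)) (2 * 2 ^ (a - 3)) with c3 | c3
      · exact chk_false hchk.2.2.1 (pos 1 1 (by norm_num) (by norm_num) l11 c2')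
          (pos 3 1 (by norm_num) (by norm_num) l31 c1') (neg 1 2 (by norm_num) (by norm_num) l12 (by omega))
      · exact chk_false hchk.2.2.2 (pos 1 1 (by norm_num) (by norm_num) l11 c2')
          (pos 3 1 (by norm_num) (by norm_num) l31 c1') (pos 1 2 (by norm_num) (by norm_num) l12 (by omega))

end

end Pool.Agent.H178.GC
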