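import Pool.Agent.H178.GC.CaseC2

/-!
# The prime `5` and the levels `2^a 3^b` with `b ≤ 1`
-/

set_option autoImplicit false

namespace Pool.Agent.H178.GC

open Finset Pool.Agent.Y18.GX Polynomial

def vB (b r m : ℕ) (ξ : ℕ × ℕ) : ℕ × ℕ :=
  qg m (((3 ^ b * 8 * r) ^ 3) % 5) (fun x => (tb3 b x, 0)) ξ r 120 (3 ^ b * 8) 1 (1, 0) (0, 0)

def chkB : Bool :=
  [0, 1].all fun b => [8, 16, 32, 64].all fun r => [1, 2, 3, 4].all fun m =>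
    [((0 : ℕ), (1 : ℕ)), (0, 4), (0, 2), (0, 3)].all fun ξ => vB b r m ξ != (0, 0)

set_option maxRecDepth 100000 in
lemma chkB_all : chkB = true := by decide +kernel

def vD (a b m σ : ℕ) (η : ℕ × ℕ) : ℕ × ℕ :=
  qg m (((2 ^ a * 3 ^ b) ^ 3) % 5) (fun x => smul5 (tb3 b x) (tb a σ η x)) (1, 0) 1 480 (2 ^ a * 3 ^ b) 0 (1, 0) (0, 0)

def exD (a b m : ℕ) : Bool := (a == 4 && b == 0 && m == 2) || (a == 4 && b == 1 && m == 3)

def chkD (a b : ℕ) : Bool :=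
  [1, 2, 3, 4].all fun m => (lsg a).all fun σ => (lst a).all fun η =>
    ((σ * 4 ^ b) % 5 != 4 ^ m % 5) || (exD a b m) || (vD a b m σ η != (0, 0))

set_option maxRecDepth 100000 in
lemma chkD_all : ([(0, 1), (2, 0), (3, 0), (4, 0), (5, 0), (2, 1), (3, 1), (4, 1), (5, 1)].all
    fun z : ℕ × ℕ => chkD z.1 z.2) = true := by decide +kernel

lemma chkB_spec {b r m : ℕ} {ξ : ℕ × ℕ} (hb : b ≤ 1) (hr : r = 8 ∨ r = 16 ∨ r = 32 ∨ r = 64) (hm1 : 1 ≤ m)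
    (hm4 : m ≤ 4) (hξ : ξ = (0, 1) ∨ ξ = (0, 4) ∨ ξ = (0, 2) ∨ ξ = (0, 3)) (h : vB b r m ξ = (0, 0)) : False := by
  have h0 := chkB_all
  unfold chkB at h0
  have e0 := List.all_eq_true.1 h0 b (by
    simp only [List.mem_cons, List.not_mem_nil, or_false]
    omega)
  have e1 := List.all_eq_true.1 e0 r (by
    simp only [List.mem_cons, List.not_mem_nil, or_false]
    exact hr)
  have e2 := List.all_eq_true.1 e1 m (by
    simp only [List.mem_cons, List.not_mem_nil, or_false]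
    omega)
  have e3 := List.all_eq_true.1 e2 ξ (by
    simp only [List.mem_cons, List.not_mem_nil, or_false]
    exact hξ)
  rw [h] at e3
  exact absurd e3 (by decide)

lemma chkD_spec {a b m σ : ℕ} {η : ℕ × ℕ} (ha : a = 0 ∨ (2 ≤ a ∧ a ≤ 5)) (hb : b ≤ 1) (h00 : ¬ (a = 0 ∧ b = 0))
    (hm1 : 1 ≤ m) (hm4 : m ≤ 4) (hσ : σ ∈ lsg a) (hη : η ∈ lst a) (hpar : (σ * 4 ^ b) % 5 = 4 ^ m % 5)
    (hexc1 : ¬ (a = 4 ∧ b = 0 ∧ m = 2)) (hexc2 : ¬ (a = 4 ∧ b = 1 ∧ m = 3)) (h : vD a b m σ η = (0, 0)) : False := by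
  have h0 := List.all_eq_true.1 chkD_all (a, b) (by
    simp only [List.mem_cons, List.not_mem_nil, or_false, Prod.mk.injEq]
    omega)
  simp only at h0
  unfold chkD at h0
  have e1 := List.all_eq_true.1 h0 m (by
    simp only [List.mem_cons, List.not_mem_nil, or_false]
    omega)
  have e2 := List.all_eq_true.1 e1 σ hσ
  have e3 := List.all_eq_true.1 e2 η hη
  rw [h, hpar] at e3
  simp only [bne_self_eq_false, Bool.false_or, Bool.or_false, exD, Bool.or_eq_true, Bool.and_eq_true,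
    beq_iff_eq] at e3
  rcases e3 with h | h
  · exact hexc1 ⟨h.1.1, h.1.2, h.2⟩
  · exact hexc2 ⟨h.1.1, h.1.2, h.2⟩

section
variable {k : Type*} [Field k] [CharP k 5]

lemma not5 (a b : ℕ) : ¬ 5 ∣ 2 ^ a * 3 ^ b := by
  intro h
  rcases (Nat.Prime.dvd_mul (by norm_num : Nat.Prime 5)).1 h with h | h
  · have := Nat.Prime.dvd_of_dvd_pow (by norm_num : Nat.Prime 5) h
    omega
  · have := Nat.Prime.dvd_of_dvd_pow (by norm_num : Nat.Prime 5) h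
    omega

theorem caseB {a b m : ℕ} {χ : MulChar (ZMod (2 ^ a * 3 ^ b)) k} (D : DatG a b m χ) {θ : k} (hθ : θ ^ 2 = 2)
    (ha : 6 ≤ a) (hb : b ≤ 1) (hm1 : 1 ≤ m) (hm4 : m ≤ 4) :
    ∑ x ∈ range (2 ^ a * 3 ^ b), χ (x : ZMod (2 ^ a * 3 ^ b)) *
      Polynomial.aeval ((x : k) / (2 ^ a * 3 ^ b : ℕ)) (FF m) ≠ 0 := by
  intro hS
  have : Fact (Nat.Prime 5) := ⟨by norm_num⟩
  set ψ₂ := c1 (cop23 a b) χ with hψ₂
  set ψ₁ := c2 (cop23 a b) χ with hψ₁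
  have htab : ∀ x : ℕ, ψ₁ (x : ZMod (3 ^ b)) = ph θ ((tb3 b (x % 120)), 0) := by
    intro x
    rw [tb3_spec hb ψ₁ D.h31 x]
    have : tb3 b (x % 120) = tb3 b x := by
      unfold tb3
      have h3 : x % 120 % 3 = x % 3 := by omega
      rw [h3]
    rw [this]
    simp [ph]
  have hS' : ∑ x ∈ range (3 ^ b * 2 ^ a), ψ₁ (x : ZMod (3 ^ b)) * ψ₂ (x : ZMod (2 ^ a)) *
      Polynomial.aeval ((x : k) / (3 ^ b * 2 ^ a : ℕ)) (FF m) = 0 := by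
    rw [mul_comm (3 ^ b) (2 ^ a), ← hS]
    refine Finset.sum_congr rfl fun x _ => ?_
    rw [cc_nat (cop23 a b) χ x, mul_comm (ψ₁ _)]
  have hfrob : ∀ x, ψ₁ x ^ 5 ^ 2 = ψ₁ x := by
    intro x
    have : NeZero (3 ^ b) := ⟨by positivity⟩
    have h := htab x.val
    rw [ZMod.natCast_val, ZMod.cast_id', id_eq] at h
    rw [h, ph_frob hθ]
  have h2k : ((2 : ℕ) : k) ≠ 0 := ne_of_not_dvd 2 (by norm_num)
  have h3k : ((3 ^ b : ℕ) : k) ≠ 0 := by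
    have : ((3 : ℕ) : k) ≠ 0 := ne_of_not_dvd 3 (by norm_num)
    rw [Nat.cast_pow]
    exact pow_ne_zero _ this
  have h8 : ψ₂ ((1 + 2 ^ (a - 3) : ℕ) : ZMod (2 ^ a)) ^ 8 = 1 := psi_M_pow (n := 3) ψ₂ (by omega)
  have h4 : ψ₂ ((1 + 2 ^ (a - 3) : ℕ) : ZMod (2 ^ a)) ^ 4 ≠ 1 := by
    have := psi_M_pow' (n := 3) ψ₂ (by omega) (by norm_num)
    intro h
    apply D.prim2 (by omega)
    rw [← hψ₂, ← this]
    exact h
  obtain ⟨ξ, hξ, hξ'⟩ := eighth hθ h8 h4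
  have hpar : ψ₁ (-1) * ψ₂ (-1) = (-1) ^ m := by
    rw [mul_comm, hψ₁, hψ₂, ← cc_neg (cop23 a b) χ]
    exact D.hpar
  have hM8 : 8 ≤ 2 ^ (a - 3) := by
    calc 8 = 2 ^ 3 := by norm_num
      _ ≤ 2 ^ (a - 3) := Nat.pow_le_pow_right (by norm_num) (by omega)
  have h := class_zero (p := 5) (ℓ := 2) (n := 3) (K := a) (N₁ := 3 ^ b) (g := 2) (m := m) (u := 3) ψ₁ ψ₂
      (by norm_num) (Or.inr ⟨rfl, by norm_num⟩) (by norm_num) (by omega) (by norm_num) (by norm_num) (by norm_num)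
      hfrob (D.prim2 (by omega)) (Nat.Coprime.pow_left b (by norm_num)) (by positivity) h3k h2k (FF m) _
      (fun x => FF_aeval_refl m x) hpar hS' 1 (by omega) (by norm_num)
  have hN5 : ¬ 5 ∣ 3 ^ b * 2 ^ a := by
    rw [mul_comm]
    exact not5 a b
  have hN' : ((3 ^ b * 2 ^ a : ℕ) : k) = ((3 ^ b * 8 * (2 ^ (a - 3) % 120) : ℕ) : k) := by
    have e1 : 3 ^ b * 2 ^ a = 3 ^ b * 8 * 2 ^ (a - 3) := by
      rw [mul_assoc, show 8 = 2 ^ 3 by norm_num, ← pow_add]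
      congr 2
      omega
    rw [e1, Nat.cast_mul, Nat.cast_mul (3 ^ b * 8) (2 ^ (a - 3) % 120), ← nat5 (2 ^ (a - 3)),
      ← nat5 (2 ^ (a - 3) % 120), Nat.mod_mod_of_dvd _ (by norm_num : 5 ∣ 120)]
  have hs := sum_tab hθ hm1 hm4 (P := 120) (by norm_num) (fun x => (tb3 b x, 0)) (fun x => ψ₁ (x : ZMod (3 ^ b)))
      htab ξ (M := 2 ^ (a - 3)) (N := 3 ^ b * 2 ^ a) (y := 1) (3 ^ b * 8) rfl hN5 hN' (by norm_num)
  have hz : ph θ (vB b (2 ^ (a - 3) % 120) m ξ) = 0 := by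
    rw [vB, ← hs, ← h]
    have : (2 : ℕ) ^ 3 = 8 := by norm_num
    rw [this]
    refine Finset.sum_congr rfl fun t _ => ?_
    rw [← hξ']
  have hlt := qg_lt m (((3 ^ b * 8 * (2 ^ (a - 3) % 120)) ^ 3) % 5) (fun x => (tb3 b x, 0)) ξ (2 ^ (a - 3) % 120) 120
      (3 ^ b * 8) 1 (1, 0) (0, 0) (by norm_num) (by norm_num)
  exact chkB_spec hb (pow2_mod (show 3 ≤ a - 3 by omega)) hm1 hm4 hξ (ph_eq_zero hθ _ hlt.1 hlt.2 hz)

theorem caseD {a b m : ℕ} {χ : MulChar (ZMod (2 ^ a * 3 ^ b)) k} (D : DatG a b m χ) {θ : k} (hθ : θ ^ 2 = 2)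
    (ha : a = 0 ∨ (2 ≤ a ∧ a ≤ 5)) (hb : b ≤ 1) (h00 : ¬ (a = 0 ∧ b = 0)) (hm1 : 1 ≤ m) (hm4 : m ≤ 4)
    (hexc1 : ¬ (a = 4 ∧ b = 0 ∧ m = 2)) (hexc2 : ¬ (a = 4 ∧ b = 1 ∧ m = 3)) :
    ∑ x ∈ range (2 ^ a * 3 ^ b), χ (x : ZMod (2 ^ a * 3 ^ b)) *
      Polynomial.aeval ((x : k) / (2 ^ a * 3 ^ b : ℕ)) (FF m) ≠ 0 := by
  intro hS
  set ψ₂ := c1 (cop23 a b) χ with hψ₂
  set ψ₃ := c2 (cop23 a b) χ with hψ₃
  obtain ⟨σ, hσ, η, hη, hσ', hη'⟩ := lists hθ ha ψ₂ (fun h => D.prim2 h)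
  have htab2 := tb_spec hθ ha ψ₂ hσ' hη'
  have htab : ∀ x : ℕ, ψ₂ (x : ZMod (2 ^ a)) * ψ₃ (x : ZMod (3 ^ b)) =
      ph θ (smul5 (tb3 b (x % 480)) (tb a σ η (x % 480))) := by
    intro x
    rw [ph_smul, ← htab2, tb3_spec hb ψ₃ D.h31 x]
    have : tb3 b (x % 480) = tb3 b x := by
      unfold tb3
      have h3 : x % 480 % 3 = x % 3 := by omega
      rw [h3]
    rw [this, mul_comm]
  have h3 : ψ₃ (-1) = ((4 ^ b : ℕ) : k) := by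
    have hb' : b = 0 ∨ b = 1 := by omega
    rcases hb' with h | h
    · subst h
      rw [Subsingleton.elim (α := ZMod 1) (-1 : ZMod (3 ^ 0)) 1, map_one, pow_zero, Nat.cast_one]
    · subst h
      have e1 : (-1 : ZMod (3 ^ 1)) = ((2 : ℕ) : ZMod (3 ^ 1)) := by decide
      rw [e1, tb3_spec hb ψ₃ D.h31 2]
      rfl
  have hpar : (σ * 4 ^ b) % 5 = 4 ^ m % 5 := by
    have h1 := D.hpar
    rw [cc_neg (cop23 a b) χ, ← hψ₂, ← hψ₃, h3, hσ'] at h1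
    have h2 : ((σ * 4 ^ b : ℕ) : k) = ((4 ^ m : ℕ) : k) := by
      rw [Nat.cast_mul, h1, Nat.cast_pow]
      congr 1
      push_cast
      linear_combination (-1 : k) * five (k := k)
    exact (CharP.cast_eq_iff_mod_eq k 5).1 h2
  have hs := sum_tab hθ hm1 hm4 (P := 480) (by norm_num) (fun x => smul5 (tb3 b x) (tb a σ η x))
      (fun x => ψ₂ (x : ZMod (2 ^ a)) * ψ₃ (x : ZMod (3 ^ b))) htab (1, 0)
      (M := 1) (N := 2 ^ a * 3 ^ b) (N' := 2 ^ a * 3 ^ b) (y := 0) (2 ^ a * 3 ^ b) rfl (not5 a b) rfl (by norm_num)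
  have hz : ph θ (vD a b m σ η) = 0 := by
    have e1 : (1 : ℕ) % 480 = 1 := by norm_num
    rw [e1] at hs
    rw [vD, ← hs, ← hS]
    refine Finset.sum_congr rfl fun t _ => ?_
    rw [ph_one, one_pow, mul_one, zero_add, one_mul, cc_nat (cop23 a b) χ t]
  have hlt := qg_lt m (((2 ^ a * 3 ^ b) ^ 3) % 5) (fun x => smul5 (tb3 b x) (tb a σ η x)) (1, 0) 1 480
      (2 ^ a * 3 ^ b) 0 (1, 0) (0, 0) (by norm_num) (by norm_num)
  exact chkD_spec ha hb h00 hm1 hm4 hσ hη hpar hexc1 hexc2 (ph_eq_zero hθ _ hlt.1 hlt.2 hz)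

end

end Pool.Agent.H178.GC
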