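import Pool.Agent.H178.GC.Tab

/-!
# The prime `5` and the levels `2^a 3^b` with `a = 0` or `2 ≤ a ≤ 5`, and `2 ≤ b`
-/

set_option autoImplicit false

namespace Pool.Agent.H178.GC

open Finset Pool.Agent.Y18.GX Polynomial

def lst (a : ℕ) : List (ℕ × ℕ) :=
  if a ≤ 2 then [(1, 0)] else if a = 3 then [(4, 0)] else if a = 4 then [(2, 0), (3, 0)] else
    [(0, 1), (0, 4), (0, 2), (0, 3)]

def lsg (a : ℕ) : List ℕ := if a = 0 then [1] else if a = 2 then [4] else [1, 4]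

def vC (a r m σ : ℕ) (η ξ : ℕ × ℕ) (y : ℕ) : ℕ × ℕ :=
  qg m (((2 ^ a * 3 * r) ^ 3) % 5) (tb a σ η) ξ r 480 (2 ^ a * 3) y (1, 0) (0, 0)

def chkC (a r : ℕ) : Bool :=
  [1, 2, 3, 4].all fun m => (lsg a).all fun σ => (lst a).all fun η => [((2 : ℕ), (3 : ℕ)), (2, 2)].all fun ξ =>
    (vC a r m σ η ξ 1 != (0, 0)) || (vC a r m σ η ξ 4 != (0, 0))

def chkC1 (a : ℕ) : Bool :=
  [1, 2, 3, 4].all fun m => (lsg a).all fun σ => (lst a).all fun η => [((2 : ℕ), (3 : ℕ)), (2, 2)].all fun ξ =>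
    (vC a 3 m σ η ξ 1 != (0, 0)) || (a == 2 && m == 4)

set_option maxRecDepth 100000 in
lemma chkC_0 : ([3, 9, 27, 81, 243, 249, 267, 321].all fun r => chkC 0 r) = true := by decide +kernel

set_option maxRecDepth 100000 in
lemma chkC_2 : ([3, 9, 27, 81, 243, 249, 267, 321].all fun r => chkC 2 r) = true := by decide +kernel

set_option maxRecDepth 100000 in
lemma chkC_3 : ([3, 9, 27, 81, 243, 249, 267, 321].all fun r => chkC 3 r) = true := by decide +kernel

set_option maxRecDepth 100000 in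
lemma chkC_4a : ([3, 9, 27, 81].all fun r => chkC 4 r) = true := by decide +kernel

set_option maxRecDepth 100000 in
lemma chkC_4b : ([243, 249, 267, 321].all fun r => chkC 4 r) = true := by decide +kernel

set_option maxRecDepth 100000 in
lemma chkC_5a : ([3, 9].all fun r => chkC 5 r) = true := by decide +kernel

set_option maxRecDepth 100000 in
lemma chkC_5b : ([27, 81].all fun r => chkC 5 r) = true := by decide +kernel

set_option maxRecDepth 100000 in
lemma chkC_5c : ([243, 249].all fun r => chkC 5 r) = true := by decide +kernel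

set_option maxRecDepth 100000 in
lemma chkC_5d : ([267, 321].all fun r => chkC 5 r) = true := by decide +kernel

set_option maxRecDepth 100000 in
lemma chkC1_all : ([0, 2, 3, 4, 5].all fun a => chkC1 a) = true := by decide +kernel

lemma chkC_all {a r : ℕ} (ha : a = 0 ∨ (2 ≤ a ∧ a ≤ 5))
    (hr : r = 3 ∨ r = 9 ∨ r = 27 ∨ r = 81 ∨ r = 243 ∨ r = 249 ∨ r = 267 ∨ r = 321) : chkC a r = true := by
  have ha' : a = 0 ∨ a = 2 ∨ a = 3 ∨ a = 4 ∨ a = 5 := by omega
  rcases ha' with rfl | rfl | rfl | rfl | rfl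
  · refine List.all_eq_true.1 chkC_0 r ?_
    simp only [List.mem_cons, List.not_mem_nil, or_false]
    exact hr
  · refine List.all_eq_true.1 chkC_2 r ?_
    simp only [List.mem_cons, List.not_mem_nil, or_false]
    exact hr
  · refine List.all_eq_true.1 chkC_3 r ?_
    simp only [List.mem_cons, List.not_mem_nil, or_false]
    exact hr
  · rcases hr with h | h | h | h | h | h | h | h
    · exact List.all_eq_true.1 chkC_4a r (by simp [h])
    · exact List.all_eq_true.1 chkC_4a r (by simp [h])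
    · exact List.all_eq_true.1 chkC_4a r (by simp [h])
    · exact List.all_eq_true.1 chkC_4a r (by simp [h])
    · exact List.all_eq_true.1 chkC_4b r (by simp [h])
    · exact List.all_eq_true.1 chkC_4b r (by simp [h])
    · exact List.all_eq_true.1 chkC_4b r (by simp [h])
    · exact List.all_eq_true.1 chkC_4b r (by simp [h])
  · rcases hr with h | h | h | h | h | h | h | h
    · exact List.all_eq_true.1 chkC_5a r (by simp [h])
    · exact List.all_eq_true.1 chkC_5a r (by simp [h])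
    · exact List.all_eq_true.1 chkC_5b r (by simp [h])
    · exact List.all_eq_true.1 chkC_5b r (by simp [h])
    · exact List.all_eq_true.1 chkC_5c r (by simp [h])
    · exact List.all_eq_true.1 chkC_5c r (by simp [h])
    · exact List.all_eq_true.1 chkC_5d r (by simp [h])
    · exact List.all_eq_true.1 chkC_5d r (by simp [h])

lemma chkC_spec {a r m σ : ℕ} {η ξ : ℕ × ℕ} (h : chkC a r = true) (hm1 : 1 ≤ m) (hm4 : m ≤ 4) (hσ : σ ∈ lsg a)
    (hη : η ∈ lst a) (hξ : ξ = (2, 3) ∨ ξ = (2, 2)) (h1 : vC a r m σ η ξ 1 = (0, 0)) (h4 : vC a r m σ η ξ 4 = (0, 0)) :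
    False := by
  unfold chkC at h
  have e1 := List.all_eq_true.1 h m (by
    simp only [List.mem_cons, List.not_mem_nil, or_false]
    omega)
  have e2 := List.all_eq_true.1 e1 σ hσ
  have e3 := List.all_eq_true.1 e2 η hη
  have e4 := List.all_eq_true.1 e3 ξ (by
    simp only [List.mem_cons, List.not_mem_nil, or_false]
    exact hξ)
  rw [h1, h4] at e4
  exact absurd e4 (by decide)

lemma chkC1_spec {a m σ : ℕ} {η ξ : ℕ × ℕ} (ha : a = 0 ∨ (2 ≤ a ∧ a ≤ 5)) (hm1 : 1 ≤ m) (hm4 : m ≤ 4)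
    (hσ : σ ∈ lsg a) (hη : η ∈ lst a) (hξ : ξ = (2, 3) ∨ ξ = (2, 2)) (hexc : ¬ (a = 2 ∧ m = 4))
    (h1 : vC a 3 m σ η ξ 1 = (0, 0)) : False := by
  have h := List.all_eq_true.1 chkC1_all a (by
    simp only [List.mem_cons, List.not_mem_nil, or_false]
    omega)
  unfold chkC1 at h
  have e1 := List.all_eq_true.1 h m (by
    simp only [List.mem_cons, List.not_mem_nil, or_false]
    omega)
  have e2 := List.all_eq_true.1 e1 σ hσ
  have e3 := List.all_eq_true.1 e2 η hη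
  have e4 := List.all_eq_true.1 e3 ξ (by
    simp only [List.mem_cons, List.not_mem_nil, or_false]
    exact hξ)
  rw [h1] at e4
  simp only [bne_self_eq_false, Bool.false_or, Bool.and_eq_true, beq_iff_eq] at e4
  exact hexc e4

lemma pow3_mod' {B : ℕ} (hB : 1 ≤ B) : 3 ^ B % 480 = 3 ∨ 3 ^ B % 480 = 9 ∨ 3 ^ B % 480 = 27 ∨ 3 ^ B % 480 = 81 ∨
    3 ^ B % 480 = 243 ∨ 3 ^ B % 480 = 249 ∨ 3 ^ B % 480 = 267 ∨ 3 ^ B % 480 = 321 := by
  induction B, hB using Nat.le_induction with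
  | base => decide
  | succ B _ ih =>
    rw [pow_succ]
    omega

section
variable {k : Type*} [Field k] [CharP k 5]

lemma sum_tab {θ : k} (hθ : θ ^ 2 = 2) {m : ℕ} (h1 : 1 ≤ m) (h4 : m ≤ 4) {P : ℕ} (hP : 5 ∣ P)
    (f : ℕ → ℕ × ℕ) (g : ℕ → k) (hg : ∀ x, g x = ph θ (f (x % P))) (ξ : ℕ × ℕ) {M r N N' y : ℕ} (L : ℕ)
    (hr : M % P = r) (hN5 : ¬ 5 ∣ N) (hN' : (N : k) = (N' : k)) (hy : y < P) :
    ∑ t ∈ range L, g (y + M * t) * ph θ ξ ^ t * aeval (((y + M * t : ℕ) : k) / (N : ℕ)) (FF m) =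
      ph θ (qg m ((N' ^ 3) % 5) f ξ r P L y (1, 0) (0, 0)) := by
  rw [qg_spec hθ h1 h4 _ f g hP hg ξ r L y (1, 0) (0, 0) hy, ph_zero, ph_one, zero_add, one_mul]
  refine Finset.sum_congr rfl fun t _ => ?_
  have e1 : g (y + M * t) = g (y + r * t) := by
    rw [hg, hg]
    congr 2
    rw [← hr, Nat.add_mod, Nat.mul_mod]
    conv_rhs => rw [Nat.add_mod, Nat.mul_mod, Nat.mod_mod]
  have e2 : ((y + M * t : ℕ) : k) / (N : ℕ) = ((((y + r * t) * ((N' ^ 3) % 5) : ℕ)) : k) := by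
    rw [div_spec hN5, Nat.cast_mul, Nat.cast_mul _ (N' ^ 3 % 5), nat5]
    have h5 : ((M : ℕ) : k) = (r : k) := by
      rw [← nat5 M, ← nat5 r, ← hr, Nat.mod_mod_of_dvd _ hP]
    push_cast
    rw [h5, hN']
  rw [e1, e2]

/-- the values at `5` and `-1` of a primitive character modulo `2^a` -/
lemma lists {θ : k} (hθ : θ ^ 2 = 2) {a : ℕ} (ha : a = 0 ∨ (2 ≤ a ∧ a ≤ 5)) (ψ : MulChar (ZMod (2 ^ a)) k)
    (hprim : 2 ≤ a → ψ ((1 + 2 ^ (a - 1) : ℕ) : ZMod (2 ^ a)) ≠ 1) :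
    ∃ σ ∈ lsg a, ∃ η ∈ lst a, ψ (-1) = (σ : ℕ) ∧ (a ≠ 0 → ψ (5 : ZMod (2 ^ a)) = ph θ η) := by
  have h5 := five (k := k)
  have hsq : ψ (-1) ^ 2 = 1 := by
    rw [← map_pow]
    simp
  have hσ : ψ (-1) = ((1 : ℕ) : k) ∨ ψ (-1) = ((4 : ℕ) : k) := by
    have h3 : (ψ (-1) - 1) * (ψ (-1) + 1) = 0 := by linear_combination hsq
    rcases mul_eq_zero.1 h3 with h | h
    · exact Or.inl (by rw [Nat.cast_one]; linear_combination h)
    · exact Or.inr (by push_cast; linear_combination h - h5)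
  have ha' : a = 0 ∨ a = 2 ∨ a = 3 ∨ a = 4 ∨ a = 5 := by omega
  rcases ha' with rfl | rfl | rfl | rfl | rfl
  · refine ⟨1, by decide, (1, 0), by decide, ?_, fun h => absurd rfl h⟩
    rw [Subsingleton.elim (α := ZMod 1) (-1 : ZMod (2 ^ 0)) 1, map_one, Nat.cast_one]
  · have hp := hprim (by norm_num)
    have e1 : ((1 + 2 ^ (2 - 1) : ℕ) : ZMod (2 ^ 2)) = -1 := by decide
    rw [e1] at hp
    refine ⟨4, by decide, (1, 0), by decide, ?_, fun _ => ?_⟩
    · rcases hσ with h | h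
      · rw [Nat.cast_one] at h
        exact absurd h hp
      · exact h
    · have e2 : (5 : ZMod (2 ^ 2)) = 1 := by decide
      rw [e2, map_one, ph_one]
  · have hp := hprim (by norm_num)
    have e1 : ((1 + 2 ^ (3 - 1) : ℕ) : ZMod (2 ^ 3)) = 5 := by decide
    rw [e1] at hp
    have h2 : ψ (5 : ZMod (2 ^ 3)) ^ 2 = 1 := by
      rw [← map_pow]
      have : (5 : ZMod (2 ^ 3)) ^ 2 = 1 := by decide
      rw [this, map_one]
    have h3 : (ψ (5 : ZMod (2 ^ 3)) - 1) * (ψ (5 : ZMod (2 ^ 3)) + 1) = 0 := by linear_combination h2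
    have h4 : ψ (5 : ZMod (2 ^ 3)) = ph θ (4, 0) := by
      rcases mul_eq_zero.1 h3 with h | h
      · exact absurd (sub_eq_zero.1 h) hp
      · simp only [ph]
        push_cast
        linear_combination h - h5
    rcases hσ with h | h
    · exact ⟨1, by decide, (4, 0), by decide, h, fun _ => h4⟩
    · exact ⟨4, by decide, (4, 0), by decide, h, fun _ => h4⟩
  · have hp := hprim (by norm_num)
    have e1 : ((1 + 2 ^ (4 - 1) : ℕ) : ZMod (2 ^ 4)) = 5 ^ 2 := by decide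
    rw [e1, map_pow] at hp
    have h2 : ψ (5 : ZMod (2 ^ 4)) ^ 4 = 1 := by
      rw [← map_pow]
      have : (5 : ZMod (2 ^ 4)) ^ 4 = 1 := by decide
      rw [this, map_one]
    have h3 : (ψ (5 : ZMod (2 ^ 4)) ^ 2 - 1) * (ψ (5 : ZMod (2 ^ 4)) ^ 2 + 1) = 0 := by linear_combination h2
    have h4 : ψ (5 : ZMod (2 ^ 4)) ^ 2 + 1 = 0 := by
      rcases mul_eq_zero.1 h3 with h | h
      · exact absurd (sub_eq_zero.1 h) hp
      · exact h
    have h6 : (ψ (5 : ZMod (2 ^ 4)) - 2) * (ψ (5 : ZMod (2 ^ 4)) - 3) = 0 := by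
      linear_combination h4 + (1 - ψ (5 : ZMod (2 ^ 4))) * h5
    have h7 : ∃ η ∈ lst 4, ψ (5 : ZMod (2 ^ 4)) = ph θ η := by
      rcases mul_eq_zero.1 h6 with h | h
      · exact ⟨(2, 0), by decide, by simp only [ph]; push_cast; linear_combination h⟩
      · exact ⟨(3, 0), by decide, by simp only [ph]; push_cast; linear_combination h⟩
    obtain ⟨η, hη, hη'⟩ := h7
    rcases hσ with h | h
    · exact ⟨1, by decide, η, hη, h, fun _ => hη'⟩
    · exact ⟨4, by decide, η, hη, h, fun _ => hη'⟩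
  · have hp := hprim (by norm_num)
    have e1 : ((1 + 2 ^ (5 - 1) : ℕ) : ZMod (2 ^ 5)) = 5 ^ 4 := by decide
    rw [e1, map_pow] at hp
    have h2 : ψ (5 : ZMod (2 ^ 5)) ^ 8 = 1 := by
      rw [← map_pow]
      have : (5 : ZMod (2 ^ 5)) ^ 8 = 1 := by decide
      rw [this, map_one]
    obtain ⟨η, hη, hη'⟩ := eighth hθ h2 hp
    have hη2 : η ∈ lst 5 := by
      have : lst 5 = [(0, 1), (0, 4), (0, 2), (0, 3)] := by decide
      rw [this]
      simp only [List.mem_cons, List.not_mem_nil, or_false]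
      exact hη
    rcases hσ with h | h
    · exact ⟨1, by decide, η, hη2, h, fun _ => hη'⟩
    · exact ⟨4, by decide, η, hη2, h, fun _ => hη'⟩

/-- the cube roots of unity -/
lemma third' {θ x : k} (hθ : θ ^ 2 = 2) (h3 : x ^ 3 = 1) (h1 : x ≠ 1) :
    ∃ ξ : ℕ × ℕ, (ξ = (2, 3) ∨ ξ = (2, 2)) ∧ x = ph θ ξ := by
  have h5 := five (k := k)
  have e1 : (x - 1) * (x ^ 2 + x + 1) = 0 := by linear_combination h3
  have e2 : x ^ 2 + x + 1 = 0 := by
    rcases mul_eq_zero.1 e1 with h | h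
    · exact absurd (sub_eq_zero.1 h) h1
    · exact h
  have e3 : (x - (2 + 3 * θ)) * (x - (2 + 2 * θ)) = 0 := by
    linear_combination e2 + 6 * hθ + (3 - x - x * θ + 2 * θ) * h5
  rcases mul_eq_zero.1 e3 with h | h
  · exact ⟨(2, 3), Or.inl rfl, by simp only [ph]; push_cast; linear_combination h⟩
  · exact ⟨(2, 2), Or.inr rfl, by simp only [ph]; push_cast; linear_combination h⟩

end

end Pool.Agent.H178.GC
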