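import Pool.Agent.H178.GC.CaseC

/-!
# The prime `5` and the levels `2^a 3^b` with `a = 0` or `2 ≤ a ≤ 5`, and `2 ≤ b`: conclusion
-/

set_option autoImplicit false

namespace Pool.Agent.H178.GC

open Finset Pool.Agent.Y18.GX Polynomial

section
variable {k : Type*} [Field k] [CharP k 5]

lemma ph_frob {θ : k} (hθ : θ ^ 2 = 2) (u : ℕ × ℕ) : ph θ u ^ 5 ^ 2 = ph θ u := by
  have : Fact (Nat.Prime 5) := ⟨by norm_num⟩
  have h5 := five (k := k)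
  have hn : ∀ n : ℕ, (n : k) ^ 5 = n := fun n => by
    have := map_natCast (frobenius k 5) n
    rwa [frobenius_def] at this
  have e1 : ph θ u ^ 5 = u.1 - u.2 * θ := by
    unfold ph
    rw [add_pow_char, mul_pow, hn, hn]
    linear_combination (u.2 : k) * θ * (θ ^ 2 + 2) * hθ + (u.2 : k) * θ * h5
  have e2 : (u.1 - u.2 * θ : k) ^ 5 = u.1 + u.2 * θ := by
    rw [sub_pow_char, mul_pow, hn, hn]
    linear_combination (-(u.2 : k)) * θ * (θ ^ 2 + 2) * hθ - (u.2 : k) * θ * h5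
  have e3 : (5 : ℕ) ^ 2 = 5 * 5 := by norm_num
  rw [e3, pow_mul, e1, e2]
  rfl

/-- the data of a character modulo `2^a 3^b`, without restrictions on the sizes -/
structure DatG (a b m : ℕ) (χ : MulChar (ZMod (2 ^ a * 3 ^ b)) k) : Prop where
  h2 : 2 ≤ a → χ ((1 + 2 ^ (a - 1) * 3 ^ b : ℕ) : ZMod (2 ^ a * 3 ^ b)) ≠ 1
  h3 : 2 ≤ b → χ ((1 + 2 ^ a * 3 ^ (b - 1) : ℕ) : ZMod (2 ^ a * 3 ^ b)) ≠ 1
  h31 : b = 1 → c2 (cop23 a b) χ (2 : ZMod (3 ^ b)) ≠ 1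
  hpar : χ (-1) = (-1) ^ m

lemma DatG.prim2 {a b m : ℕ} {χ : MulChar (ZMod (2 ^ a * 3 ^ b)) k} (D : DatG a b m χ) (ha : 2 ≤ a) :
    c1 (cop23 a b) χ ((1 + 2 ^ (a - 1) : ℕ) : ZMod (2 ^ a)) ≠ 1 := by
  intro h
  apply D.h2 ha
  rw [cc_nat (cop23 a b) χ]
  have h1 := psi_one_add (ℓ := 2) (K := a) (n := 1) (c1 (cop23 a b) χ) (by omega) (3 ^ b)
  rw [h1, h, one_pow, one_mul]
  have h2 : ((1 + 2 ^ (a - 1) * 3 ^ b : ℕ) : ZMod (3 ^ b)) = 1 := by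
    have := ZMod.natCast_self (3 ^ b)
    push_cast at this ⊢
    rw [this]
    ring
  rw [h2, map_one]

lemma DatG.prim3 {a b m : ℕ} {χ : MulChar (ZMod (2 ^ a * 3 ^ b)) k} (D : DatG a b m χ) (hb : 2 ≤ b) :
    c2 (cop23 a b) χ ((1 + 3 ^ (b - 1) : ℕ) : ZMod (3 ^ b)) ≠ 1 := by
  intro h
  apply D.h3 hb
  rw [cc_nat (cop23 a b) χ]
  have h1 := psi_one_add (ℓ := 3) (K := b) (n := 1) (c2 (cop23 a b) χ) (by omega) (2 ^ a)
  have e : 1 + 2 ^ a * 3 ^ (b - 1) = 1 + 3 ^ (b - 1) * 2 ^ a := by ring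
  have h2 : ((1 + 2 ^ a * 3 ^ (b - 1) : ℕ) : ZMod (2 ^ a)) = 1 := by
    have := ZMod.natCast_self (2 ^ a)
    push_cast at this ⊢
    rw [this]
    ring
  rw [h2, map_one, one_mul, e, h1, h, one_pow]

theorem caseC {a b m : ℕ} {χ : MulChar (ZMod (2 ^ a * 3 ^ b)) k} (D : DatG a b m χ) {θ : k} (hθ : θ ^ 2 = 2)
    (ha : a = 0 ∨ (2 ≤ a ∧ a ≤ 5)) (hb : 2 ≤ b) (hm1 : 1 ≤ m) (hm4 : m ≤ 4)
    (hexc : ¬ (a = 2 ∧ b = 2 ∧ m = 4)) :
    ∑ x ∈ range (2 ^ a * 3 ^ b), χ (x : ZMod (2 ^ a * 3 ^ b)) *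
      Polynomial.aeval ((x : k) / (2 ^ a * 3 ^ b : ℕ)) (FF m) ≠ 0 := by
  intro hS
  have : Fact (Nat.Prime 5) := ⟨by norm_num⟩
  set ψ₁ := c1 (cop23 a b) χ with hψ₁
  set ψ₂ := c2 (cop23 a b) χ with hψ₂
  obtain ⟨σ, hσ, η, hη, hσ', hη'⟩ := lists hθ ha ψ₁ (fun h => D.prim2 h)
  have htab := tb_spec hθ ha ψ₁ hσ' hη'
  have hS' : ∑ x ∈ range (2 ^ a * 3 ^ b), ψ₁ (x : ZMod (2 ^ a)) * ψ₂ (x : ZMod (3 ^ b)) *
      Polynomial.aeval ((x : k) / (2 ^ a * 3 ^ b : ℕ)) (FF m) = 0 := by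
    rw [← hS]
    refine Finset.sum_congr rfl fun x _ => ?_
    rw [cc_nat (cop23 a b) χ x]
  have hfrob : ∀ x, ψ₁ x ^ 5 ^ 2 = ψ₁ x := by
    intro x
    have : NeZero (2 ^ a) := ⟨by positivity⟩
    have h := htab x.val
    rw [ZMod.natCast_val, ZMod.cast_id', id_eq] at h
    rw [h, ph_frob hθ]
  have h2k : ((2 ^ a : ℕ) : k) ≠ 0 := by
    push_cast
    exact pow_ne_zero _ two_ne
  have h3k : ((3 : ℕ) : k) ≠ 0 := ne_of_not_dvd 3 (by norm_num)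
  have hξ3 : x3 χ ^ 3 = 1 := by
    have := psi_M_pow (n := 1) ψ₂ (by omega)
    rw [pow_one] at this
    exact this
  obtain ⟨ξ, hξ, hξ'⟩ := third' hθ hξ3 (D.prim3 hb)
  have hpar : ψ₁ (-1) * ψ₂ (-1) = (-1) ^ m := by
    rw [hψ₁, hψ₂, ← cc_neg (cop23 a b) χ]
    exact D.hpar
  have hM3 : 3 ≤ 3 ^ (b - 1) := by
    calc 3 = 3 ^ 1 := by norm_num
      _ ≤ 3 ^ (b - 1) := Nat.pow_le_pow_right (by norm_num) (by omega)
  have key : ∀ y, y < 3 ^ (b - 1) → y % 3 = 1 → y < 480 → vC a (3 ^ (b - 1) % 480) m σ η ξ y = (0, 0) := by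
    intro y hy hy3 hy480
    have h := class_zero (p := 5) (ℓ := 3) (n := 1) (K := b) (N₁ := 2 ^ a) (g := 2) (m := m) (u := 8) ψ₁ ψ₂
      (by norm_num) (Or.inl ⟨rfl, by norm_num⟩) le_rfl (by omega) (by norm_num) (by norm_num) (by norm_num)
      hfrob (D.prim3 hb) (Nat.Coprime.pow_left a (by norm_num)) (by positivity) h2k h3k (FF m) _
      (fun x => FF_aeval_refl m x) hpar hS' y hy (by rw [pow_one]; exact hy3)
    have hN5 : ¬ 5 ∣ 2 ^ a * 3 ^ b := by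
      intro h
      rcases (Nat.Prime.dvd_mul (by norm_num : Nat.Prime 5)).1 h with h | h
      · have := Nat.Prime.dvd_of_dvd_pow (by norm_num : Nat.Prime 5) h
        omega
      · have := Nat.Prime.dvd_of_dvd_pow (by norm_num : Nat.Prime 5) h
        omega
    have hN' : ((2 ^ a * 3 ^ b : ℕ) : k) = ((2 ^ a * 3 * (3 ^ (b - 1) % 480) : ℕ) : k) := by
      have e1 : 2 ^ a * 3 ^ b = 2 ^ a * 3 * 3 ^ (b - 1) := by
        rw [mul_assoc, ← pow_succ']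
        congr 2
        omega
      rw [e1, Nat.cast_mul, Nat.cast_mul (2 ^ a * 3) (3 ^ (b - 1) % 480), ← nat5 (3 ^ (b - 1)),
        ← nat5 (3 ^ (b - 1) % 480), Nat.mod_mod_of_dvd _ (by norm_num : 5 ∣ 480)]
    have hs := sum_tab hθ hm1 hm4 (P := 480) (by norm_num) (tb a σ η) (fun x => ψ₁ (x : ZMod (2 ^ a))) htab ξ
      (M := 3 ^ (b - 1)) (N := 2 ^ a * 3 ^ b) (y := y) (2 ^ a * 3) rfl hN5 hN' hy480
    have hz : ph θ (vC a (3 ^ (b - 1) % 480) m σ η ξ y) = 0 := by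
      rw [vC, ← hs, ← h, pow_one]
      refine Finset.sum_congr rfl fun t _ => ?_
      have : ph θ ξ = ψ₂ ((1 + 3 ^ (b - 1) : ℕ) : ZMod (3 ^ b)) := hξ'.symm
      rw [this]
    have hlt := qg_lt m (((2 ^ a * 3 * (3 ^ (b - 1) % 480)) ^ 3) % 5) (tb a σ η) ξ (3 ^ (b - 1) % 480) 480
      (2 ^ a * 3) y (1, 0) (0, 0) (by norm_num) (by norm_num)
    exact ph_eq_zero hθ _ hlt.1 hlt.2 hz
  rcases Nat.lt_or_ge 4 (3 ^ (b - 1)) with h4 | h4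
  · exact chkC_spec (chkC_all ha (pow3_mod' (show 1 ≤ b - 1 by omega))) hm1 hm4 hσ hη hξ
      (key 1 (by omega) (by norm_num) (by norm_num)) (key 4 (by omega) (by norm_num) (by norm_num))
  · have hb2 : b = 2 := by
      by_contra hne
      have : 3 ^ 2 ≤ 3 ^ (b - 1) := Nat.pow_le_pow_right (by norm_num) (by omega)
      omega
    subst hb2
    have h1 := key 1 (by norm_num) (by norm_num) (by norm_num)
    have e : 3 ^ (2 - 1) % 480 = 3 := by norm_num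
    rw [e] at h1
    exact chkC1_spec ha hm1 hm4 hσ hη hξ (fun h => hexc ⟨h.1, rfl, h.2⟩) h1

end

end Pool.Agent.H178.GC
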