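import Pool.Agent.H178.GC.Red
import Pool.Agent.Y18.GX.Dec

/-!
# Decomposition of a character modulo `A B` with values in a field, and primitivity
-/

set_option autoImplicit false

namespace Pool.Agent.H178.GC

open Finset Pool.Agent.Y18.GX

section
variable {k : Type*} [Field k] {A B : ℕ} (h : A.Coprime B) (χ : MulChar (ZMod (A * B)) k)

/-- the component modulo `A` -/
noncomputable def c1 : MulChar (ZMod A) k where
  toFun x := χ ((ZMod.chineseRemainder h).symm (x, 1))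
  map_one' := by
    have : ((1 : ZMod A), (1 : ZMod B)) = 1 := rfl
    rw [this, map_one, map_one]
  map_mul' x y := by
    have : ((x * y : ZMod A), (1 : ZMod B)) = (x, 1) * (y, 1) := by simp
    rw [this, map_mul, map_mul]
  map_nonunit' x hx := by
    apply χ.map_nonunit
    intro h1
    apply hx
    have h2 := h1.map (ZMod.chineseRemainder h)
    rw [RingEquiv.apply_symm_apply, Prod.isUnit_iff] at h2
    exact h2.1

/-- the component modulo `B` -/
noncomputable def c2 : MulChar (ZMod B) k where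
  toFun x := χ ((ZMod.chineseRemainder h).symm (1, x))
  map_one' := by
    have : ((1 : ZMod A), (1 : ZMod B)) = 1 := rfl
    rw [this, map_one, map_one]
  map_mul' x y := by
    have : ((1 : ZMod A), (x * y : ZMod B)) = (1, x) * (1, y) := by simp
    rw [this, map_mul, map_mul]
  map_nonunit' x hx := by
    apply χ.map_nonunit
    intro h1
    apply hx
    have h2 := h1.map (ZMod.chineseRemainder h)
    rw [RingEquiv.apply_symm_apply, Prod.isUnit_iff] at h2
    exact h2.2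

lemma cc_mul (x : ZMod (A * B)) : χ x = c1 h χ ((ZMod.chineseRemainder h) x).1 *
    c2 h χ ((ZMod.chineseRemainder h) x).2 := by
  have h1 : c1 h χ ((ZMod.chineseRemainder h) x).1 * c2 h χ ((ZMod.chineseRemainder h) x).2 =
      χ ((ZMod.chineseRemainder h).symm (((ZMod.chineseRemainder h) x).1, 1)) *
      χ ((ZMod.chineseRemainder h).symm (1, ((ZMod.chineseRemainder h) x).2)) := rfl
  rw [h1, ← map_mul, ← map_mul]
  simp

lemma cc_nat (a : ℕ) : χ (a : ZMod (A * B)) = c1 h χ (a : ZMod A) * c2 h χ (a : ZMod B) := by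
  rw [cc_mul h χ, map_natCast]
  rfl

lemma cc_neg : χ (-1) = c1 h χ (-1) * c2 h χ (-1) := by
  rw [cc_mul h χ, map_neg, map_one]
  rfl

end

/-- a primitive character is not trivial on the classes which are `1` modulo a proper divisor -/
lemma prim_exists {N d : ℕ} (hN : N ≠ 0) (ψ : DirichletCharacter ℂ N) (hψ : ψ.IsPrimitive)
    (hd : d ∣ N) (hdN : d ≠ N) :
    ∃ u : ℕ, u.Coprime N ∧ u ≡ 1 [MOD d] ∧ ψ (u : ZMod N) ≠ 1 := by
  by_contra hcon
  push Not at hcon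
  have : NeZero N := ⟨hN⟩
  apply hdN
  have h2 : ψ.FactorsThrough d := by
    rw [DirichletCharacter.factorsThrough_iff_ker_unitsMap hd]
    intro U hU
    rw [MonoidHom.mem_ker] at hU ⊢
    have h3 : ((U : ZMod N).cast : ZMod d) = 1 := by
      have := congrArg Units.val hU
      simpa [ZMod.unitsMap] using this
    set a := (U : ZMod N).val with ha
    have haU : ((a : ℕ) : ZMod N) = U := by rw [ha, ZMod.natCast_val, ZMod.cast_id', id_eq]
    have h4 : a ≡ 1 [MOD d] := by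
      rw [← ZMod.natCast_eq_natCast_iff, Nat.cast_one, ← h3, ha, ZMod.natCast_val]
    have hac : a.Coprime N := ZMod.val_coe_unit_coprime U
    have h9 : ψ (U : ZMod N) = 1 := by
      rw [← haU]
      exact hcon a hac h4
    apply Units.ext
    rw [MulChar.coe_toUnitHom, h9, Units.val_one]
  have h3 := DirichletCharacter.conductor_dvd_of_mem_conductorSet (χ := ψ) (d := d) h2
  rw [DirichletCharacter.isPrimitive_def] at hψ
  rw [hψ] at h3
  exact Nat.dvd_antisymm hd h3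

/-- the value at `1 + N / 2` -/
lemma prim_two {a b : ℕ} (ha : 2 ≤ a) (ψ : DirichletCharacter ℂ (2 ^ a * 3 ^ b)) (hψ : ψ.IsPrimitive) :
    ψ ((1 + 2 ^ (a - 1) * 3 ^ b : ℕ) : ZMod (2 ^ a * 3 ^ b)) ≠ 1 := by
  have hN : 2 ^ a * 3 ^ b ≠ 0 := by positivity
  have e : 2 ^ a * 3 ^ b = 2 * (2 ^ (a - 1) * 3 ^ b) := by
    rw [← mul_assoc, ← pow_succ']
    congr 2
    omega
  obtain ⟨u, -, hu, hψu⟩ := prim_exists hN ψ hψ (d := 2 ^ (a - 1) * 3 ^ b) ⟨2, by rw [e]; ring⟩ (by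
    have : 0 < 2 ^ (a - 1) * 3 ^ b := by positivity
    omega)
  intro h1
  apply hψu
  set d := 2 ^ (a - 1) * 3 ^ b with hd
  obtain ⟨y, hy⟩ : ∃ y : ℤ, (u : ℤ) = 1 + d * y := by
    have h2 := (Nat.modEq_iff_dvd.1 hu.symm)
    obtain ⟨y, hy⟩ := h2
    exact ⟨y, by push_cast at hy ⊢; linarith⟩
  have h2d : (2 : ZMod (2 ^ a * 3 ^ b)) * (d : ℕ) = 0 := by
    have := ZMod.natCast_self (2 ^ a * 3 ^ b)
    conv at this => lhs; arg 1; rw [e]
    rw [← this]
    push_cast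
    ring
  have h3 : (u : ZMod (2 ^ a * 3 ^ b)) = 1 + (d : ℕ) * (y : ZMod (2 ^ a * 3 ^ b)) := by
    have := congrArg (fun z : ℤ => (z : ZMod (2 ^ a * 3 ^ b))) hy
    push_cast at this
    exact this
  rcases Int.even_or_odd' y with ⟨w, hw | hw⟩
  · rw [h3, hw]
    have : (1 : ZMod (2 ^ a * 3 ^ b)) + (d : ℕ) * ((2 * w : ℤ) : ZMod (2 ^ a * 3 ^ b)) = 1 := by
      push_cast
      linear_combination (w : ZMod (2 ^ a * 3 ^ b)) * h2d
    rw [this, map_one]
  · rw [h3, hw]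
    have : (1 : ZMod (2 ^ a * 3 ^ b)) + (d : ℕ) * ((2 * w + 1 : ℤ) : ZMod (2 ^ a * 3 ^ b)) = ((1 + d : ℕ) : ZMod (2 ^ a * 3 ^ b)) := by
      push_cast
      linear_combination (w : ZMod (2 ^ a * 3 ^ b)) * h2d
    rw [this]
    exact h1

/-- the value at `1 + N / 3` -/
lemma prim_three {a b : ℕ} (hb : 2 ≤ b) (ψ : DirichletCharacter ℂ (2 ^ a * 3 ^ b)) (hψ : ψ.IsPrimitive) :
    ψ ((1 + 2 ^ a * 3 ^ (b - 1) : ℕ) : ZMod (2 ^ a * 3 ^ b)) ≠ 1 := by
  have hN : 2 ^ a * 3 ^ b ≠ 0 := by positivity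
  have e : 2 ^ a * 3 ^ b = 3 * (2 ^ a * 3 ^ (b - 1)) := by
    rw [mul_left_comm, ← pow_succ']
    congr 2
    omega
  obtain ⟨u, -, hu, hψu⟩ := prim_exists hN ψ hψ (d := 2 ^ a * 3 ^ (b - 1)) ⟨3, by rw [e]; ring⟩ (by
    have : 0 < 2 ^ a * 3 ^ (b - 1) := by positivity
    omega)
  intro h1
  apply hψu
  set d := 2 ^ a * 3 ^ (b - 1) with hd
  obtain ⟨y, hy⟩ : ∃ y : ℤ, (u : ℤ) = 1 + d * y := by
    have h2 := (Nat.modEq_iff_dvd.1 hu.symm)
    obtain ⟨y, hy⟩ := h2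
    exact ⟨y, by push_cast at hy ⊢; linarith⟩
  have h3d : (3 : ZMod (2 ^ a * 3 ^ b)) * (d : ℕ) = 0 := by
    have := ZMod.natCast_self (2 ^ a * 3 ^ b)
    conv at this => lhs; arg 1; rw [e]
    rw [← this]
    push_cast
    ring
  have hdd : ((d : ℕ) : ZMod (2 ^ a * 3 ^ b)) ^ 2 = 0 := by
    have h9 : d = 3 * (2 ^ a * 3 ^ (b - 2)) := by
      rw [hd, mul_left_comm, ← pow_succ']
      congr 2
      omega
    have : ((d : ℕ) : ZMod (2 ^ a * 3 ^ b)) = 3 * ((2 ^ a * 3 ^ (b - 2) : ℕ) : ZMod (2 ^ a * 3 ^ b)) := by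
      rw [h9]
      push_cast
      ring
    rw [sq]
    nth_rewrite 1 [this]
    linear_combination (((2 ^ a * 3 ^ (b - 2) : ℕ) : ZMod (2 ^ a * 3 ^ b))) * h3d
  have h3 : (u : ZMod (2 ^ a * 3 ^ b)) = 1 + (d : ℕ) * (y : ZMod (2 ^ a * 3 ^ b)) := by
    have := congrArg (fun z : ℤ => (z : ZMod (2 ^ a * 3 ^ b))) hy
    push_cast at this
    exact this
  -- `y` is a natural number modulo `3`
  have hy3 : (y : ZMod (2 ^ a * 3 ^ b)) * (d : ℕ) = ((y % 3).toNat : ZMod (2 ^ a * 3 ^ b)) * (d : ℕ) := by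
    have h9 : ((y % 3).toNat : ℤ) = y % 3 := Int.toNat_of_nonneg (Int.emod_nonneg _ (by norm_num))
    have h10 : (y : ℤ) = ((y % 3).toNat : ℤ) + 3 * (y / 3) := by
      rw [h9]
      exact (Int.emod_add_mul_ediv y 3).symm
    have h11 := congrArg (fun z : ℤ => (z : ZMod (2 ^ a * 3 ^ b))) h10
    push_cast at h11
    rw [h11]
    linear_combination ((y / 3 : ℤ) : ZMod (2 ^ a * 3 ^ b)) * h3d
  have h12 : (u : ZMod (2 ^ a * 3 ^ b)) = ((1 + d : ℕ) : ZMod (2 ^ a * 3 ^ b)) ^ (y % 3).toNat := by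
    have := one_add_pow_of_sq ((d : ℕ) : ZMod (2 ^ a * 3 ^ b)) hdd (y % 3).toNat
    push_cast
    rw [this, h3]
    linear_combination hy3
  rw [h12, map_pow, h1, one_pow]

end Pool.Agent.H178.GC
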