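import Pool.Agent.H178.GC.Trace2
import Pool.Agent.H178.GC.Split

/-!
# The sums over the classes, for levels `2^a 3^b`
-/

set_option autoImplicit false

namespace Pool.Agent.H178.GC

open Finset Pool.Agent.Y18.GX

section
variable {k : Type*} [Field k]

/-- the kernel of the `q - 1`-st power of a primitive character, with a base point -/
lemma ker_iff {ℓ K n q u : ℕ} (ψ : MulChar (ZMod (ℓ ^ K)) k) (hA : Adm ℓ q) (hn : 2 * n ≤ K) (hn1 : 1 ≤ n)
    (hprim : ψ ((1 + ℓ ^ (K - 1) : ℕ) : ZMod (ℓ ^ K)) ≠ 1) (hq : q - 1 = ℓ ^ n * u) (hu : u.Coprime ℓ)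
    (heven : Even (q - 1)) {c c' x : ℕ} (hcc : ((c * c' : ℕ) : ZMod (ℓ ^ K)) = 1) (hx : x.Coprime ℓ) :
    ψ ((x * c' : ℕ) : ZMod (ℓ ^ K)) ^ (q - 1) = 1 ↔
      ((ℓ ^ (K - n) : ℕ) : ℤ) ∣ (x : ℤ) - c ∨ ((ℓ ^ (K - n) : ℕ) : ℤ) ∣ (x : ℤ) + c := by
  have hℓ := hA.prime
  set M := ℓ ^ (K - n) with hM
  have hMK : M ∣ ℓ ^ K := pow_dvd_pow _ (by omega)
  have hccM : ((M : ℕ) : ℤ) ∣ (c : ℤ) * c' - 1 := by
    have h1 : c * c' ≡ 1 [MOD ℓ ^ K] := by
      rw [← ZMod.natCast_eq_natCast_iff]
      rw [hcc, Nat.cast_one]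
    have h2 := (Nat.modEq_iff_dvd.1 (h1.of_dvd hMK).symm)
    push_cast at h2 ⊢
    exact h2
  have hℓM : (ℓ : ℤ) ∣ (M : ℤ) := by
    have : ℓ ∣ M := dvd_pow_self ℓ (by omega)
    exact_mod_cast this
  have hc'ℓ : c'.Coprime ℓ := by
    rw [Nat.coprime_comm, Nat.Prime.coprime_iff_not_dvd hℓ]
    rintro ⟨y, hy⟩
    have h1 : (ℓ : ℤ) ∣ (c : ℤ) * c' - 1 := hℓM.trans hccM
    have h2 : (ℓ : ℤ) ∣ (c : ℤ) * c' := ⟨c * y, by rw [hy]; push_cast; ring⟩
    have h3 : (ℓ : ℤ) ∣ 1 := by
      have := dvd_sub h2 h1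
      have h4 : (c : ℤ) * c' - (c * c' - 1) = 1 := by ring
      rwa [h4] at this
    have h4 : ℓ ∣ 1 := by exact_mod_cast h3
    exact hℓ.one_lt.ne' (Nat.dvd_one.1 h4)
  have hxc : (x * c').Coprime ℓ := hx.mul_left hc'ℓ
  have hx0 : x * c' ≠ 0 := by
    intro h
    rw [h, Nat.coprime_zero_left] at hxc
    exact hℓ.one_lt.ne' hxc
  have e1 : M ∣ x * c' - 1 ↔ (M : ℤ) ∣ (x : ℤ) - c := by
    have h1 : ((x * c' - 1 : ℕ) : ℤ) = (x : ℤ) * c' - 1 := by
      rw [Nat.cast_sub (Nat.pos_of_ne_zero hx0)]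
      push_cast
      ring
    rw [← Int.natCast_dvd_natCast, h1]
    constructor
    · intro h
      have : (x : ℤ) - c = c * (x * c' - 1) - x * (c * c' - 1) := by ring
      rw [this]
      exact dvd_sub (h.mul_left _) (hccM.mul_left _)
    · intro h
      have : (x : ℤ) * c' - 1 = c' * (x - c) + (c * c' - 1) := by ring
      rw [this]
      exact dvd_add (h.mul_left _) hccM
  have e2 : M ∣ x * c' + 1 ↔ (M : ℤ) ∣ (x : ℤ) + c := by
    rw [← Int.natCast_dvd_natCast]
    push_cast
    constructor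
    · intro h
      have : (x : ℤ) + c = c * (x * c' + 1) - x * (c * c' - 1) := by ring
      rw [this]
      exact dvd_sub (h.mul_left _) (hccM.mul_left _)
    · intro h
      have : (x : ℤ) * c' + 1 = c' * (x + c) - (c * c' - 1) := by ring
      rw [this]
      exact dvd_sub (h.mul_left _) hccM
  rw [← e1, ← e2]
  constructor
  · exact kernel ψ hA hn hn1 hprim hq hu hxc
  · exact kernel_conv ψ hn heven hq hx0 (Nat.one_le_pow _ _ hℓ.pos)

/-- reflection of the sum over a class -/
lemma refl_class {N M m b : ℕ} (hMN : M ∣ N) (hb0 : 0 < b) (hb : b < M) (χ : MulChar (ZMod N) k)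
    (hNk : (N : k) ≠ 0) (F : Polynomial ℤ) (c : k)
    (hF : ∀ x : k, Polynomial.aeval (1 - x) F = (-1) ^ m * Polynomial.aeval x F + c)
    (hpar : χ (-1) = (-1) ^ m)
    (hE : ∑ a ∈ range N, (if a % M = b then χ (a : ZMod N) else 0) = 0) :
    ∑ a ∈ range N, (if a % M = M - b then χ (a : ZMod N) * Polynomial.aeval ((a : k) / (N : ℕ)) F else 0) =
      ∑ a ∈ range N, (if a % M = b then χ (a : ZMod N) * Polynomial.aeval ((a : k) / (N : ℕ)) F else 0) := by
  have hM0 : 0 < M := by omega
  have hN0 : 0 < N := by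
    rcases Nat.eq_zero_or_pos N with h | h
    · exfalso
      rw [h] at hNk
      exact hNk (by simp)
    · exact h
  have hNM : N % M = 0 := Nat.mod_eq_zero_of_dvd hMN
  have h1 : ∑ a ∈ range (N + 1), (if a % M = M - b then
      χ (a : ZMod N) * Polynomial.aeval ((a : k) / (N : ℕ)) F else 0) =
      ∑ a ∈ range N, (if a % M = M - b then
      χ (a : ZMod N) * Polynomial.aeval ((a : k) / (N : ℕ)) F else 0) := by
    rw [Finset.sum_range_succ, if_neg, add_zero]
    omega
  have h2 : ∑ a ∈ range (N + 1), (if a % M = b then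
      (χ (a : ZMod N) * Polynomial.aeval ((a : k) / (N : ℕ)) F +
        (-1) ^ m * c * χ (a : ZMod N)) else 0) =
      ∑ a ∈ range N, (if a % M = b then
      (χ (a : ZMod N) * Polynomial.aeval ((a : k) / (N : ℕ)) F +
        (-1) ^ m * c * χ (a : ZMod N)) else 0) := by
    rw [Finset.sum_range_succ, if_neg, add_zero]
    omega
  have h3 : ∑ a ∈ range N, (if a % M = b then
      (χ (a : ZMod N) * Polynomial.aeval ((a : k) / (N : ℕ)) F +
        (-1) ^ m * c * χ (a : ZMod N)) else 0) =
      ∑ a ∈ range N, (if a % M = b then χ (a : ZMod N) * Polynomial.aeval ((a : k) / (N : ℕ)) F else 0) := by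
    have h4 : ∑ a ∈ range N, (if a % M = b then
      (χ (a : ZMod N) * Polynomial.aeval ((a : k) / (N : ℕ)) F +
        (-1) ^ m * c * χ (a : ZMod N)) else 0) =
        ∑ a ∈ range N, (if a % M = b then χ (a : ZMod N) * Polynomial.aeval ((a : k) / (N : ℕ)) F else 0) +
        (-1) ^ m * c * ∑ a ∈ range N, (if a % M = b then χ (a : ZMod N) else 0) := by
      rw [Finset.mul_sum, ← Finset.sum_add_distrib]
      refine Finset.sum_congr rfl fun a _ => ?_
      split_ifs
      · ring
      · ring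
    rw [h4, hE, mul_zero, add_zero]
  rw [← h1, ← h3, ← h2, ← Finset.sum_range_reflect]
  refine Finset.sum_congr rfl fun j hj => ?_
  have hj' : j ≤ N := by
    have := mem_range.1 hj
    omega
  rw [Nat.add_sub_cancel]
  have h4 : (N - j) % M = M - b ↔ j % M = b := by
    obtain ⟨w, hw⟩ := hMN
    constructor
    · intro h
      have h5 := Nat.mod_add_div (N - j) M
      have h6 := Nat.mod_add_div j M
      have h7 : j % M < M := Nat.mod_lt _ hM0
      have h8 : (M - b) + j % M + M * ((N - j) / M + j / M) = M * w := by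
        rw [← hw, mul_add]
        omega
      have h9 : M ∣ (M - b) + j % M := by
        refine (Nat.dvd_add_left (dvd_mul_right M ((N - j) / M + j / M))).1 ?_
        rw [h8]
        exact dvd_mul_right _ _
      obtain ⟨v, hv⟩ := h9
      have hv1 : v = 1 := by
        rcases Nat.lt_or_ge v 1 with h | h
        · have : v = 0 := by omega
          subst this
          omega
        · rcases Nat.lt_or_ge 1 v with h' | h'
          · have : M * 2 ≤ M * v := Nat.mul_le_mul_left _ h'
            omega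
          · omega
      subst hv1
      omega
    · intro h
      have h6 := Nat.mod_add_div j M
      rw [h] at h6
      have h7 : j / M < w := by
        by_contra hcon
        push Not at hcon
        have : M * w ≤ M * (j / M) := Nat.mul_le_mul_left _ hcon
        omega
      have h8 : N - j = (M - b) + M * (w - 1 - j / M) := by
        have h9 : M * w = M * (w - 1 - j / M) + M * (j / M) + M := by
          have : w = (w - 1 - j / M) + j / M + 1 := by omega
          conv_lhs => rw [this]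
          ring
        omega
      rw [h8, Nat.add_mul_mod_self_left, Nat.mod_eq_of_lt (by omega)]
  by_cases h5 : j % M = b
  · rw [if_pos h5, if_pos (h4.2 h5)]
    have e1 : ((N - j : ℕ) : ZMod N) = (-1) * (j : ZMod N) := by
      rw [Nat.cast_sub hj']
      simp
    have e3 : (((N - j : ℕ) : k) / (N : ℕ)) = 1 - (j : k) / (N : ℕ) := by
      rw [Nat.cast_sub hj', sub_div, div_self hNk]
    rw [e1, e3, map_mul, hF]
    have e4 : ((-1 : k) ^ m) * (-1) ^ m = 1 := by
      rw [← mul_pow]
      simp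
    linear_combination (χ (j : ZMod N) *
      ((-1) ^ m * Polynomial.aeval ((j : k) / (N : ℕ)) F + c)) * hpar +
      χ (j : ZMod N) * Polynomial.aeval ((j : k) / (N : ℕ)) F * e4
  · rw [if_neg h5, if_neg (fun h => h5 (h4.1 h))]

end

end Pool.Agent.H178.GC
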