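import Pool.Agent.H178.GC.CaseB

/-!
# The Euler factor at `5`, and the core statement for the prime `5`
-/

set_option autoImplicit false

namespace Pool.Agent.H178.GC

open Finset Pool.Agent.Y18.GX Polynomial

section
variable {k : Type*} [Field k] [CharP k 5]

theorem euler5 {a b : ℕ} {χ : MulChar (ZMod (2 ^ a * 3 ^ b)) k} (D : DatG a b 1 χ) (ha1 : a ≠ 1)
    (h1 : ¬ (a = 2 ∧ b = 0)) (h2 : ¬ (a = 3 ∧ b = 1)) : χ ((5 : ℕ) : ZMod (2 ^ a * 3 ^ b)) ≠ 1 := by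
  intro h
  rw [cc_nat (cop23 a b) χ] at h
  have htwo := two_ne (k := k)
  set ψ₂ := c1 (cop23 a b) χ with hψ₂
  set ψ₃ := c2 (cop23 a b) χ with hψ₃
  have h5a : ψ₂ ((5 : ℕ) : ZMod (2 ^ a)) ^ 2 ^ a = 1 := by
    rcases Nat.eq_zero_or_pos a with h0 | h0
    · subst h0
      rw [Subsingleton.elim (α := ZMod 1) (((5 : ℕ) : ZMod (2 ^ 0))) 1, map_one, one_pow]
    · exact two_part h0 ψ₂ (by norm_num)
  rcases Nat.lt_or_ge b 2 with hb | hb
  · have h3 : ψ₃ ((5 : ℕ) : ZMod (3 ^ b)) ^ 2 = 1 := by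
      have hb' : b = 0 ∨ b = 1 := by omega
      rcases hb' with h0 | h0
      · subst h0
        rw [Subsingleton.elim (α := ZMod 1) (((5 : ℕ) : ZMod (3 ^ 0))) 1, map_one, one_pow]
      · subst h0
        rw [← map_pow]
        have : ((5 : ℕ) : ZMod (3 ^ 1)) ^ 2 = 1 := by decide
        rw [this, map_one]
    have h4 : ψ₂ ((5 : ℕ) : ZMod (2 ^ a)) ^ 2 = 1 := by
      have := congrArg (fun z => z ^ 2) h
      simp only [mul_pow, h3, mul_one, one_pow] at this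
      exact this
    rcases Nat.lt_or_ge a 4 with ha | ha
    · have ha' : a = 0 ∨ a = 2 ∨ a = 3 := by omega
      rcases ha' with h0 | h0 | h0
      · subst h0
        rw [Subsingleton.elim (α := ZMod 1) (((5 : ℕ) : ZMod (2 ^ 0))) 1, map_one, one_mul] at h
        have hb' : b = 0 ∨ b = 1 := by omega
        rcases hb' with h0 | h0
        · subst h0
          have hp := D.hpar
          rw [Subsingleton.elim (α := ZMod 1) (-1 : ZMod (2 ^ 0 * 3 ^ 0)) 1, map_one, pow_one] at hp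
          apply htwo
          linear_combination hp
        · subst h0
          have e : ((5 : ℕ) : ZMod (3 ^ 1)) = 2 := by decide
          rw [e] at h
          exact D.h31 rfl h
      · subst h0
        have e : ((5 : ℕ) : ZMod (2 ^ 2)) = 1 := by decide
        rw [e, map_one, one_mul] at h
        have hb' : b = 1 := by omega
        subst hb'
        have e : ((5 : ℕ) : ZMod (3 ^ 1)) = 2 := by decide
        rw [e] at h
        exact D.h31 rfl h
      · subst h0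
        have hb' : b = 0 := by omega
        subst hb'
        rw [Subsingleton.elim (α := ZMod 1) (((5 : ℕ) : ZMod (3 ^ 0))) 1, map_one, mul_one] at h
        have hp := D.prim2 (by norm_num)
        have e1 : ((1 + 2 ^ (3 - 1) : ℕ) : ZMod (2 ^ 3)) = ((5 : ℕ) : ZMod (2 ^ 3)) := by decide
        rw [e1] at hp
        exact hp h
    · obtain ⟨y, hy, hyc⟩ := pow_iter (ℓ := 2) (d := 5) (r := 2) (x := 1) (Or.inr ⟨rfl, by norm_num⟩)
        (by norm_num) (by norm_num) (a - 3)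
      have e1 : 2 + (a - 3) = a - 1 := by omega
      rw [e1] at hy
      have e2 : ψ₂ ((5 : ℕ) : ZMod (2 ^ a)) ^ 2 ^ (a - 3) =
          ψ₂ ((1 + 2 ^ (a - 1) : ℕ) : ZMod (2 ^ a)) ^ y := by
        rw [← psi_one_add (n := 1) ψ₂ (by omega), ← hy, ← map_pow]
        push_cast
        rfl
      have e3 : ψ₂ ((5 : ℕ) : ZMod (2 ^ a)) ^ 2 ^ (a - 3) = 1 := by
        have : 2 ^ (a - 3) = 2 * 2 ^ (a - 4) := by
          rw [← pow_succ']
          congr 1
          omega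
        rw [this, pow_mul, h4, one_pow]
      rw [e3] at e2
      have hτ : ψ₂ ((1 + 2 ^ (a - 1) : ℕ) : ZMod (2 ^ a)) ^ 2 = 1 := by
        have := psi_M_pow (n := 1) ψ₂ (by omega)
        rwa [pow_one] at this
      exact ne_one_of_coprime (D.prim2 (by omega)) hτ hyc e2.symm
  · have h3 : ψ₃ ((5 : ℕ) : ZMod (3 ^ b)) ^ 2 ^ a = 1 := by
      have := congrArg (fun z => z ^ 2 ^ a) h
      simp only [mul_pow, h5a, one_mul, one_pow] at this
      exact this
    obtain ⟨y, hy, hyc⟩ := pow_iter (ℓ := 3) (d := 25) (r := 1) (x := 8) (Or.inl ⟨rfl, by norm_num⟩)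
        (by norm_num) (by norm_num) (b - 2)
    have e1 : 1 + (b - 2) = b - 1 := by omega
    rw [e1] at hy
    have hτ : ψ₃ ((1 + 3 ^ (b - 1) : ℕ) : ZMod (3 ^ b)) ^ 3 = 1 := by
      have := psi_M_pow (n := 1) ψ₃ (by omega)
      rwa [pow_one] at this
    have e2 : ψ₃ ((5 : ℕ) : ZMod (3 ^ b)) ^ (2 * 3 ^ (b - 2)) =
        ψ₃ ((1 + 3 ^ (b - 1) : ℕ) : ZMod (3 ^ b)) ^ y := by
      rw [← psi_one_add (n := 1) ψ₃ (by omega), ← hy, ← map_pow, pow_mul]
      congr 1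
      push_cast
      norm_num
    have e3 : ψ₃ ((1 + 3 ^ (b - 1) : ℕ) : ZMod (3 ^ b)) ^ (y * 2 ^ a) = 1 := by
      rw [pow_mul, ← e2, ← pow_mul, show 2 * 3 ^ (b - 2) * 2 ^ a = 2 ^ a * (2 * 3 ^ (b - 2)) by ring, pow_mul, h3,
        one_pow]
    exact ne_one_of_coprime (D.prim3 hb) hτ (Nat.Coprime.mul_left hyc (Nat.Coprime.pow_left a (by norm_num))) e3

theorem core5 {a b m : ℕ} {χ : MulChar (ZMod (2 ^ a * 3 ^ b)) k} (D : DatG a b m χ) {θ : k} (hθ : θ ^ 2 = 2)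
    (ha1 : a ≠ 1) (h00 : ¬ (a = 0 ∧ b = 0)) (hm1 : 1 ≤ m) (hm4 : m ≤ 4)
    (hexc : ¬ (a = 4 ∧ b = 0 ∧ m = 2) ∧ ¬ (a = 4 ∧ b = 1 ∧ m = 3) ∧ ¬ (a = 2 ∧ b = 2 ∧ m = 4)) :
    ∑ x ∈ range (2 ^ a * 3 ^ b), χ (x : ZMod (2 ^ a * 3 ^ b)) *
      Polynomial.aeval ((x : k) / (2 ^ a * 3 ^ b : ℕ)) (FF m) ≠ 0 := by
  rcases Nat.lt_or_ge a 6 with ha | ha
  · rcases Nat.lt_or_ge b 2 with hb | hb
    · exact caseD D hθ (by omega) (by omega) h00 hm1 hm4 hexc.1 hexc.2.1
    · exact caseC D hθ (by omega) hb hm1 hm4 hexc.2.2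
  · rcases Nat.lt_or_ge b 2 with hb | hb
    · exact caseB D hθ ha (by omega) hm1 hm4
    · exact caseA ⟨ha, hb, D.h2 (by omega), D.h3 hb, D.hpar⟩ hm1 hm4

end

end Pool.Agent.H178.GC
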