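import Pool.Agent.H178.GC.Two3

/-!
# The relations for the classes `s 3^B + t 2^A` and `s 3^B - t 2^A`
-/

set_option autoImplicit false

namespace Pool.Agent.H178.GC

open Finset Pool.Agent.Y18.GX

lemma cop6 {c : ℕ} : c.Coprime 6 ↔ ¬ 2 ∣ c ∧ ¬ 3 ∣ c := by
  constructor
  · intro h
    constructor
    · intro h2
      have := Nat.dvd_gcd h2 (show 2 ∣ 6 by norm_num)
      rw [h] at this
      omega
    · intro h3
      have := Nat.dvd_gcd h3 (show 3 ∣ 6 by norm_num)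
      rw [h] at this
      omega
  · rintro ⟨h2, h3⟩
    have e2 : c.Coprime 2 := (Nat.coprime_comm.1 ((Nat.Prime.coprime_iff_not_dvd Nat.prime_two).2 h2))
    have e3 : c.Coprime 3 := (Nat.coprime_comm.1 ((Nat.Prime.coprime_iff_not_dvd Nat.prime_three).2 h3))
    exact e2.mul_right e3

section
variable {s t A B : ℕ} (hs : ¬ 2 ∣ s) (ht : ¬ 3 ∣ t) (hA : 1 ≤ A) (hB : 1 ≤ B)

include hs hA in
lemma odd_part : ¬ 2 ∣ s * 3 ^ B ∧ 2 ∣ t * 2 ^ A := by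
  constructor
  · intro h
    rcases (Nat.Prime.dvd_mul Nat.prime_two).1 h with h | h
    · exact hs h
    · have := Nat.Prime.dvd_of_dvd_pow Nat.prime_two h
      omega
  · exact (dvd_pow_self 2 (by omega)).mul_left t

include ht hB in
lemma three_part' : 3 ∣ s * 3 ^ B ∧ ¬ 3 ∣ t * 2 ^ A := by
  constructor
  · exact (dvd_pow_self 3 (by omega)).mul_left s
  · intro h
    rcases (Nat.Prime.dvd_mul Nat.prime_three).1 h with h | h
    · exact ht h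
    · have := Nat.Prime.dvd_of_dvd_pow Nat.prime_three h
      omega

include hs ht hA hB in
lemma cop_add : (s * 3 ^ B + t * 2 ^ A).Coprime 6 := by
  rw [cop6]
  have h1 := odd_part (t := t) (B := B) hs hA
  have h2 := three_part' (s := s) (A := A) ht hB
  constructor <;> omega

include hs ht hA hB in
lemma cop_sub {c : ℕ} (h : c + t * 2 ^ A = s * 3 ^ B ∨ c + s * 3 ^ B = t * 2 ^ A) : c.Coprime 6 := by
  rw [cop6]
  have h1 := odd_part (t := t) (B := B) hs hA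
  have h2 := three_part' (s := s) (A := A) ht hB
  rcases h with h | h <;> constructor <;> omega

end

section
variable {k : Type*} [Field k]

lemma val_shift {ℓ K n : ℕ} (ψ : MulChar (ZMod (ℓ ^ K)) k) (hn : 2 * n ≤ K) (hn24 : ℓ ^ n ∣ 24) {t c₁ : ℕ}
    (hc : c₁.Coprime 6) (ε z : ZMod (ℓ ^ K))
    (hz : z = ε * (c₁ - 2 * t * ((ℓ ^ (K - n) : ℕ) : ZMod (ℓ ^ K)))) :
    ψ z = ψ ε * ψ (c₁ : ZMod (ℓ ^ K)) * ψ ((1 + ℓ ^ (K - n) : ℕ) : ZMod (ℓ ^ K)) ^ (22 * t * c₁) := by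
  have hW : (24 : ZMod (ℓ ^ K)) * ((ℓ ^ (K - n) : ℕ) : ZMod (ℓ ^ K)) = 0 := by
    obtain ⟨w, hw⟩ := hn24
    have h1 : (24 : ZMod (ℓ ^ K)) = ((ℓ ^ n * w : ℕ) : ZMod (ℓ ^ K)) := by
      rw [← hw]
      norm_num
    have h2 : ((ℓ ^ n : ℕ) : ZMod (ℓ ^ K)) * ((ℓ ^ (K - n) : ℕ) : ZMod (ℓ ^ K)) = 0 := by
      rw [← Nat.cast_mul, ← pow_add]
      have : n + (K - n) = K := by omega
      rw [this, ZMod.natCast_self]
    rw [h1, Nat.cast_mul]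
    linear_combination (w : ZMod (ℓ ^ K)) * h2
  obtain ⟨y, hy⟩ : ∃ y : ℤ, (c₁ : ℤ) ^ 2 = 1 + 24 * y := by
    obtain ⟨y, hy⟩ := Nat.modEq_iff_dvd.1 (sq_mod hc).symm
    exact ⟨y, by push_cast at hy; linarith⟩
  have h2 : (c₁ : ZMod (ℓ ^ K)) ^ 2 = 1 + 24 * (y : ZMod (ℓ ^ K)) := by
    have := congrArg (fun z : ℤ => (z : ZMod (ℓ ^ K))) hy
    push_cast at this
    exact this
  rw [← psi_one_add ψ hn, ← map_mul, ← map_mul]
  congr 1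
  rw [hz]
  push_cast at hW ⊢
  linear_combination (-22 * ε * t * (ℓ : ZMod (ℓ ^ K)) ^ (K - n)) * h2 - ε * (t + 22 * t * y) * hW

end

section
variable {k : Type*} [Field k] {p : ℕ} [Fact p.Prime] [CharP k p]

/-- the value of `ψ₂` at `1 + 2^(a-3)` -/
noncomputable def x2 {a b : ℕ} (χ : MulChar (ZMod (2 ^ a * 3 ^ b)) k) : k :=
  c1 (cop23 a b) χ ((1 + 2 ^ (a - 3) : ℕ) : ZMod (2 ^ a))

/-- the value of `ψ₃` at `1 + 3^(b-1)` -/
noncomputable def x3 {a b : ℕ} (χ : MulChar (ZMod (2 ^ a * 3 ^ b)) k) : k :=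
  c2 (cop23 a b) χ ((1 + 3 ^ (b - 1) : ℕ) : ZMod (3 ^ b))

/-- the reduced sum over the class of `c` -/
noncomputable def QQ (a b m : ℕ) (χ : MulChar (ZMod (2 ^ a * 3 ^ b)) k) (c : ℕ) : k :=
  ∑ t ∈ range 24, (x2 χ ^ 3 ^ (b - 1) * x3 χ ^ 2 ^ (a - 3)) ^ (c * t) *
    Polynomial.aeval (((c + 2 ^ (a - 3) * 3 ^ (b - 1) * t : ℕ) : k) / (2 ^ a * 3 ^ b : ℕ)) (FF m)

lemma Dat.xi_eq {a b m : ℕ} {χ : MulChar (ZMod (2 ^ a * 3 ^ b)) k} (D : Dat a b m χ) :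
    χ ((1 + 2 ^ (a - 3) * 3 ^ (b - 1) : ℕ) : ZMod (2 ^ a * 3 ^ b)) = x2 χ ^ 3 ^ (b - 1) * x3 χ ^ 2 ^ (a - 3) := by
  have ha := D.ha
  have hb := D.hb
  rw [cc_nat (cop23 a b) χ, x2, x3, ← psi_one_add (n := 3) (c1 (cop23 a b) χ) (by omega),
    ← psi_one_add (n := 1) (c2 (cop23 a b) χ) (by omega)]
  congr 4
  ring

lemma Dat.TT_eq {a b m : ℕ} {χ : MulChar (ZMod (2 ^ a * 3 ^ b)) k} (D : Dat a b m χ) {c : ℕ} (hc : c.Coprime 6) :
    TT a b m χ c = χ (c : ZMod (2 ^ a * 3 ^ b)) * QQ a b m χ c := by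
  rw [TT, QQ, Finset.mul_sum]
  refine Finset.sum_congr rfl fun t _ => ?_
  rw [chi_add D.N24 D.M24 χ hc, D.xi_eq, mul_assoc]

theorem rel_pos {a b m u s t c : ℕ} {χ : MulChar (ZMod (2 ^ a * 3 ^ b)) k} (D : Dat a b m χ)
    (hq : p ^ 2 - 1 = 24 * u) (hu : u.Coprime 6)
    (hS : ∑ x ∈ range (2 ^ a * 3 ^ b), χ (x : ZMod (2 ^ a * 3 ^ b)) *
      Polynomial.aeval ((x : k) / (2 ^ a * 3 ^ b : ℕ)) (FF m) = 0)
    (hs : ¬ 2 ∣ s) (ht : ¬ 3 ∣ t) (hlt : s * 3 ^ (b - 1) + t * 2 ^ (a - 3) < 2 ^ (a - 3) * 3 ^ (b - 1))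
    (hc : c + t * 2 ^ (a - 3) = s * 3 ^ (b - 1)) :
    QQ a b m χ (s * 3 ^ (b - 1) + t * 2 ^ (a - 3)) + c2 (cop23 a b) χ (-1) *
      x2 χ ^ (22 * t * (s * 3 ^ (b - 1) + t * 2 ^ (a - 3))) *
      x3 χ ^ (22 * s * (s * 3 ^ (b - 1) + t * 2 ^ (a - 3))) * QQ a b m χ c = 0 := by
  have ha := D.ha
  have hb := D.hb
  have hc1 := cop_add hs ht (show 1 ≤ a - 3 by omega) (show 1 ≤ b - 1 by omega)
  have hc2 := cop_sub hs ht (show 1 ≤ a - 3 by omega) (show 1 ≤ b - 1 by omega) (Or.inl hc)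
  set c₁ := s * 3 ^ (b - 1) + t * 2 ^ (a - 3) with hc₁
  have h := two_class (p := p) D hq hu hS hc1 hc2 hlt (by omega) (by
    left
    constructor
    · refine ⟨-(2 * t), ?_⟩
      have e1 : (c : ℤ) + t * 2 ^ (a - 3) = s * 3 ^ (b - 1) := by exact_mod_cast hc
      rw [hc₁]
      push_cast
      linear_combination e1
    · refine ⟨2 * s, ?_⟩
      have e1 : (c : ℤ) + t * 2 ^ (a - 3) = s * 3 ^ (b - 1) := by exact_mod_cast hc
      rw [hc₁]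
      push_cast
      linear_combination e1)
  rw [D.TT_eq hc1, D.TT_eq hc2] at h
  have hu1 : χ (c₁ : ZMod (2 ^ a * 3 ^ b)) ≠ 0 := by
    refine (((ZMod.isUnit_iff_coprime c₁ (2 ^ a * 3 ^ b)).2 ?_).map χ).ne_zero
    have e2 : c₁.Coprime 2 := Nat.Coprime.coprime_dvd_right (by norm_num) hc1
    have e3 : c₁.Coprime 3 := Nat.Coprime.coprime_dvd_right (by norm_num) hc1
    exact (e2.pow_right a).mul_right (e3.pow_right b)
  have v2 := val_shift (n := 3) (c1 (cop23 a b) χ) (by omega) (by norm_num) (t := t) hc1 1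
    ((c : ℕ) : ZMod (2 ^ a)) (by
      have e1 : ((c + t * 2 ^ (a - 3) : ℕ) : ZMod (2 ^ a)) = ((s * 3 ^ (b - 1) : ℕ) : ZMod (2 ^ a)) := by rw [hc]
      rw [hc₁]
      push_cast at e1 ⊢
      linear_combination e1)
  have v3 := val_shift (n := 1) (c2 (cop23 a b) χ) (by omega) (by norm_num) (t := s) hc1 (-1)
    ((c : ℕ) : ZMod (3 ^ b)) (by
      have e1 : ((c + t * 2 ^ (a - 3) : ℕ) : ZMod (3 ^ b)) = ((s * 3 ^ (b - 1) : ℕ) : ZMod (3 ^ b)) := by rw [hc]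
      rw [hc₁]
      push_cast at e1 ⊢
      linear_combination e1)
  have hχc : χ (c : ZMod (2 ^ a * 3 ^ b)) = χ (c₁ : ZMod (2 ^ a * 3 ^ b)) * (c2 (cop23 a b) χ (-1) *
      x2 χ ^ (22 * t * c₁) * x3 χ ^ (22 * s * c₁)) := by
    rw [cc_nat (cop23 a b) χ c, cc_nat (cop23 a b) χ c₁, v2, v3, map_one, x2, x3]
    ring
  rw [hχc, mul_assoc, ← mul_add] at h
  rcases mul_eq_zero.1 h with h1 | h1
  · exact absurd h1 hu1
  · exact h1

theorem rel_neg {a b m u s t c : ℕ} {χ : MulChar (ZMod (2 ^ a * 3 ^ b)) k} (D : Dat a b m χ)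
    (hq : p ^ 2 - 1 = 24 * u) (hu : u.Coprime 6)
    (hS : ∑ x ∈ range (2 ^ a * 3 ^ b), χ (x : ZMod (2 ^ a * 3 ^ b)) *
      Polynomial.aeval ((x : k) / (2 ^ a * 3 ^ b : ℕ)) (FF m) = 0)
    (hs : ¬ 2 ∣ s) (ht : ¬ 3 ∣ t) (hlt : s * 3 ^ (b - 1) + t * 2 ^ (a - 3) < 2 ^ (a - 3) * 3 ^ (b - 1))
    (hc : c + s * 3 ^ (b - 1) = t * 2 ^ (a - 3)) :
    QQ a b m χ (s * 3 ^ (b - 1) + t * 2 ^ (a - 3)) + c1 (cop23 a b) χ (-1) *
      x2 χ ^ (22 * t * (s * 3 ^ (b - 1) + t * 2 ^ (a - 3))) *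
      x3 χ ^ (22 * s * (s * 3 ^ (b - 1) + t * 2 ^ (a - 3))) * QQ a b m χ c = 0 := by
  have ha := D.ha
  have hb := D.hb
  have hc1 := cop_add hs ht (show 1 ≤ a - 3 by omega) (show 1 ≤ b - 1 by omega)
  have hc2 := cop_sub hs ht (show 1 ≤ a - 3 by omega) (show 1 ≤ b - 1 by omega) (Or.inr hc)
  set c₁ := s * 3 ^ (b - 1) + t * 2 ^ (a - 3) with hc₁
  have h := two_class (p := p) D hq hu hS hc1 hc2 hlt (by omega) (by
    right
    constructor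
    · refine ⟨2 * t, ?_⟩
      have e1 : (c : ℤ) + s * 3 ^ (b - 1) = t * 2 ^ (a - 3) := by exact_mod_cast hc
      rw [hc₁]
      push_cast
      linear_combination e1
    · refine ⟨-(2 * s), ?_⟩
      have e1 : (c : ℤ) + s * 3 ^ (b - 1) = t * 2 ^ (a - 3) := by exact_mod_cast hc
      rw [hc₁]
      push_cast
      linear_combination e1)
  rw [D.TT_eq hc1, D.TT_eq hc2] at h
  have hu1 : χ (c₁ : ZMod (2 ^ a * 3 ^ b)) ≠ 0 := by
    refine (((ZMod.isUnit_iff_coprime c₁ (2 ^ a * 3 ^ b)).2 ?_).map χ).ne_zero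
    have e2 : c₁.Coprime 2 := Nat.Coprime.coprime_dvd_right (by norm_num) hc1
    have e3 : c₁.Coprime 3 := Nat.Coprime.coprime_dvd_right (by norm_num) hc1
    exact (e2.pow_right a).mul_right (e3.pow_right b)
  have v2 := val_shift (n := 3) (c1 (cop23 a b) χ) (by omega) (by norm_num) (t := t) hc1 (-1)
    ((c : ℕ) : ZMod (2 ^ a)) (by
      have e1 : ((c + s * 3 ^ (b - 1) : ℕ) : ZMod (2 ^ a)) = ((t * 2 ^ (a - 3) : ℕ) : ZMod (2 ^ a)) := by rw [hc]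
      rw [hc₁]
      push_cast at e1 ⊢
      linear_combination e1)
  have v3 := val_shift (n := 1) (c2 (cop23 a b) χ) (by omega) (by norm_num) (t := s) hc1 1
    ((c : ℕ) : ZMod (3 ^ b)) (by
      have e1 : ((c + s * 3 ^ (b - 1) : ℕ) : ZMod (3 ^ b)) = ((t * 2 ^ (a - 3) : ℕ) : ZMod (3 ^ b)) := by rw [hc]
      rw [hc₁]
      push_cast at e1 ⊢
      linear_combination e1)
  have hχc : χ (c : ZMod (2 ^ a * 3 ^ b)) = χ (c₁ : ZMod (2 ^ a * 3 ^ b)) * (c1 (cop23 a b) χ (-1) *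
      x2 χ ^ (22 * t * c₁) * x3 χ ^ (22 * s * c₁)) := by
    rw [cc_nat (cop23 a b) χ c, cc_nat (cop23 a b) χ c₁, v2, v3, map_one, x2, x3]
    ring
  rw [hχc, mul_assoc, ← mul_add] at h
  rcases mul_eq_zero.1 h with h1 | h1
  · exact absurd h1 hu1
  · exact h1

end

end Pool.Agent.H178.GC
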