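import Pool.Agent.H178.GC.CaseA2

/-!
# The sums for the remaining levels: tables
-/

set_option autoImplicit false

namespace Pool.Agent.H178.GC

open Finset Pool.Agent.Y18.GX Polynomial

/-- the exponent `j` with `x = ± 5^j` modulo `32` -/
def dl (x : ℕ) : ℕ :=
  match x with
  | 1 => 0 | 5 => 1 | 25 => 2 | 29 => 3 | 17 => 4 | 21 => 5 | 9 => 6 | 13 => 7
  | 31 => 0 | 27 => 1 | 7 => 2 | 3 => 3 | 15 => 4 | 11 => 5 | 23 => 6 | 19 => 7
  | _ => 0

/-- the character modulo `2^a`, `a = 0` or `2 ≤ a ≤ 5`, with the value `σ` at `-1` and `η` at `5` -/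
def tb (a σ : ℕ) (η : ℕ × ℕ) (x : ℕ) : ℕ × ℕ :=
  if a = 0 then (1, 0) else if x % 2 = 0 then (0, 0) else
    smul5 (if x % 4 = 3 then σ else 1) (pow5 η (dl (x % 32)))

/-- the character modulo `3^b`, `b ≤ 1` -/
def tb3 (b x : ℕ) : ℕ := if b = 0 then 1 else if x % 3 = 0 then 0 else if x % 3 = 1 then 1 else 4

/-- `∑_{t < n} f(y + M t) ξ^t F((y + M t) N3)` with accumulators -/
def qg (m N3 : ℕ) (f : ℕ → ℕ × ℕ) (ξ : ℕ × ℕ) (M P : ℕ) : ℕ → ℕ → ℕ × ℕ → ℕ × ℕ → ℕ × ℕ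
  | 0, _, _, acc => acc
  | n + 1, y, pw, acc => qg m N3 f ξ M P n ((y + M) % P) (mul5 pw ξ)
      (add5 acc (smul5 (Fv m ((y * N3) % 5)) (mul5 (f y) pw)))

lemma qg_lt (m N3 : ℕ) (f : ℕ → ℕ × ℕ) (ξ : ℕ × ℕ) (M P n : ℕ) : ∀ (y : ℕ) (pw acc : ℕ × ℕ), acc.1 < 5 → acc.2 < 5 →
    (qg m N3 f ξ M P n y pw acc).1 < 5 ∧ (qg m N3 f ξ M P n y pw acc).2 < 5 := by
  induction n with
  | zero => intro y pw acc h1 h2; exact ⟨h1, h2⟩
  | succ n ih =>
    intro y pw acc _ _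
    exact ih _ _ _ (Nat.mod_lt _ (by norm_num)) (Nat.mod_lt _ (by norm_num))

lemma dl_spec : ∀ x < 32, x % 2 = 1 → (x % 4 = 3 → (x + 5 ^ dl x) % 32 = 0) ∧ (x % 4 ≠ 3 → 5 ^ dl x % 32 = x) := by
  decide

section
variable {k : Type*} [Field k] [CharP k 5]

lemma qg_spec {θ : k} (hθ : θ ^ 2 = 2) {m : ℕ} (h1 : 1 ≤ m) (h4 : m ≤ 4) (N3 : ℕ) (f : ℕ → ℕ × ℕ) (g : ℕ → k)
    {P : ℕ} (hP : 5 ∣ P) (hg : ∀ x, g x = ph θ (f (x % P))) (ξ : ℕ × ℕ) (M n : ℕ) :
    ∀ (y : ℕ) (pw acc : ℕ × ℕ), y < P → ph θ (qg m N3 f ξ M P n y pw acc) =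
      ph θ acc + ph θ pw * ∑ t ∈ range n, g (y + M * t) * ph θ ξ ^ t *
        aeval ((((y + M * t) * N3 : ℕ)) : k) (FF m) := by
  have hP0 : 0 < P ∨ P = 0 := by omega
  induction n with
  | zero =>
    intro y pw acc _
    rw [Finset.sum_range_zero, mul_zero, add_zero]
    rfl
  | succ n ih =>
    intro y pw acc hy
    have h : qg m N3 f ξ M P (n + 1) y pw acc = qg m N3 f ξ M P n ((y + M) % P) (mul5 pw ξ)
      (add5 acc (smul5 (Fv m ((y * N3) % 5)) (mul5 (f y) pw))) := rfl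
    rw [h, ih _ _ _ (Nat.mod_lt _ (by omega)), ph_add, ph_smul, ph_mul hθ, ph_mul hθ, Fv_spec h1 h4,
      Finset.sum_range_succ', nat5]
    have e0 : ph θ (f y) = g (y + M * 0) := by
      rw [hg, mul_zero, add_zero, Nat.mod_eq_of_lt hy]
    have e1 : ∀ t, g ((y + M) % P + M * t) = g (y + M * (t + 1)) := by
      intro t
      rw [hg, hg]
      congr 2
      rw [Nat.add_mod, Nat.mod_mod, ← Nat.add_mod]
      congr 1
      ring
    have e2 : ∀ t : ℕ, (((((y + M) % P + M * t) * N3 : ℕ)) : k) = ((((y + M * (t + 1)) * N3 : ℕ)) : k) := by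
      intro t
      have h5 : (((y + M) % P : ℕ) : k) = ((y + M : ℕ) : k) := by
        rw [← nat5, ← nat5 (y + M), Nat.mod_mod_of_dvd _ hP]
      rw [Nat.cast_mul, Nat.cast_add, h5]
      push_cast
      ring
    rw [e0]
    simp only [e1, e2]
    rw [mul_add, Finset.mul_sum, Finset.mul_sum]
    have h6 : ∑ t ∈ range n, ph θ pw * ph θ ξ * (g (y + M * (t + 1)) * ph θ ξ ^ t *
          aeval (((y + M * (t + 1)) * N3 : ℕ) : k) (FF m)) =
        ∑ t ∈ range n, ph θ pw * (g (y + M * (t + 1)) * ph θ ξ ^ (t + 1) *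
          aeval (((y + M * (t + 1)) * N3 : ℕ) : k) (FF m)) :=
      Finset.sum_congr rfl fun t _ => by ring
    rw [h6, pow_zero, mul_zero, add_zero]
    ring

/-- the table of a character modulo `2^a` -/
lemma tb_spec {θ : k} (hθ : θ ^ 2 = 2) {a σ : ℕ} {η : ℕ × ℕ} (ha : a = 0 ∨ (2 ≤ a ∧ a ≤ 5))
    (ψ : MulChar (ZMod (2 ^ a)) k) (hσ : ψ (-1) = σ) (hη : a ≠ 0 → ψ (5 : ZMod (2 ^ a)) = ph θ η) (x : ℕ) :
    ψ (x : ZMod (2 ^ a)) = ph θ (tb a σ η (x % 480)) := by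
  rcases ha with rfl | ⟨ha2, ha5⟩
  · rw [tb, if_pos rfl, ph_one]
    rw [Subsingleton.elim (α := ZMod 1) (x : ZMod (2 ^ 0)) 1, map_one]
  · rw [tb, if_neg (by omega)]
    have hx2 : x % 480 % 2 = x % 2 := by omega
    have hx4 : x % 480 % 4 = x % 4 := by omega
    have hx32 : x % 480 % 32 = x % 32 := by omega
    rw [hx2, hx4, hx32]
    by_cases h : x % 2 = 0
    · rw [if_pos h, ph_zero]
      apply ψ.map_nonunit
      rw [ZMod.isUnit_iff_coprime]
      intro h1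
      have h2 : 2 ∣ Nat.gcd x (2 ^ a) := Nat.dvd_gcd (Nat.dvd_of_mod_eq_zero h) (dvd_pow_self 2 (by omega))
      rw [h1] at h2
      omega
    · rw [if_neg h, ph_smul, ph_pow hθ, ← hη (by omega)]
      have h32 : (2 ^ a : ℕ) ∣ 32 := by
        have := pow_dvd_pow 2 ha5
        norm_num at this
        exact this
      have hs := dl_spec (x % 32) (Nat.mod_lt _ (by norm_num)) (by omega)
      have hx : x % 32 % 4 = x % 4 := by omega
      rw [hx] at hs
      by_cases h3 : x % 4 = 3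
      · rw [if_pos h3]
        have h4 : ((x + 5 ^ dl (x % 32) : ℕ) : ZMod (2 ^ a)) = 0 := by
          rw [ZMod.natCast_eq_zero_iff]
          refine h32.trans (Nat.dvd_of_mod_eq_zero ?_)
          rw [← hs.1 h3]
          exact Nat.ModEq.add_right _ (Nat.mod_modEq x 32).symm
        have h5 : (x : ZMod (2 ^ a)) = (-1) * (5 : ZMod (2 ^ a)) ^ dl (x % 32) := by
          push_cast at h4
          linear_combination h4
        rw [h5, map_mul, map_pow, hσ]
      · rw [if_neg h3, Nat.cast_one, one_mul, ← map_pow]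
        congr 1
        have h4 : 5 ^ dl (x % 32) ≡ x [MOD 32] := by
          have := hs.2 h3
          rw [Nat.ModEq, this]
        have h5 := (ZMod.natCast_eq_natCast_iff _ _ _).2 (h4.of_dvd h32)
        push_cast at h5
        exact h5.symm

/-- the table of a character modulo `3^b`, `b ≤ 1` -/
lemma tb3_spec {b : ℕ} (hb : b ≤ 1) (ψ : MulChar (ZMod (3 ^ b)) k) (hψ : b = 1 → ψ (2 : ZMod (3 ^ b)) ≠ 1) (x : ℕ) :
    ψ (x : ZMod (3 ^ b)) = (tb3 b x : ℕ) := by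
  have hb' : b = 0 ∨ b = 1 := by omega
  rcases hb' with rfl | rfl
  · rw [tb3, if_pos rfl, Nat.cast_one]
    rw [Subsingleton.elim (α := ZMod 1) (x : ZMod (3 ^ 0)) 1, map_one]
  · have h2 : ψ (2 : ZMod (3 ^ 1)) = -1 := by
      have h1 : ψ (2 : ZMod (3 ^ 1)) ^ 2 = 1 := by
        rw [← map_pow]
        have : (2 : ZMod (3 ^ 1)) ^ 2 = 1 := by decide
        rw [this, map_one]
      have h3 : (ψ (2 : ZMod (3 ^ 1)) - 1) * (ψ (2 : ZMod (3 ^ 1)) + 1) = 0 := by linear_combination h1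
      rcases mul_eq_zero.1 h3 with h | h
      · exact absurd (sub_eq_zero.1 h) (hψ rfl)
      · linear_combination h
    have hx : (x : ZMod (3 ^ 1)) = ((x % 3 : ℕ) : ZMod (3 ^ 1)) := by
      rw [ZMod.natCast_eq_natCast_iff, pow_one]
      exact (Nat.mod_modEq x 3).symm
    rw [hx, tb3, if_neg (by norm_num)]
    have h3 : x % 3 = 0 ∨ x % 3 = 1 ∨ x % 3 = 2 := by omega
    rcases h3 with h | h | h
    · rw [h, if_pos rfl, Nat.cast_zero, Nat.cast_zero]
      apply ψ.map_nonunit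
      intro h4
      rw [isUnit_zero_iff] at h4
      exact absurd h4 (by decide)
    · rw [h, if_neg (by norm_num), if_pos rfl, Nat.cast_one, map_one, Nat.cast_one]
    · rw [h, if_neg (by norm_num), if_neg (by norm_num)]
      have : ((2 : ℕ) : ZMod (3 ^ 1)) = 2 := by norm_num
      rw [this, h2]
      push_cast
      linear_combination (-1 : k) * five (k := k)

end

end Pool.Agent.H178.GC
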