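import Pool.Agent.Y18.GX.Trace

/-!
# Sums over the Frobenius orbit of a root of unity of order `2^i 3^j`
-/

set_option autoImplicit false

namespace Pool.Agent.H178.GC

open Finset Pool.Agent.Y18.GX

lemma adm_div {ℓ q : ℕ} (hA : Adm ℓ q) (i : ℕ) : ∃ c, q ^ ℓ ^ i - 1 = (q - 1) * ℓ ^ i * c := by
  have hq1 : 1 ≤ q := by rcases hA with h | h <;> omega
  induction i with
  | zero => exact ⟨1, by simp⟩
  | succ i ih =>
    obtain ⟨c, hc⟩ := ih
    obtain ⟨v, hv, -⟩ := (hA.pow (ℓ ^ i)).geom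
    refine ⟨c * v, ?_⟩
    have hstep : q ^ ℓ ^ (i + 1) - 1 = (q ^ ℓ ^ i - 1) * ∑ r ∈ Finset.range ℓ, (q ^ ℓ ^ i) ^ r := by
      rw [← pow_sub_one_geom _ _ (Nat.one_le_pow _ _ hq1), ← pow_mul, pow_succ]
    rw [hstep, hv, hc]
    ring

/-- `1 + q + ... + q^(n-1)` modulo `r` if `q = 1` modulo `r` -/
lemma geom_mod {q r n : ℕ} (h : q ≡ 1 [MOD r]) : ∑ i ∈ range n, q ^ i ≡ n [MOD r] := by
  induction n with
  | zero => rfl
  | succ n ih =>
    rw [Finset.sum_range_succ]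
    have h1 := h.pow n
    rw [one_pow] at h1
    exact ih.add h1

lemma sum_group {k : Type*} [AddCommMonoid k] (f : ℕ → k) (A B : ℕ) :
    ∑ j ∈ range (A * B), f j = ∑ r ∈ range A, ∑ i ∈ range B, f (r + A * i) := by
  induction B with
  | zero => simp
  | succ B ih =>
    rw [Nat.mul_succ, Finset.sum_range_add, ih, ← Finset.sum_add_distrib]
    refine Finset.sum_congr rfl fun r _ => ?_
    rw [Finset.sum_range_succ, add_comm (A * B) r]

section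
variable {k : Type*} [Field k]

/-- one step: the prime `ℓ` with the exponents of `ℓ'` removed first -/
lemma trace_pair {ℓ ℓ' q R : ℕ} (hA : Adm ℓ q) (hA' : Adm ℓ' q) (hℓ : ℓ'.Coprime ℓ) (z : k) (hz : z ≠ 0)
    (h1 : (z ^ (q - 1)) ^ ℓ' ^ R ≠ 1) (hR : (z ^ (q - 1)) ^ (ℓ ^ R * ℓ' ^ R) = 1) :
    ∑ j ∈ Finset.range (ℓ' ^ R * ℓ ^ R), z ^ q ^ j = 0 := by
  have hq1 : 1 ≤ q := by rcases hA with h | h <;> omega
  have hℓp := hA.prime
  have hℓp' := hA'.prime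
  set Q := q ^ ℓ' ^ R with hQ
  have hQ1 : 1 ≤ Q := Nat.one_le_pow _ _ hq1
  have hAQ : Adm ℓ Q := hA.pow _
  obtain ⟨c, hc⟩ := adm_div hA' R
  -- `c` is prime to `ℓ`
  have hcc : c.Coprime ℓ := by
    have h2 : (q - 1) * ∑ i ∈ range (ℓ' ^ R), q ^ i = (q - 1) * (ℓ' ^ R * c) := by
      rw [← pow_sub_one_geom q (ℓ' ^ R) hq1, hc]
      ring
    rcases Nat.eq_or_lt_of_le hq1 with h3 | h3
    · exfalso
      rw [← h3] at hA
      apply h1
      rw [← h3]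
      simp
    · have h4 : ∑ i ∈ range (ℓ' ^ R), q ^ i = ℓ' ^ R * c := Nat.eq_of_mul_eq_mul_left (by omega) h2
      have h5 : q ≡ 1 [MOD ℓ] := by
        obtain ⟨u, hu⟩ := hA.mod
        rw [hu, Nat.ModEq, Nat.add_mul_mod_self_left]
      have h6 := geom_mod (n := ℓ' ^ R) h5
      rw [h4] at h6
      have h7 : (ℓ' ^ R * c).Coprime ℓ := by
        have h8 : (ℓ' ^ R).Coprime ℓ := hℓ.pow_left R
        rw [Nat.Coprime, Nat.ModEq.gcd_eq h6]
        exact h8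
      exact Nat.Coprime.coprime_mul_left h7
  set w := z ^ (q - 1) with hw
  set w₁ := w ^ ℓ' ^ R with hw₁
  have hw₁R : w₁ ^ ℓ ^ R = 1 := by
    rw [hw₁, ← pow_mul, mul_comm]
    exact hR
  have hzQ : z ^ (Q - 1) = w₁ ^ c := by
    rw [hQ, hc, hw₁, hw, ← pow_mul, ← pow_mul, mul_assoc]
  -- powers prime to `ℓ`
  have hne : ∀ e : ℕ, e.Coprime ℓ → w₁ ^ e ≠ 1 := by
    intro e he h2
    apply h1
    have h3 : orderOf w₁ ∣ 1 := by
      have h4 : Nat.Coprime e (ℓ ^ R) := he.pow_right R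
      rw [← h4]
      exact Nat.dvd_gcd (orderOf_dvd_of_pow_eq_one h2) (orderOf_dvd_of_pow_eq_one hw₁R)
    exact orderOf_eq_one_iff.1 (Nat.dvd_one.1 h3)
  have hqℓ : q.Coprime ℓ := by
    obtain ⟨u, hu⟩ := hA.mod
    rw [hu]
    simp [Nat.coprime_add_mul_left_left]
  -- grouping
  rw [sum_group]
  refine Finset.sum_eq_zero fun r _ => ?_
  have h9 : ∀ i, z ^ q ^ (r + ℓ' ^ R * i) = (z ^ q ^ r) ^ Q ^ i := by
    intro i
    rw [← pow_mul, hQ, ← pow_mul, ← pow_add]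
  simp only [h9]
  have hzr : (z ^ q ^ r) ^ (Q - 1) = w₁ ^ (c * q ^ r) := by
    rw [← pow_mul, mul_comm, pow_mul, hzQ, ← pow_mul]
  refine trace_zero hAQ _ (pow_ne_zero _ hz) ?_ ?_
  · rw [hzr]
    exact hne _ (hcc.mul_left (hqℓ.pow_left r))
  · rw [hzr, ← pow_mul, mul_comm, pow_mul, hw₁R, one_pow]

/-- the trace of `z` vanishes if `z^(q-1)` is not `1` and has order dividing a power of `6` -/
theorem trace_zero2 {q R : ℕ} (hA2 : Adm 2 q) (hA3 : Adm 3 q) (z : k) (hz : z ≠ 0)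
    (h1 : z ^ (q - 1) ≠ 1) (hR : (z ^ (q - 1)) ^ (2 ^ R * 3 ^ R) = 1) :
    ∑ j ∈ Finset.range (2 ^ R * 3 ^ R), z ^ q ^ j = 0 := by
  by_cases h3 : (z ^ (q - 1)) ^ 3 ^ R = 1
  · have h2 : (z ^ (q - 1)) ^ 2 ^ R ≠ 1 := by
      intro h2
      apply h1
      have h4 : orderOf (z ^ (q - 1)) ∣ 1 := by
        have h5 : Nat.gcd (2 ^ R) (3 ^ R) = 1 := Nat.Coprime.pow _ _ (by norm_num)
        have h6 := Nat.dvd_gcd (orderOf_dvd_of_pow_eq_one h2) (orderOf_dvd_of_pow_eq_one h3)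
        rwa [h5] at h6
      exact orderOf_eq_one_iff.1 (Nat.dvd_one.1 h4)
    exact trace_pair hA3 hA2 (by norm_num) z hz h2 (by rw [mul_comm]; exact hR)
  · have := trace_pair hA2 hA3 (by norm_num) z hz h3 hR
    rw [mul_comm] at this
    exact this

end

end Pool.Agent.H178.GC
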