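import Pool.Agent.H178.GC.Class2

/-!
# The relation between two classes
-/

set_option autoImplicit false

namespace Pool.Agent.H178.GC

open Finset Pool.Agent.Y18.GX

lemma mod_iff_dvd {M c x : ℕ} (hc : c < M) : x % M = c ↔ (M : ℤ) ∣ (x : ℤ) - c := by
  constructor
  · intro h
    have h1 := Nat.mod_add_div x M
    rw [h] at h1
    refine ⟨(x / M : ℕ), ?_⟩
    have h2 : (x : ℤ) = ((c + M * (x / M) : ℕ) : ℤ) := by exact_mod_cast h1.symm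
    rw [h2]
    push_cast
    ring
  · intro h
    have h1 : c ≡ x [MOD M] := Nat.modEq_iff_dvd.2 h
    rw [Nat.ModEq, Nat.mod_eq_of_lt hc] at h1
    exact h1.symm

lemma mod_iff_dvd' {M c x : ℕ} (hc0 : 0 < c) (hc : c < M) : x % M = M - c ↔ (M : ℤ) ∣ (x : ℤ) + c := by
  rw [mod_iff_dvd (show M - c < M by omega), Nat.cast_sub hc.le]
  have h1 : (x : ℤ) - ((M : ℤ) - c) = (x + c) - M := by ring
  rw [h1]
  exact dvd_sub_self_right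

lemma sq_mod {c : ℕ} (hc : c.Coprime 6) : c ^ 2 ≡ 1 [MOD 24] := by
  have h2 : ¬ 2 ∣ c := fun h => by
    have := Nat.dvd_gcd h (show 2 ∣ 6 by norm_num)
    rw [hc] at this
    omega
  have h3 : ¬ 3 ∣ c := fun h => by
    have := Nat.dvd_gcd h (show 3 ∣ 6 by norm_num)
    rw [hc] at this
    omega
  have h4 : c % 24 = 1 ∨ c % 24 = 5 ∨ c % 24 = 7 ∨ c % 24 = 11 ∨ c % 24 = 13 ∨ c % 24 = 17 ∨ c % 24 = 19 ∨
    c % 24 = 23 := by omega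
  have h5 : c ^ 2 ≡ (c % 24) ^ 2 [MOD 24] := (Nat.mod_modEq c 24).symm.pow 2
  refine h5.trans ?_
  rcases h4 with h | h | h | h | h | h | h | h <;> rw [h] <;> decide

section
variable {k : Type*} [Field k]

lemma chi_add {N M c t : ℕ} (hN : N = 24 * M) (h24 : 24 ∣ M) (χ : MulChar (ZMod N) k) (hc : c.Coprime 6) :
    χ ((c + M * t : ℕ) : ZMod N) = χ (c : ZMod N) * χ ((1 + M : ℕ) : ZMod N) ^ (c * t) := by
  have h0 : (24 : ZMod N) * (M : ZMod N) = 0 := by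
    have := ZMod.natCast_self N
    conv at this => lhs; arg 1; rw [hN]
    push_cast at this
    exact this
  have hM2 : (M : ZMod N) ^ 2 = 0 := by
    obtain ⟨w, hw⟩ := h24
    have : (M : ZMod N) = 24 * w := by
      conv_lhs => rw [hw]
      push_cast
      ring
    rw [sq]
    nth_rewrite 1 [this]
    linear_combination (w : ZMod N) * h0
  rw [← map_pow, ← map_mul]
  congr 1
  have h1 := one_add_pow_of_sq (M : ZMod N) hM2 (c * t)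
  obtain ⟨y, hy⟩ : ∃ y : ℤ, (c : ℤ) ^ 2 = 1 + 24 * y := by
    obtain ⟨y, hy⟩ := Nat.modEq_iff_dvd.1 (sq_mod hc).symm
    exact ⟨y, by push_cast at hy; linarith⟩
  have h2 : (c : ZMod N) ^ 2 = 1 + 24 * (y : ZMod N) := by
    have := congrArg (fun z : ℤ => (z : ZMod N)) hy
    push_cast at this
    exact this
  push_cast at h1 ⊢
  rw [h1]
  linear_combination (-(M : ZMod N) * t) * h2 - ((t : ZMod N) * y) * h0

end

section
variable {k : Type*} [Field k] {p : ℕ} [Fact p.Prime] [CharP k p]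

/-- the data of a character modulo `2^a 3^b` -/
structure Dat (a b m : ℕ) (χ : MulChar (ZMod (2 ^ a * 3 ^ b)) k) : Prop where
  ha : 6 ≤ a
  hb : 2 ≤ b
  h2 : χ ((1 + 2 ^ (a - 1) * 3 ^ b : ℕ) : ZMod (2 ^ a * 3 ^ b)) ≠ 1
  h3 : χ ((1 + 2 ^ a * 3 ^ (b - 1) : ℕ) : ZMod (2 ^ a * 3 ^ b)) ≠ 1
  hpar : χ (-1) = (-1) ^ m

lemma cop23 (a b : ℕ) : (2 ^ a).Coprime (3 ^ b) := Nat.Coprime.pow _ _ (by norm_num)

lemma Dat.prim2 {a b m : ℕ} {χ : MulChar (ZMod (2 ^ a * 3 ^ b)) k} (D : Dat a b m χ) :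
    c1 (cop23 a b) χ ((1 + 2 ^ (a - 1) : ℕ) : ZMod (2 ^ a)) ≠ 1 := by
  intro h
  apply D.h2
  have ha := D.ha
  rw [cc_nat (cop23 a b) χ]
  have h1 := psi_one_add (ℓ := 2) (K := a) (n := 1) (c1 (cop23 a b) χ) (by omega) (3 ^ b)
  rw [h1, h, one_pow, one_mul]
  have h2 : ((1 + 2 ^ (a - 1) * 3 ^ b : ℕ) : ZMod (3 ^ b)) = 1 := by
    have := ZMod.natCast_self (3 ^ b)
    push_cast at this ⊢
    rw [this]
    ring
  rw [h2, map_one]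

lemma Dat.prim3 {a b m : ℕ} {χ : MulChar (ZMod (2 ^ a * 3 ^ b)) k} (D : Dat a b m χ) :
    c2 (cop23 a b) χ ((1 + 3 ^ (b - 1) : ℕ) : ZMod (3 ^ b)) ≠ 1 := by
  intro h
  apply D.h3
  have hb := D.hb
  rw [cc_nat (cop23 a b) χ]
  have h1 := psi_one_add (ℓ := 3) (K := b) (n := 1) (c2 (cop23 a b) χ) (by omega) (2 ^ a)
  have e : 1 + 2 ^ a * 3 ^ (b - 1) = 1 + 3 ^ (b - 1) * 2 ^ a := by ring
  have h2 : ((1 + 2 ^ a * 3 ^ (b - 1) : ℕ) : ZMod (2 ^ a)) = 1 := by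
    have := ZMod.natCast_self (2 ^ a)
    push_cast at this ⊢
    rw [this]
    ring
  rw [h2, map_one, one_mul, e, h1, h, one_pow]

lemma Dat.M24 {a b m : ℕ} {χ : MulChar (ZMod (2 ^ a * 3 ^ b)) k} (D : Dat a b m χ) :
    24 ∣ 2 ^ (a - 3) * 3 ^ (b - 1) := by
  have ha := D.ha
  have hb := D.hb
  have h1 : 2 ^ 3 ∣ 2 ^ (a - 3) := pow_dvd_pow _ (by omega)
  have h2 : 3 ^ 1 ∣ 3 ^ (b - 1) := pow_dvd_pow _ (by omega)
  have := Nat.mul_dvd_mul h1 h2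
  norm_num at this
  exact this

lemma Dat.N24 {a b m : ℕ} {χ : MulChar (ZMod (2 ^ a * 3 ^ b)) k} (D : Dat a b m χ) :
    2 ^ a * 3 ^ b = 24 * (2 ^ (a - 3) * 3 ^ (b - 1)) := by
  have ha := D.ha
  have hb := D.hb
  obtain ⟨a', rfl⟩ : ∃ a', a = a' + 3 := ⟨a - 3, by omega⟩
  obtain ⟨b', rfl⟩ : ∃ b', b = b' + 1 := ⟨b - 1, by omega⟩
  simp only [Nat.add_sub_cancel]
  ring

lemma Dat.xi24 {a b m : ℕ} {χ : MulChar (ZMod (2 ^ a * 3 ^ b)) k} (D : Dat a b m χ) :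
    χ ((1 + 2 ^ (a - 3) * 3 ^ (b - 1) : ℕ) : ZMod (2 ^ a * 3 ^ b)) ^ 24 = 1 := by
  have h := chi_add (c := 1) (t := 24) D.N24 D.M24 χ (by norm_num)
  rw [Nat.cast_one, map_one, one_mul, one_mul] at h
  rw [← h]
  have : 1 + 2 ^ (a - 3) * 3 ^ (b - 1) * 24 = 1 + 2 ^ a * 3 ^ b := by
    rw [D.N24]
    ring
  rw [this]
  have h2 := ZMod.natCast_self (2 ^ a * 3 ^ b)
  rw [Nat.cast_add, h2, add_zero, Nat.cast_one, map_one]

lemma Dat.xi_ne {a b m : ℕ} {χ : MulChar (ZMod (2 ^ a * 3 ^ b)) k} (D : Dat a b m χ) {c : ℕ} (hc : c.Coprime 6) :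
    χ ((1 + 2 ^ (a - 3) * 3 ^ (b - 1) : ℕ) : ZMod (2 ^ a * 3 ^ b)) ^ c ≠ 1 := by
  intro h1
  set ξ := χ ((1 + 2 ^ (a - 3) * 3 ^ (b - 1) : ℕ) : ZMod (2 ^ a * 3 ^ b)) with hξ
  have h24 : ξ ^ 24 = 1 := D.xi24
  have hξ1 : ξ = 1 := by
    have h4 : orderOf ξ ∣ 1 := by
      have h5 : Nat.gcd c 24 = 1 := by
        have : c.Coprime (6 * 6 * 6) := (hc.mul_right hc).mul_right hc
        exact Nat.Coprime.coprime_dvd_right (by norm_num) this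
      have h6 := Nat.dvd_gcd (orderOf_dvd_of_pow_eq_one h1) (orderOf_dvd_of_pow_eq_one h24)
      rwa [h5] at h6
    exact orderOf_eq_one_iff.1 (Nat.dvd_one.1 h4)
  apply D.h2
  have h := chi_add (c := 1) (t := 12) D.N24 D.M24 χ (by norm_num)
  rw [Nat.cast_one, map_one, one_mul, ← hξ, hξ1, one_pow] at h
  have ha := D.ha
  have hb := D.hb
  have : 1 + 2 ^ (a - 1) * 3 ^ b = 1 + 2 ^ (a - 3) * 3 ^ (b - 1) * 12 := by
    obtain ⟨a', rfl⟩ : ∃ a', a = a' + 3 := ⟨a - 3, by omega⟩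
    obtain ⟨b', rfl⟩ : ∃ b', b = b' + 1 := ⟨b - 1, by omega⟩
    simp only [Nat.add_sub_cancel]
    have : a' + 3 - 1 = a' + 2 := by omega
    rw [this]
    ring
  rw [this]
  exact h

lemma Dat.class_E {a b m : ℕ} {χ : MulChar (ZMod (2 ^ a * 3 ^ b)) k} (D : Dat a b m χ) {c : ℕ} (hc : c.Coprime 6) :
    ∑ t ∈ range 24, χ ((c + 2 ^ (a - 3) * 3 ^ (b - 1) * t : ℕ) : ZMod (2 ^ a * 3 ^ b)) = 0 := by
  have h1 : ∀ t, χ ((c + 2 ^ (a - 3) * 3 ^ (b - 1) * t : ℕ) : ZMod (2 ^ a * 3 ^ b)) =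
      χ (c : ZMod (2 ^ a * 3 ^ b)) * (χ ((1 + 2 ^ (a - 3) * 3 ^ (b - 1) : ℕ) : ZMod (2 ^ a * 3 ^ b)) ^ c) ^ t := by
    intro t
    rw [chi_add D.N24 D.M24 χ hc, pow_mul]
  simp only [h1]
  rw [← Finset.mul_sum]
  set η := χ ((1 + 2 ^ (a - 3) * 3 ^ (b - 1) : ℕ) : ZMod (2 ^ a * 3 ^ b)) ^ c with hη
  have h2 : η ^ 24 = 1 := by
    rw [hη, ← pow_mul, mul_comm c 24, pow_mul, D.xi24, one_pow]
  have h3 : (∑ t ∈ range 24, η ^ t) * (η - 1) = 0 := by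
    rw [geom_sum_mul, h2, sub_self]
  rcases mul_eq_zero.1 h3 with h4 | h4
  · rw [h4, mul_zero]
  · exact absurd (sub_eq_zero.1 h4) (D.xi_ne hc)

end

end Pool.Agent.H178.GC
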