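import Pool.Agent.H178.GC.Two

/-!
# The relation between two classes, continued
-/

set_option autoImplicit false

namespace Pool.Agent.H178.GC

open Finset Pool.Agent.Y18.GX

section
variable {k : Type*} [Field k] {p : ℕ} [Fact p.Prime] [CharP k p]

/-- the sum over the class of `c` -/
noncomputable def TT (a b m : ℕ) (χ : MulChar (ZMod (2 ^ a * 3 ^ b)) k) (c : ℕ) : k :=
  ∑ t ∈ range 24, χ ((c + 2 ^ (a - 3) * 3 ^ (b - 1) * t : ℕ) : ZMod (2 ^ a * 3 ^ b)) *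
    Polynomial.aeval (((c + 2 ^ (a - 3) * 3 ^ (b - 1) * t : ℕ) : k) / (2 ^ a * 3 ^ b : ℕ)) (FF m)

/-- the values of the character have order dividing a power of `6` -/
lemma two_part {a : ℕ} (ha : 1 ≤ a) (ψ : MulChar (ZMod (2 ^ a)) k) {x : ℕ} (hx : x.Coprime 2) :
    ψ (x : ZMod (2 ^ a)) ^ 2 ^ a = 1 := by
  have hu : IsUnit (x : ZMod (2 ^ a)) := (ZMod.isUnit_iff_coprime x (2 ^ a)).2 (hx.pow_right a)
  obtain ⟨U, hU⟩ := hu
  rw [← map_pow, ← hU, ← Units.val_pow_eq_pow_val]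
  have h2 := ZMod.pow_totient U
  rw [Nat.totient_prime_pow Nat.prime_two (by omega)] at h2
  have h3 : 2 ^ a = 2 ^ (a - 1) * (2 - 1) * 2 := by
    rw [show 2 - 1 = 1 from rfl, mul_one, ← pow_succ]
    congr 1
    omega
  have h4 : U ^ 2 ^ a = 1 := by
    have h5 : U ^ (2 ^ (a - 1) * (2 - 1) * 2) = 1 := by rw [pow_mul, h2, one_pow]
    exact (congrArg (fun e => U ^ e) h3).trans h5
  rw [h4, Units.val_one, map_one]

lemma three_part {b q : ℕ} (hb : 1 ≤ b) (hq : Even q) (ψ : MulChar (ZMod (3 ^ b)) k) {x : ℕ} (hx : x.Coprime 3) :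
    (ψ (x : ZMod (3 ^ b)) ^ q) ^ 3 ^ b = 1 := by
  have hu : IsUnit (x : ZMod (3 ^ b)) := (ZMod.isUnit_iff_coprime x (3 ^ b)).2 (hx.pow_right b)
  obtain ⟨U, hU⟩ := hu
  rw [← pow_mul, ← map_pow, ← hU, ← Units.val_pow_eq_pow_val]
  have h2 := ZMod.pow_totient U
  rw [Nat.totient_prime_pow Nat.prime_three (by omega)] at h2
  obtain ⟨w, hw⟩ := hq
  have : q * 3 ^ b = 3 ^ (b - 1) * (3 - 1) * (w * 3) := by
    have h3 : 3 ^ b = 3 ^ (b - 1) * 3 := by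
      rw [← pow_succ]
      congr 1
      omega
    rw [h3, hw]
    ring
  rw [this, pow_mul, h2, one_pow, Units.val_one, map_one]

lemma one_of_two {A B : k} {r s : ℕ} (hAB : A * B = 1) (hA : A ^ 2 ^ r = 1) (hB : B ^ 3 ^ s = 1) :
    A = 1 ∧ B = 1 := by
  have h1 : A ^ 3 ^ s = 1 := by
    have := congrArg (fun z => z ^ 3 ^ s) hAB
    simp only [mul_pow, hB, mul_one, one_pow] at this
    exact this
  have h2 : A = 1 := by
    have h5 : Nat.gcd (2 ^ r) (3 ^ s) = 1 := Nat.Coprime.pow _ _ (by norm_num)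
    have h6 := Nat.dvd_gcd (orderOf_dvd_of_pow_eq_one hA) (orderOf_dvd_of_pow_eq_one h1)
    rw [h5] at h6
    exact orderOf_eq_one_iff.1 (Nat.dvd_one.1 h6)
  rw [h2, one_mul] at hAB
  exact ⟨h2, hAB⟩

/-- the sum over the classes where `χ / χ(c)` is a root of unity of order dividing `q - 1` -/
theorem four_class {a b m u : ℕ} {χ : MulChar (ZMod (2 ^ a * 3 ^ b)) k} (D : Dat a b m χ)
    (hq : p ^ 2 - 1 = 24 * u) (hu : u.Coprime 6)
    (hS : ∑ x ∈ range (2 ^ a * 3 ^ b), χ (x : ZMod (2 ^ a * 3 ^ b)) *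
      Polynomial.aeval ((x : k) / (2 ^ a * 3 ^ b : ℕ)) (FF m) = 0)
    {c : ℕ} (hc : c.Coprime 6) :
    ∑ x ∈ range (2 ^ a * 3 ^ b),
      (if ((((2 ^ (a - 3) : ℕ) : ℤ) ∣ (x : ℤ) - c ∨ ((2 ^ (a - 3) : ℕ) : ℤ) ∣ (x : ℤ) + c) ∧
        (((3 ^ (b - 1) : ℕ) : ℤ) ∣ (x : ℤ) - c ∨ ((3 ^ (b - 1) : ℕ) : ℤ) ∣ (x : ℤ) + c))
      then χ (x : ZMod (2 ^ a * 3 ^ b)) * Polynomial.aeval ((x : k) / (2 ^ a * 3 ^ b : ℕ)) (FF m) else 0) = 0 := by
  have hp := (Fact.out : p.Prime)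
  have ha := D.ha
  have hb := D.hb
  have hN0 : 2 ^ a * 3 ^ b ≠ 0 := by positivity
  have hp1 : 1 ≤ p := hp.pos
  have hq1 : 1 ≤ p ^ 2 := Nat.one_le_pow _ _ hp.pos
  have hq24 : p ^ 2 = 24 * u + 1 := by omega
  have hA2 : Adm 2 (p ^ 2) := Or.inr ⟨rfl, by omega⟩
  have hA3 : Adm 3 (p ^ 2) := Or.inl ⟨rfl, by omega⟩
  have heven : Even (p ^ 2 - 1) := by
    rw [hq]
    exact ⟨12 * u, by ring⟩
  have hp6 : ¬ p ∣ 6 := by
    intro h
    have h1 : p ∣ p ^ 2 := dvd_pow_self p (by norm_num)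
    have h2 : p ∣ 24 * u := (h.mul_right (4 * u)).trans ⟨1, by ring⟩
    rw [hq24] at h1
    exact hp.one_lt.ne' (Nat.dvd_one.1 ((Nat.dvd_add_right h2).1 h1))
  have h6k : ((6 : ℕ) : k) ≠ 0 := fun h => hp6 ((CharP.cast_eq_zero_iff k p 6).1 h)
  have h2k : (2 : k) ≠ 0 := by
    intro h
    apply h6k
    push_cast
    linear_combination 3 * h
  have h3k : (3 : k) ≠ 0 := by
    intro h
    apply h6k
    push_cast
    linear_combination 2 * h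
  set ψ₂ := c1 (cop23 a b) χ with hψ₂
  set ψ₃ := c2 (cop23 a b) χ with hψ₃
  -- Frobenius
  have hSj : ∀ j, ∑ x ∈ range (2 ^ a * 3 ^ b), χ (x : ZMod (2 ^ a * 3 ^ b)) ^ (p ^ 2) ^ j *
      Polynomial.aeval ((x : k) / (2 ^ a * 3 ^ b : ℕ)) (FF m) = 0 := by
    intro j
    have h1 := congrArg (iterateFrobenius k p (2 * j)) hS
    rw [map_zero, map_sum] at h1
    rw [← h1]
    refine Finset.sum_congr rfl fun x _ => ?_
    rw [iterateFrobenius_def, mul_pow, frob_fix, pow_mul]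
  -- the inverse of `c`
  have hcN : c.Coprime (2 ^ a * 3 ^ b) := by
    have h2 : c.Coprime 2 := Nat.Coprime.coprime_dvd_right (by norm_num) hc
    have h3 : c.Coprime 3 := Nat.Coprime.coprime_dvd_right (by norm_num) hc
    exact (h2.pow_right a).mul_right (h3.pow_right b)
  obtain ⟨c', hc'⟩ : ∃ c' : ℕ, (c : ZMod (2 ^ a * 3 ^ b)) * c' = 1 := by
    have : NeZero (2 ^ a * 3 ^ b) := ⟨hN0⟩
    refine ⟨((c : ZMod (2 ^ a * 3 ^ b))⁻¹).val, ?_⟩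
    rw [ZMod.natCast_val, ZMod.cast_id', id_eq]
    exact ZMod.coe_mul_inv_eq_one c hcN
  have hc'c : (c' : ZMod (2 ^ a * 3 ^ b)) * c = 1 := (mul_comm _ _).trans hc'
  have hcc : c * c' ≡ 1 [MOD 2 ^ a * 3 ^ b] := by
    rw [← ZMod.natCast_eq_natCast_iff]
    push_cast
    exact hc'
  have hcc2 : ((c * c' : ℕ) : ZMod (2 ^ a)) = 1 := by
    have := (ZMod.natCast_eq_natCast_iff (c * c') 1 (2 ^ a)).2 (hcc.of_dvd (dvd_mul_right _ _))
    rw [this, Nat.cast_one]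
  have hcc3 : ((c * c' : ℕ) : ZMod (3 ^ b)) = 1 := by
    have := (ZMod.natCast_eq_natCast_iff (c * c') 1 (3 ^ b)).2 (hcc.of_dvd (dvd_mul_left _ _))
    rw [this, Nat.cast_one]
  set γ := χ (c : ZMod (2 ^ a * 3 ^ b)) with hγ
  have hγ' : χ (c' : ZMod (2 ^ a * 3 ^ b)) = γ⁻¹ := by
    apply eq_inv_of_mul_eq_one_left
    rw [hγ, ← map_mul, hc'c, map_one]
  have hγ0 : γ ≠ 0 := (((ZMod.isUnit_iff_coprime c (2 ^ a * 3 ^ b)).2 hcN).map χ).ne_zero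
  have hc'N : c'.Coprime (2 ^ a * 3 ^ b) := by
    rw [← ZMod.isUnit_iff_coprime]
    exact IsUnit.of_mul_eq_one (c : ZMod (2 ^ a * 3 ^ b)) hc'c
  have hc'2 : c'.Coprime 2 := Nat.Coprime.coprime_dvd_right ((dvd_pow_self 2 (by omega)).trans (dvd_mul_right _ _)) hc'N
  have hc'3 : c'.Coprime 3 := Nat.Coprime.coprime_dvd_right ((dvd_pow_self 3 (by omega)).trans (dvd_mul_left _ _)) hc'N
  set R := a + b with hR
  -- the traces
  have hT : ∀ x : ℕ, ∑ j ∈ range (2 ^ R * 3 ^ R), (χ (x : ZMod (2 ^ a * 3 ^ b)) * γ⁻¹) ^ (p ^ 2) ^ j =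
      if ((((2 ^ (a - 3) : ℕ) : ℤ) ∣ (x : ℤ) - c ∨ ((2 ^ (a - 3) : ℕ) : ℤ) ∣ (x : ℤ) + c) ∧
        (((3 ^ (b - 1) : ℕ) : ℤ) ∣ (x : ℤ) - c ∨ ((3 ^ (b - 1) : ℕ) : ℤ) ∣ (x : ℤ) + c))
      then (2 ^ R * 3 ^ R : ℕ) * (χ (x : ZMod (2 ^ a * 3 ^ b)) * γ⁻¹) else 0 := by
    intro x
    by_cases hx : x.Coprime (2 ^ a * 3 ^ b)
    · have hx2 : x.Coprime 2 := Nat.Coprime.coprime_dvd_right ((dvd_pow_self 2 (by omega)).trans (dvd_mul_right _ _)) hx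
      have hx3 : x.Coprime 3 := Nat.Coprime.coprime_dvd_right ((dvd_pow_self 3 (by omega)).trans (dvd_mul_left _ _)) hx
      have hz : χ (x : ZMod (2 ^ a * 3 ^ b)) * γ⁻¹ = ψ₂ ((x * c' : ℕ) : ZMod (2 ^ a)) * ψ₃ ((x * c' : ℕ) : ZMod (3 ^ b)) := by
        rw [← hγ', ← map_mul, hψ₂, hψ₃, ← cc_nat (cop23 a b) χ]
        push_cast
        rfl
      have hz0 : χ (x : ZMod (2 ^ a * 3 ^ b)) * γ⁻¹ ≠ 0 :=
        mul_ne_zero (((ZMod.isUnit_iff_coprime x (2 ^ a * 3 ^ b)).2 hx).map χ).ne_zero (inv_ne_zero hγ0)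
      have i2 := ker_iff (n := 3) (u := 3 * u) ψ₂ hA2 (by omega) (by norm_num) D.prim2 (by rw [hq]; ring)
        (by
          refine Nat.Coprime.mul_left (by norm_num) ?_
          exact Nat.Coprime.coprime_dvd_right (by norm_num) hu) heven hcc2 hx2
      have i3 := ker_iff (n := 1) (u := 8 * u) ψ₃ hA3 (by omega) (by norm_num) D.prim3 (by rw [hq]; ring)
        (by
          refine Nat.Coprime.mul_left (by norm_num) ?_
          exact Nat.Coprime.coprime_dvd_right (by norm_num) hu) heven hcc3 hx3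
      set A := ψ₂ ((x * c' : ℕ) : ZMod (2 ^ a)) with hA
      set B := ψ₃ ((x * c' : ℕ) : ZMod (3 ^ b)) with hB
      have hA1 : (A ^ (p ^ 2 - 1)) ^ 2 ^ a = 1 := by
        rw [← pow_mul, mul_comm, pow_mul, hA, two_part (by omega) ψ₂ (hx2.mul_left hc'2), one_pow]
      have hB1 : (B ^ (p ^ 2 - 1)) ^ 3 ^ b = 1 := three_part (by omega) heven ψ₃ (hx3.mul_left hc'3)
      rw [hz] at hz0 ⊢
      split_ifs with hcase
      · exact trace_one _ hq1 (by rw [mul_pow, i2.2 hcase.1, i3.2 hcase.2, one_mul])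
      · refine trace_zero2 hA2 hA3 _ hz0 ?_ ?_
        · intro h
          rw [mul_pow] at h
          have h' := one_of_two h hA1 hB1
          exact hcase ⟨i2.1 h'.1, i3.1 h'.2⟩
        · rw [mul_pow, mul_pow]
          have h1 : (A ^ (p ^ 2 - 1)) ^ (2 ^ R * 3 ^ R) = 1 := by
            rw [hR, pow_add 2 a b, mul_assoc, pow_mul, hA1, one_pow]
          have h2 : (B ^ (p ^ 2 - 1)) ^ (2 ^ R * 3 ^ R) = 1 := by
            rw [hR, pow_add 3 a b, show 2 ^ (a + b) * (3 ^ a * 3 ^ b) = 3 ^ b * (2 ^ (a + b) * 3 ^ a) by ring,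
              pow_mul, hB1, one_pow]
          rw [h1, h2, one_mul]
    · have h0 : χ (x : ZMod (2 ^ a * 3 ^ b)) = 0 := by
        apply χ.map_nonunit
        rwa [ZMod.isUnit_iff_coprime]
      rw [h0, zero_mul, mul_zero, ite_self]
      refine Finset.sum_eq_zero fun j _ => zero_pow ?_
      exact (Nat.pos_of_ne_zero (pow_ne_zero _ (by omega))).ne'
  have h1 : ∑ j ∈ range (2 ^ R * 3 ^ R), (γ⁻¹) ^ (p ^ 2) ^ j * ∑ x ∈ range (2 ^ a * 3 ^ b),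
      χ (x : ZMod (2 ^ a * 3 ^ b)) ^ (p ^ 2) ^ j * Polynomial.aeval ((x : k) / (2 ^ a * 3 ^ b : ℕ)) (FF m) = 0 := by
    simp only [hSj, mul_zero, Finset.sum_const_zero]
  simp only [Finset.mul_sum] at h1
  rw [Finset.sum_comm] at h1
  have h2 : ∀ x ∈ range (2 ^ a * 3 ^ b), ∑ j ∈ range (2 ^ R * 3 ^ R), (γ⁻¹) ^ (p ^ 2) ^ j * (
      χ (x : ZMod (2 ^ a * 3 ^ b)) ^ (p ^ 2) ^ j * Polynomial.aeval ((x : k) / (2 ^ a * 3 ^ b : ℕ)) (FF m)) =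
      ((2 ^ R * 3 ^ R : ℕ) * γ⁻¹) *
      (if ((((2 ^ (a - 3) : ℕ) : ℤ) ∣ (x : ℤ) - c ∨ ((2 ^ (a - 3) : ℕ) : ℤ) ∣ (x : ℤ) + c) ∧
        (((3 ^ (b - 1) : ℕ) : ℤ) ∣ (x : ℤ) - c ∨ ((3 ^ (b - 1) : ℕ) : ℤ) ∣ (x : ℤ) + c))
      then χ (x : ZMod (2 ^ a * 3 ^ b)) * Polynomial.aeval ((x : k) / (2 ^ a * 3 ^ b : ℕ)) (FF m) else 0) := by
    intro x _
    have h4 : ∀ j, (γ⁻¹) ^ (p ^ 2) ^ j * (χ (x : ZMod (2 ^ a * 3 ^ b)) ^ (p ^ 2) ^ j *
        Polynomial.aeval ((x : k) / (2 ^ a * 3 ^ b : ℕ)) (FF m)) =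
        Polynomial.aeval ((x : k) / (2 ^ a * 3 ^ b : ℕ)) (FF m) * (χ (x : ZMod (2 ^ a * 3 ^ b)) * γ⁻¹) ^ (p ^ 2) ^ j := by
      intro j
      rw [mul_pow]
      ring
    simp only [h4]
    rw [← Finset.mul_sum, hT]
    split_ifs
    · ring
    · ring
  rw [Finset.sum_congr rfl h2, ← Finset.mul_sum] at h1
  rcases mul_eq_zero.1 h1 with h4 | h4
  · exfalso
    rcases mul_eq_zero.1 h4 with h5 | h5
    · push_cast at h5
      exact mul_ne_zero (pow_ne_zero _ h2k) (pow_ne_zero _ h3k) h5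
    · exact inv_ne_zero hγ0 h5
  · exact h4

end

end Pool.Agent.H178.GC
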