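import Pool.Agent.H178.GC.Two2

/-!
# The relation between two classes, conclusion
-/

set_option autoImplicit false

namespace Pool.Agent.H178.GC

open Finset Pool.Agent.Y18.GX

/-- the relation between the two classes -/
def Rel (a b c₁ c₂ : ℕ) : Prop :=
  ((((2 ^ (a - 3) : ℕ) : ℤ) ∣ (c₂ : ℤ) - c₁ ∧ ((3 ^ (b - 1) : ℕ) : ℤ) ∣ (c₂ : ℤ) + c₁) ∨
    (((2 ^ (a - 3) : ℕ) : ℤ) ∣ (c₂ : ℤ) + c₁ ∧ ((3 ^ (b - 1) : ℕ) : ℤ) ∣ (c₂ : ℤ) - c₁))

lemma dvd_congr_sub {M x c₁ c₂ : ℤ} (h : M ∣ c₂ - c₁) : M ∣ x - c₂ ↔ M ∣ x - c₁ := by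
  have : x - c₁ = (x - c₂) + (c₂ - c₁) := by ring
  rw [this]
  exact (dvd_add_left h).symm

lemma dvd_congr_add {M x c₁ c₂ : ℤ} (h : M ∣ c₂ - c₁) : M ∣ x + c₂ ↔ M ∣ x + c₁ := by
  have : x + c₂ = (x + c₁) + (c₂ - c₁) := by ring
  rw [this]
  exact dvd_add_left h

lemma dvd_congr_sub' {M x c₁ c₂ : ℤ} (h : M ∣ c₂ + c₁) : M ∣ x - c₂ ↔ M ∣ x + c₁ := by
  have : x + c₁ = (x - c₂) + (c₂ + c₁) := by ring
  rw [this]
  exact (dvd_add_left h).symm

lemma dvd_congr_add' {M x c₁ c₂ : ℤ} (h : M ∣ c₂ + c₁) : M ∣ x + c₂ ↔ M ∣ x - c₁ := by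
  have : x + c₂ = (x - c₁) + (c₂ + c₁) := by ring
  rw [this]
  exact dvd_add_left h

/-- `M₂ M₃` divides if and only if both do -/
lemma dvd_both (A B : ℕ) (y : ℤ) :
    ((2 ^ A * 3 ^ B : ℕ) : ℤ) ∣ y ↔ ((2 ^ A : ℕ) : ℤ) ∣ y ∧ ((3 ^ B : ℕ) : ℤ) ∣ y := by
  constructor
  · intro h
    push_cast at h ⊢
    exact ⟨(dvd_mul_right _ _).trans h, (dvd_mul_left _ _).trans h⟩
  · rintro ⟨h1, h2⟩
    push_cast at h1 h2 ⊢
    refine IsCoprime.mul_dvd ?_ h1 h2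
    exact IsCoprime.pow (by
      rw [Int.isCoprime_iff_gcd_eq_one]
      rfl)

lemma not_two {A c : ℕ} (hA : 2 ≤ A) (hc : c.Coprime 6) : ¬ ((2 ^ A : ℕ) : ℤ) ∣ 2 * (c : ℤ) := by
  intro h
  have h1 : (4 : ℤ) ∣ 2 * (c : ℤ) := by
    refine dvd_trans ?_ h
    have : (4 : ℕ) ∣ 2 ^ A := pow_dvd_pow 2 hA
    exact_mod_cast this
  have h2 : ¬ 2 ∣ c := fun h => by
    have := Nat.dvd_gcd h (show 2 ∣ 6 by norm_num)
    rw [hc] at this
    omega
  omega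

lemma not_three {B c : ℕ} (hB : 1 ≤ B) (hc : c.Coprime 6) : ¬ ((3 ^ B : ℕ) : ℤ) ∣ 2 * (c : ℤ) := by
  intro h
  have h1 : (3 : ℤ) ∣ 2 * (c : ℤ) := by
    refine dvd_trans ?_ h
    have : (3 : ℕ) ∣ 3 ^ B := dvd_pow_self 3 (by omega)
    exact_mod_cast this
  have h2 : ¬ 3 ∣ c := fun h => by
    have := Nat.dvd_gcd h (show 3 ∣ 6 by norm_num)
    rw [hc] at this
    omega
  omega

section
variable {k : Type*} [Field k]

lemma ite_four {P A B C D : Prop} [Decidable P] [Decidable A] [Decidable B] [Decidable C] [Decidable D]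
    (h : P ↔ A ∨ B ∨ C ∨ D) (h1 : ¬ (A ∧ B)) (h2 : ¬ (A ∧ C)) (h3 : ¬ (A ∧ D)) (h4 : ¬ (B ∧ C)) (h5 : ¬ (B ∧ D))
    (h6 : ¬ (C ∧ D)) (v : k) :
    (if P then v else 0) = (if A then v else 0) + (if B then v else 0) + (if C then v else 0) + (if D then v else 0) := by
  by_cases hA : A
  · have hB : ¬ B := fun hB => h1 ⟨hA, hB⟩
    have hC : ¬ C := fun hC => h2 ⟨hA, hC⟩
    have hD : ¬ D := fun hD => h3 ⟨hA, hD⟩
    rw [if_pos (h.2 (Or.inl hA)), if_pos hA, if_neg hB, if_neg hC, if_neg hD]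
    ring
  · by_cases hB : B
    · have hC : ¬ C := fun hC => h4 ⟨hB, hC⟩
      have hD : ¬ D := fun hD => h5 ⟨hB, hD⟩
      rw [if_pos (h.2 (Or.inr (Or.inl hB))), if_neg hA, if_pos hB, if_neg hC, if_neg hD]
      ring
    · by_cases hC : C
      · have hD : ¬ D := fun hD => h6 ⟨hC, hD⟩
        rw [if_pos (h.2 (Or.inr (Or.inr (Or.inl hC)))), if_neg hA, if_neg hB, if_pos hC, if_neg hD]
        ring
      · by_cases hD : D
        · rw [if_pos (h.2 (Or.inr (Or.inr (Or.inr hD)))), if_neg hA, if_neg hB, if_neg hC, if_pos hD]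
          ring
        · rw [if_neg (by rw [h]; tauto), if_neg hA, if_neg hB, if_neg hC, if_neg hD]
          ring

end

section
variable {k : Type*} [Field k] {p : ℕ} [Fact p.Prime] [CharP k p]

lemma Dat.class_sum' {a b m : ℕ} {χ : MulChar (ZMod (2 ^ a * 3 ^ b)) k} (D : Dat a b m χ) (f : ℕ → k) {c : ℕ}
    (hc : c < 2 ^ (a - 3) * 3 ^ (b - 1)) :
    ∑ x ∈ range (2 ^ a * 3 ^ b), (if x % (2 ^ (a - 3) * 3 ^ (b - 1)) = c then f x else 0) =
      ∑ t ∈ range 24, f (c + 2 ^ (a - 3) * 3 ^ (b - 1) * t) := by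
  have h := class_sum (2 ^ (a - 3) * 3 ^ (b - 1)) 24 c hc f
  rw [← h]
  congr 2
  rw [D.N24]
  ring

theorem two_class {a b m u : ℕ} {χ : MulChar (ZMod (2 ^ a * 3 ^ b)) k} (D : Dat a b m χ)
    (hq : p ^ 2 - 1 = 24 * u) (hu : u.Coprime 6)
    (hS : ∑ x ∈ range (2 ^ a * 3 ^ b), χ (x : ZMod (2 ^ a * 3 ^ b)) *
      Polynomial.aeval ((x : k) / (2 ^ a * 3 ^ b : ℕ)) (FF m) = 0)
    {c₁ c₂ : ℕ} (hc₁ : c₁.Coprime 6) (hc₂ : c₂.Coprime 6)
    (hl₁ : c₁ < 2 ^ (a - 3) * 3 ^ (b - 1)) (hl₂ : c₂ < 2 ^ (a - 3) * 3 ^ (b - 1)) (hrel : Rel a b c₁ c₂) :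
    TT a b m χ c₁ + TT a b m χ c₂ = 0 := by
  have ha := D.ha
  have hb := D.hb
  have h4 := four_class (p := p) D hq hu hS hc₁
  have hp := (Fact.out : p.Prime)
  have hp1 : 1 ≤ p := hp.pos
  have hq1 : 1 ≤ p ^ 2 := Nat.one_le_pow _ _ hp.pos
  have hq24 : p ^ 2 = 24 * u + 1 := by omega
  have hp6 : ¬ p ∣ 6 := by
    intro h
    have h1 : p ∣ p ^ 2 := dvd_pow_self p (by norm_num)
    have h2 : p ∣ 24 * u := (h.mul_right (4 * u)).trans ⟨1, by ring⟩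
    rw [hq24] at h1
    exact hp.one_lt.ne' (Nat.dvd_one.1 ((Nat.dvd_add_right h2).1 h1))
  have h6k : ((6 : ℕ) : k) ≠ 0 := fun h => hp6 ((CharP.cast_eq_zero_iff k p 6).1 h)
  have h2k : (2 : k) ≠ 0 := by
    intro h
    apply h6k
    push_cast
    linear_combination 3 * h
  have h3k : (3 : k) ≠ 0 := by
    intro h
    apply h6k
    push_cast
    linear_combination 2 * h
  have hNk : ((2 ^ a * 3 ^ b : ℕ) : k) ≠ 0 := by
    push_cast
    exact mul_ne_zero (pow_ne_zero _ h2k) (pow_ne_zero _ h3k)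
  have h01 : 0 < c₁ := Nat.pos_of_ne_zero (by rintro rfl; norm_num at hc₁)
  have h02 : 0 < c₂ := Nat.pos_of_ne_zero (by rintro rfl; norm_num at hc₂)
  set M := 2 ^ (a - 3) * 3 ^ (b - 1) with hM
  have hMN : M ∣ 2 ^ a * 3 ^ b := ⟨24, by rw [D.N24, ← hM]; ring⟩
  set f : ℕ → k := fun x => χ (x : ZMod (2 ^ a * 3 ^ b)) * Polynomial.aeval ((x : k) / (2 ^ a * 3 ^ b : ℕ)) (FF m)
    with hf
  have hTT : ∀ c, c < M → TT a b m χ c = ∑ x ∈ range (2 ^ a * 3 ^ b), (if x % M = c then f x else 0) := by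
    intro c hc
    rw [hM, D.class_sum' f (by rw [← hM]; exact hc)]
    rfl
  have hE : ∀ c, c < M → c.Coprime 6 → ∑ x ∈ range (2 ^ a * 3 ^ b),
      (if x % M = c then χ (x : ZMod (2 ^ a * 3 ^ b)) else 0) = 0 := by
    intro c hc hc6
    rw [hM, D.class_sum' (fun x => χ (x : ZMod (2 ^ a * 3 ^ b))) (by rw [← hM]; exact hc)]
    exact D.class_E hc6
  have hrefl : ∀ c, 0 < c → c < M → c.Coprime 6 → ∑ x ∈ range (2 ^ a * 3 ^ b), (if x % M = M - c then f x else 0) =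
      ∑ x ∈ range (2 ^ a * 3 ^ b), (if x % M = c then f x else 0) := by
    intro c hc0 hc hc6
    exact refl_class hMN hc0 hc χ hNk (FF m) _ (fun x => FF_aeval_refl m x) D.hpar (hE c hc hc6)
  -- the four classes
  have hM2 := not_two (A := a - 3) (by omega) hc₁
  have hM2' := not_two (A := a - 3) (by omega) hc₂
  have hM3 := not_three (B := b - 1) (by omega) hc₁
  have hM3' := not_three (B := b - 1) (by omega) hc₂
  have hkey : ∀ x : ℕ, (if ((((2 ^ (a - 3) : ℕ) : ℤ) ∣ (x : ℤ) - c₁ ∨ ((2 ^ (a - 3) : ℕ) : ℤ) ∣ (x : ℤ) + c₁) ∧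
        (((3 ^ (b - 1) : ℕ) : ℤ) ∣ (x : ℤ) - c₁ ∨ ((3 ^ (b - 1) : ℕ) : ℤ) ∣ (x : ℤ) + c₁)) then f x else 0) =
      (if x % M = c₁ then f x else 0) + (if x % M = M - c₁ then f x else 0) +
      (if x % M = c₂ then f x else 0) + (if x % M = M - c₂ then f x else 0) := by
    intro x
    apply ite_four
    · rw [mod_iff_dvd hl₁, mod_iff_dvd' h01 hl₁, mod_iff_dvd hl₂, mod_iff_dvd' h02 hl₂, hM,
        dvd_both, dvd_both, dvd_both, dvd_both]
      rcases hrel with ⟨r1, r2⟩ | ⟨r1, r2⟩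
      · rw [dvd_congr_sub r1, dvd_congr_sub' r2, dvd_congr_add r1, dvd_congr_add' r2]
        tauto
      · rw [dvd_congr_sub' r1, dvd_congr_sub r2, dvd_congr_add' r1, dvd_congr_add r2]
        tauto
    · rintro ⟨h, h'⟩
      rw [mod_iff_dvd hl₁, hM, dvd_both] at h
      rw [mod_iff_dvd' h01 hl₁, hM, dvd_both] at h'
      apply hM2
      have := dvd_sub h'.1 h.1
      have e : (x : ℤ) + c₁ - (x - c₁) = 2 * c₁ := by ring
      rwa [e] at this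
    · rintro ⟨h, h'⟩
      rw [mod_iff_dvd hl₁, hM, dvd_both] at h
      rw [mod_iff_dvd hl₂, hM, dvd_both] at h'
      rcases hrel with ⟨r1, r2⟩ | ⟨r1, r2⟩
      · apply hM3
        have := dvd_add (dvd_sub h'.2 h.2) r2
        have e : (x : ℤ) - c₂ - (x - c₁) + (c₂ + c₁) = 2 * c₁ := by ring
        rwa [e] at this
      · apply hM2
        have := dvd_add (dvd_sub h'.1 h.1) r1
        have e : (x : ℤ) - c₂ - (x - c₁) + (c₂ + c₁) = 2 * c₁ := by ring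
        rwa [e] at this
    · rintro ⟨h, h'⟩
      rw [mod_iff_dvd hl₁, hM, dvd_both] at h
      rw [mod_iff_dvd' h02 hl₂, hM, dvd_both] at h'
      rcases hrel with ⟨r1, r2⟩ | ⟨r1, r2⟩
      · apply hM2
        have := dvd_sub (dvd_sub h'.1 h.1) r1
        have e : (x : ℤ) + c₂ - (x - c₁) - (c₂ - c₁) = 2 * c₁ := by ring
        rwa [e] at this
      · apply hM3
        have := dvd_sub (dvd_sub h'.2 h.2) r2
        have e : (x : ℤ) + c₂ - (x - c₁) - (c₂ - c₁) = 2 * c₁ := by ring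
        rwa [e] at this
    · rintro ⟨h, h'⟩
      rw [mod_iff_dvd' h01 hl₁, hM, dvd_both] at h
      rw [mod_iff_dvd hl₂, hM, dvd_both] at h'
      rcases hrel with ⟨r1, r2⟩ | ⟨r1, r2⟩
      · apply hM2
        have := dvd_add (dvd_sub h.1 h'.1) r1
        have e : (x : ℤ) + c₁ - (x - c₂) + (c₂ - c₁) = 2 * c₂ := by ring
        rw [e] at this
        exact absurd this hM2'
      · apply hM3
        have := dvd_add (dvd_sub h.2 h'.2) r2
        have e : (x : ℤ) + c₁ - (x - c₂) + (c₂ - c₁) = 2 * c₂ := by ring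
        rw [e] at this
        exact absurd this hM3'
    · rintro ⟨h, h'⟩
      rw [mod_iff_dvd' h01 hl₁, hM, dvd_both] at h
      rw [mod_iff_dvd' h02 hl₂, hM, dvd_both] at h'
      rcases hrel with ⟨r1, r2⟩ | ⟨r1, r2⟩
      · apply hM3
        have := dvd_sub r2 (dvd_sub h'.2 h.2)
        have e : (c₂ : ℤ) + c₁ - (x + c₂ - (x + c₁)) = 2 * c₁ := by ring
        rwa [e] at this
      · apply hM2
        have := dvd_sub r1 (dvd_sub h'.1 h.1)
        have e : (c₂ : ℤ) + c₁ - (x + c₂ - (x + c₁)) = 2 * c₁ := by ring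
        rwa [e] at this
    · rintro ⟨h, h'⟩
      rw [mod_iff_dvd hl₂, hM, dvd_both] at h
      rw [mod_iff_dvd' h02 hl₂, hM, dvd_both] at h'
      apply hM2'
      have := dvd_sub h'.1 h.1
      have e : (x : ℤ) + c₂ - (x - c₂) = 2 * c₂ := by ring
      rwa [e] at this
  have h5 : ∑ x ∈ range (2 ^ a * 3 ^ b), ((if x % M = c₁ then f x else 0) + (if x % M = M - c₁ then f x else 0) +
      (if x % M = c₂ then f x else 0) + (if x % M = M - c₂ then f x else 0)) = 0 := by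
    refine Eq.trans (Finset.sum_congr rfl fun x _ => (hkey x).symm) h4
  rw [Finset.sum_add_distrib, Finset.sum_add_distrib, Finset.sum_add_distrib, hrefl c₁ h01 hl₁ hc₁,
    hrefl c₂ h02 hl₂ hc₂, ← hTT c₁ hl₁, ← hTT c₂ hl₂] at h5
  have h6 : 2 * (TT a b m χ c₁ + TT a b m χ c₂) = 0 := by linear_combination h5
  rcases mul_eq_zero.1 h6 with h7 | h7
  · exact absurd h7 h2k
  · exact h7

end

end Pool.Agent.H178.GC
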